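import Pool.Agent.NH78.SG.Stm

/-!
# Project SG: the six explicit blocks (helper99)
-/

set_option autoImplicit false

namespace Pool.Agent.NH78.SG

open Finset

namespace BLK

/-- the product of the numbers `p b - q a`, for the fractions `a / b` in the list -/
def nmq (p q : ℤ) : List (ℤ × ℤ) → ℤ
  | [] => 1
  | s :: l => (p * s.2 - q * s.1) * nmq p q l

/-- the product of the denominators `q b` -/
def dnq (q : ℤ) : List (ℤ × ℤ) → ℤ
  | [] => 1
  | s :: l => (q * s.2) * dnq q l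

lemma nmq_cons (p q : ℤ) (s : ℤ × ℤ) (l : List (ℤ × ℤ)) :
    nmq p q (s :: l) = (p * s.2 - q * s.1) * nmq p q l := rfl

lemma dnq_cons (q : ℤ) (s : ℤ × ℤ) (l : List (ℤ × ℤ)) : dnq q (s :: l) = (q * s.2) * dnq q l := rfl

/-- the fraction -/
def fr (p : ℤ × ℤ) : ℚ := (p.1 : ℚ) / p.2

/-- the denominators are positive and the fractions are distinct -/
def okL (l : List (ℤ × ℤ)) : Prop :=
  (∀ p ∈ l, 0 < p.2) ∧ l.Pairwise fun p q => p.1 * q.2 ≠ q.1 * p.2

instance (l : List (ℤ × ℤ)) : Decidable (okL l) := by unfold okL; infer_instance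

lemma nodup {l : List (ℤ × ℤ)} (h : okL l) : (l.map fr).Nodup := by
  unfold List.Nodup
  rw [List.pairwise_map]
  refine (h.2.imp_of_mem ?_)
  intro p q hp hq hne heq
  apply hne
  have h1 : (0 : ℚ) < p.2 := by exact_mod_cast h.1 p hp
  have h2 : (0 : ℚ) < q.2 := by exact_mod_cast h.1 q hq
  unfold fr at heq
  rw [div_eq_div_iff h1.ne' h2.ne'] at heq
  exact_mod_cast heq

lemma eval_list (l : List (ℤ × ℤ)) (h : ∀ p ∈ l, 0 < p.2) (p q : ℤ) (hq : 0 < q) :
    ((l.map fr).map fun s => (p : ℚ) / q - s).prod = (nmq p q l : ℚ) / dnq q l := by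
  induction l with
  | nil => simp [nmq, dnq]
  | cons s l ih =>
    have h1 : (0 : ℚ) < s.2 := by exact_mod_cast h s List.mem_cons_self
    have h2 : (0 : ℚ) < q := by exact_mod_cast hq
    rw [List.map_cons, List.map_cons, List.prod_cons, ih fun r hr => h r (List.mem_cons_of_mem _ hr)]
    rw [nmq_cons, dnq_cons]
    unfold fr
    push_cast
    rw [mul_div_mul_comm]
    congr 1
    rw [div_sub_div _ _ h2.ne' h1.ne']

lemma dnq_pos (l : List (ℤ × ℤ)) (h : ∀ p ∈ l, 0 < p.2) (q : ℤ) (hq : 0 < q) : 0 < dnq q l := by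
  induction l with
  | nil => simp [dnq]
  | cons p l ih =>
    rw [dnq_cons]
    exact mul_pos (mul_pos hq (h p List.mem_cons_self)) (ih fun q hq => h q (List.mem_cons_of_mem _ hq))

/-- the numerators of the six roots of the atom -/
def Z : Finset ℤ := {114, 197, 311, -114, -197, -311}

/-- a block -/
def good (l : List (ℤ × ℤ)) (c : ℤ) : Prop :=
  okL l ∧ (nmq (-3) 1 l = c ∧ nmq (-2) 1 l = c ∧ nmq (-1) 1 l = c ∧ nmq 1 1 l = c ∧ nmq 2 1 l = c ∧
    nmq 3 1 l = c) ∧ 0 < c ∧ (∃ p ∈ l, 3 * p.2 < p.1) ∧ (∀ p ∈ Z, 0 < nmq p 103 l) ∧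
  ∀ t ∈ Finset.range 6, (l.length % 2 = 1 ∨ t % 2 = 0) →
    ∃ k ∈ (1 : ℤ) :: ([114, 197, 311, -114, -197, -311] : List ℤ).map (fun p => nmq p 103 l + 1),
      0 < k ∧ (∀ p ∈ Z, nmq p 103 l ≠ k) ∧ (Z.filter fun p => nmq p 103 l < k).card = t

instance (l : List (ℤ × ℤ)) (c : ℤ) : Decidable (good l c) := by unfold good; infer_instance

/-- the roots -/
def g (p : ℤ) : ℚ := (p : ℚ) / 103

lemma g_inj : Function.Injective g := by
  intro a b h
  unfold g at h
  have h1 : (a : ℚ) = b := by linarith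
  exact_mod_cast h1

lemma PQ_eq {l : List (ℤ × ℤ)} (h : okL l) (p q : ℤ) (hq : 0 < q) :
    PQ (l.map fr).toFinset ((p : ℚ) / q) = (nmq p q l : ℚ) / dnq q l := by
  unfold PQ
  rw [List.prod_toFinset _ (nodup h), eval_list l h.1 p q hq]

lemma spl : Spl ((114 * 197 * 311 : ℚ) / 103 ^ 3) (Z.image g) := by
  constructor
  · rw [Finset.card_image_of_injective _ g_inj]
    decide
  · intro x
    unfold PT ss
    rw [Finset.prod_image fun a _ b _ h => g_inj h]
    unfold Z g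
    rw [Finset.prod_insert (by decide), Finset.prod_insert (by decide), Finset.prod_insert (by decide),
      Finset.prod_insert (by decide), Finset.prod_insert (by decide), Finset.prod_singleton]
    push_cast
    ring

lemma of_good {l : List (ℤ × ℤ)} {c : ℤ} (h : good l c) (n : ℕ) (hn : l.length % 6 = n % 6)
    (h45 : l.length ≤ 45) :
    ∃ (S : Finset ℚ) (v₀ c₀ : ℚ) (B₀ : Finset ℚ), S.card % 6 = n % 6 ∧
  S.card ≤ 45 ∧ Six S v₀ ∧ Spl c₀ B₀ ∧ 6 < c₀ ∧ c₀ < 7 ∧ (∀ ρ ∈ B₀, 0 < PQ S ρ) ∧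
  ∀ t ≤ 5, (n % 2 = 1 ∨ t % 2 = 0) → ∃ τ : ℚ, 0 < τ ∧ (∀ ρ ∈ B₀, PQ S ρ ≠ τ) ∧
    (B₀.filter fun ρ => PQ S ρ < τ).card = t := by
  obtain ⟨hok, ⟨h1, h2, h3, h4, h5, h6⟩, hc, ⟨p, hp, hp3⟩, hpos, ht⟩ := h
  have hd1 : (0 : ℚ) < dnq 1 l := by exact_mod_cast dnq_pos l hok.1 1 one_pos
  have hd : (0 : ℚ) < dnq 103 l := by exact_mod_cast dnq_pos l hok.1 103 (by norm_num)
  have hcQ : (0 : ℚ) < c := by exact_mod_cast hc
  have hcard : (l.map fr).toFinset.card = l.length := by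
    rw [List.toFinset_card_of_nodup (nodup hok), List.length_map]
  have hg : ∀ p : ℤ, PQ (l.map fr).toFinset (g p) = (nmq p 103 l : ℚ) / dnq 103 l := by
    intro p
    have := PQ_eq hok p 103 (by norm_num)
    unfold g
    exact_mod_cast this
  have hx : ∀ x : ℤ, nmq x 1 l = c → PQ (l.map fr).toFinset (x : ℚ) = (c : ℚ) / dnq 1 l := by
    intro x hx
    have := PQ_eq hok x 1 one_pos
    rw [hx] at this
    simpa using this
  refine ⟨(l.map fr).toFinset, (c : ℚ) / dnq 1 l, (114 * 197 * 311 : ℚ) / 103 ^ 3, Z.image g,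
    by rw [hcard]; exact hn, by rw [hcard]; exact h45, ⟨by positivity, ⟨fr p, ?_, ?_⟩, ?_⟩, spl,
    by norm_num, by norm_num, ?_, ?_⟩
  · rw [List.mem_toFinset, List.mem_map]
    exact ⟨p, hp, rfl⟩
  · have h1 : (0 : ℚ) < p.2 := by exact_mod_cast hok.1 p hp
    unfold fr
    rw [lt_div_iff₀ h1]
    exact_mod_cast hp3
  · intro b hb
    rcases hb with hb | hb | hb
    · have : (b - 1) * (b + 1) = 0 := by linarith
      rcases mul_eq_zero.1 this with h | h
      · have e : b = ((1 : ℤ) : ℚ) := by push_cast; linarith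
        rw [e]; exact hx 1 h4
      · have e : b = ((-1 : ℤ) : ℚ) := by push_cast; linarith
        rw [e]; exact hx (-1) h3
    · have : (b - 2) * (b + 2) = 0 := by linarith
      rcases mul_eq_zero.1 this with h | h
      · have e : b = ((2 : ℤ) : ℚ) := by push_cast; linarith
        rw [e]; exact hx 2 h5
      · have e : b = ((-2 : ℤ) : ℚ) := by push_cast; linarith
        rw [e]; exact hx (-2) h2
    · have : (b - 3) * (b + 3) = 0 := by linarith
      rcases mul_eq_zero.1 this with h | h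
      · have e : b = ((3 : ℤ) : ℚ) := by push_cast; linarith
        rw [e]; exact hx 3 h6
      · have e : b = ((-3 : ℤ) : ℚ) := by push_cast; linarith
        rw [e]; exact hx (-3) h1
  · intro ρ hρ
    obtain ⟨p, hp, rfl⟩ := Finset.mem_image.1 hρ
    rw [hg]
    have : (0 : ℚ) < nmq p 103 l := by exact_mod_cast hpos p hp
    positivity
  · intro t ht5 hpar
    obtain ⟨k, -, hk, hne, hcnt⟩ := ht t (Finset.mem_range.2 (by omega)) (by omega)
    have hkQ : (0 : ℚ) < k := by exact_mod_cast hk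
    refine ⟨(k : ℚ) / dnq 103 l, by positivity, ?_, ?_⟩
    · intro ρ hρ heq
      obtain ⟨p, hp, rfl⟩ := Finset.mem_image.1 hρ
      rw [hg, div_left_inj' hd.ne'] at heq
      exact hne p hp (by exact_mod_cast heq)
    · rw [Finset.filter_image, Finset.card_image_of_injective _ g_inj, ← hcnt]
      congr 1
      apply Finset.filter_congr
      intro p _
      rw [hg, div_lt_div_iff_of_pos_right hd]
      exact_mod_cast Iff.rfl

/-- a block of size 31 -/
def L1 : List (ℤ × ℤ) :=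
  [(-53, 1), (-15, 1), (-11, 2), (-83, 19), (-4, 1), (-11, 3), (-94, 31), (-38, 13), (-8, 3), (-47, 19), (-7, 3), (-17, 9), (-11, 7), (-6, 7), (-4, 7), (-6, 11), (1, 7), (6, 11), (6, 7), (3, 2), (11, 7), (29, 13), (9, 4), (47, 19), (38, 13), (94, 31), (17, 5), (4, 1), (83, 19), (9, 2), (5, 1)]

/-- a block of size 14 -/
def L2 : List (ℤ × ℤ) :=
  [(-37, 1), (-17, 1), (-13, 2), (-6, 1), (-19, 7), (-5, 2), (-6, 11), (6, 11), (5, 2), (19, 7), (6, 1), (13, 2), (17, 1), (37, 1)]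

/-- a block of size 45 -/
def L3 : List (ℤ × ℤ) :=
  [(-23, 1), (-19, 1), (-14, 1), (-12, 1), (-9, 1), (-6, 1), (-9, 2), (-83, 19), (-4, 1), (-7, 2), (-17, 5), (-13, 4), (-94, 31), (-38, 13), (-47, 19), (-9, 4), (-33, 16), (-5, 3), (-29, 23), (-3, 5), (-4, 7), (-2, 5), (-1, 4), (-1, 7), (1, 2), (4, 7), (3, 4), (29, 23), (5, 3), (33, 16), (9, 4), (12, 5), (38, 13), (94, 31), (13, 4), (17, 5), (7, 2), (11, 3), (4, 1), (9, 2), (11, 2), (9, 1), (14, 1), (19, 1), (23, 1)]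

/-- a block of size 22 -/
def L4 : List (ℤ × ℤ) :=
  [(-9, 1), (-11, 3), (-18, 5), (-94, 31), (-38, 13), (-109, 43), (-57, 31), (-7, 4), (-4, 3), (-37, 31), (-7, 13), (7, 13), (37, 31), (4, 3), (7, 4), (57, 31), (109, 43), (38, 13), (94, 31), (18, 5), (11, 3), (9, 1)]

/-- a block of size 29 -/
def L5 : List (ℤ × ℤ) :=
  [(-18, 1), (-15, 1), (-14, 1), (-13, 1), (-12, 1), (-10, 1), (-9, 1), (-8, 1), (-13, 4), (-38, 13), (-8, 3), (-7, 3), (-9, 4), (-2, 5), (-1, 9), (-1, 13), (1, 13), (1, 9), (3, 7), (29, 13), (7, 3), (8, 3), (38, 13), (13, 4), (5, 1), (11, 2), (7, 1), (15, 1), (18, 1)]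

lemma g0 : good (L2 ++ L4) (nmq 1 1 (L2 ++ L4)) := by decide +kernel
lemma g1 : good L1 (nmq 1 1 L1) := by decide +kernel
lemma g2 : good L2 (nmq 1 1 L2) := by decide +kernel
lemma g3 : good L3 (nmq 1 1 L3) := by decide +kernel
lemma g4 : good L4 (nmq 1 1 L4) := by decide +kernel
lemma g5 : good L5 (nmq 1 1 L5) := by decide +kernel

end BLK

open BLK in
theorem t_BLK : S_BLK := by
  intro n
  have e0 : (L2 ++ L4).length = 36 := rfl
  have e1 : L1.length = 31 := rfl
  have e2 : L2.length = 14 := rfl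
  have e3 : L3.length = 45 := rfl
  have e4 : L4.length = 22 := rfl
  have e5 : L5.length = 29 := rfl
  have hcase : n % 6 = 0 ∨ n % 6 = 1 ∨ n % 6 = 2 ∨ n % 6 = 3 ∨ n % 6 = 4 ∨ n % 6 = 5 := by omega
  rcases hcase with h | h | h | h | h | h
  · exact of_good g0 n (by rw [e0]; omega) (by rw [e0]; omega)
  · exact of_good g1 n (by rw [e1]; omega) (by rw [e1]; omega)
  · exact of_good g2 n (by rw [e2]; omega) (by rw [e2]; omega)
  · exact of_good g3 n (by rw [e3]; omega) e3.le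
  · exact of_good g4 n (by rw [e4]; omega) (by rw [e4]; omega)
  · exact of_good g5 n (by rw [e5]; omega) (by rw [e5]; omega)

end Pool.Agent.NH78.SG
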