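import Pool.Agent.NH78.SG.Stm
import Pool.Agent.TH665.CG6.Fin

set_option autoImplicit false

namespace Pool.Agent.NH78.SG

open Finset

namespace BLKb

open Pool.Agent.TH665.CG6

/-- the numerator of the value at `a / 103` -/
def val (a : ℤ) : List (ℤ × ℤ) → ℤ
  | [] => 1
  | p :: l => (a * p.2 - 103 * p.1) * val a l

/-- the denominator -/
def dv : List (ℤ × ℤ) → ℤ
  | [] => 1
  | p :: l => 103 * p.2 * dv l

def A : Finset ℤ := {114, 197, 311, -114, -197, -311}

def ok (l : List (ℤ × ℤ)) (o : Bool) : Prop :=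
  (∀ a ∈ A, 0 < val a l) ∧ ∀ t ∈ range 6, (o = true ∨ t % 2 = 0) →
    ∃ T ∈ insert 1 (A.image fun a => val a l + 1), 0 < T ∧ (∀ a ∈ A, val a l ≠ T) ∧
      (A.filter fun a => val a l < T).card = t

instance (l : List (ℤ × ℤ)) (o : Bool) : Decidable (ok l o) := by unfold ok; infer_instance

theorem o0 : ok (L2 ++ L4) false := by decide +kernel
theorem o1 : ok L1 true := by decide +kernel
theorem o2 : ok L2 false := by decide +kernel
theorem o3 : ok L3 true := by decide +kernel
theorem o4 : ok L4 false := by decide +kernel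
theorem o5 : ok L5 true := by decide +kernel

theorem b24 : blk (L2 ++ L4) (1267136462592000 * 6982916965803264245760000000) := by decide +kernel

theorem eval_val (l : List (ℤ × ℤ)) (h : ∀ p ∈ l, 0 < p.2) (a : ℤ) :
    ((l.map fr).map fun s => (a : ℚ) / 103 - s).prod = (val a l : ℚ) / dv l := by
  induction l with
  | nil => simp [val, dv]
  | cons p l ih =>
    have h1 : (0 : ℚ) < p.2 := by exact_mod_cast h p List.mem_cons_self
    rw [List.map_cons, List.map_cons, List.prod_cons, ih fun q hq => h q (List.mem_cons_of_mem _ hq)]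
    show _ = (((a * p.2 - 103 * p.1) * val a l : ℤ) : ℚ) / ((103 * p.2 * dv l : ℤ) : ℚ)
    unfold fr
    push_cast
    rw [mul_div_mul_comm]
    congr 1
    field_simp

theorem dv_pos (l : List (ℤ × ℤ)) (h : ∀ p ∈ l, 0 < p.2) : 0 < dv l := by
  induction l with
  | nil => simp [dv]
  | cons p l ih =>
    have h1 := h p List.mem_cons_self
    have h2 := ih fun q hq => h q (List.mem_cons_of_mem _ hq)
    show 0 < 103 * p.2 * dv l
    positivity

theorem PQ_list {l : List (ℤ × ℤ)} (hnd : (l.map fr).Nodup) (x : ℚ) :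
    PQ (l.map fr).toFinset x = ((l.map fr).map fun s => x - s).prod := by
  unfold PQ
  rw [List.prod_toFinset _ hnd]

def B : Finset ℚ := A.image fun a : ℤ => (a : ℚ) / 103

theorem inj : Function.Injective fun a : ℤ => (a : ℚ) / 103 := by
  intro a b h
  have h' : (a : ℚ) / 103 = (b : ℚ) / 103 := h
  have : (a : ℚ) = b := by linarith
  exact_mod_cast this

theorem spl : Spl (114 * 197 * 311 / 103 ^ 3) B := by
  constructor
  · unfold B
    rw [Finset.card_image_of_injective _ inj]
    decide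
  · intro x
    unfold PT B ss
    rw [Finset.prod_image fun a _ b _ h => inj h]
    unfold A
    rw [Finset.prod_insert (by decide), Finset.prod_insert (by decide),
      Finset.prod_insert (by decide), Finset.prod_insert (by decide),
      Finset.prod_insert (by decide), Finset.prod_singleton]
    push_cast
    ring

theorem key {l : List (ℤ × ℤ)} {c : ℤ} {o : Bool} (h : blk l c) (ho : ok l o) (n : ℕ)
    (hlen : l.length ≤ 45) (hmod : l.length % 6 = n % 6) (hn : n % 2 = 1 → o = true) :
    ∃ (S : Finset ℚ) (v₀ c₀ : ℚ) (B₀ : Finset ℚ), S.card % 6 = n % 6 ∧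
      S.card ≤ 45 ∧ Six S v₀ ∧ Spl c₀ B₀ ∧ 6 < c₀ ∧ c₀ < 7 ∧ (∀ ρ ∈ B₀, 0 < PQ S ρ) ∧
      ∀ t ≤ 5, (n % 2 = 1 ∨ t % 2 = 0) → ∃ τ : ℚ, 0 < τ ∧ (∀ ρ ∈ B₀, PQ S ρ ≠ τ) ∧
        (B₀.filter fun ρ => PQ S ρ < τ).card = t := by
  obtain ⟨hok, h1, h2, h3, h4, h5, h6, hc, p, hp, hp3⟩ := h
  have hnd := hok.nodup
  have hd := dn_pos l hok.1
  have hdQ : (0 : ℚ) < dn l := by exact_mod_cast hd
  have hv := dv_pos l hok.1
  have hvQ : (0 : ℚ) < dv l := by exact_mod_cast hv
  have hcQ : (0 : ℚ) < c := by exact_mod_cast hc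
  have hcard : (l.map fr).toFinset.card = l.length := by
    rw [List.toFinset_card_of_nodup hnd, List.length_map]
  have hev : ∀ x : ℤ, PQ (l.map fr).toFinset (x : ℚ) = (nm x l : ℚ) / dn l := fun x => by
    rw [PQ_list hnd, eval_list l hok.1 x]
  have hval : ∀ a : ℤ, PQ (l.map fr).toFinset ((a : ℚ) / 103) = (val a l : ℚ) / dv l := fun a => by
    rw [PQ_list hnd, eval_val l hok.1 a]
  refine ⟨(l.map fr).toFinset, (c : ℚ) / dn l, 114 * 197 * 311 / 103 ^ 3, B, by rw [hcard]; exact hmod,
    by rw [hcard]; exact hlen, ⟨by positivity, ⟨fr p, ?_, ?_⟩, ?_⟩, spl, by norm_num, by norm_num,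
    ?_, ?_⟩
  · rw [List.mem_toFinset, List.mem_map]
    exact ⟨p, hp, rfl⟩
  · have h1 : (0 : ℚ) < p.2 := by exact_mod_cast hok.1 p hp
    unfold fr
    rw [lt_div_iff₀ h1]
    exact_mod_cast hp3
  · intro b hb
    have hb' : b = ((-3 : ℤ) : ℚ) ∨ b = ((-2 : ℤ) : ℚ) ∨ b = ((-1 : ℤ) : ℚ) ∨ b = ((1 : ℤ) : ℚ) ∨
        b = ((2 : ℤ) : ℚ) ∨ b = ((3 : ℤ) : ℚ) := by
      push_cast
      rcases hb with hb | hb | hb
      · have : (b - 1) * (b + 1) = 0 := by linarith
        rcases mul_eq_zero.1 this with h | h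
        · have : b = 1 := by linarith
          simp [this]
        · have : b = -1 := by linarith
          simp [this]
      · have : (b - 2) * (b + 2) = 0 := by linarith
        rcases mul_eq_zero.1 this with h | h
        · have : b = 2 := by linarith
          simp [this]
        · have : b = -2 := by linarith
          simp [this]
      · have : (b - 3) * (b + 3) = 0 := by linarith
        rcases mul_eq_zero.1 this with h | h
        · have : b = 3 := by linarith
          simp [this]
        · have : b = -3 := by linarith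
          simp [this]
    rcases hb' with rfl | rfl | rfl | rfl | rfl | rfl <;> rw [hev]
    · rw [h1]
    · rw [h2]
    · rw [h3]
    · rw [h4]
    · rw [h5]
    · rw [h6]
  · intro ρ hρ
    obtain ⟨a, ha, rfl⟩ := Finset.mem_image.1 hρ
    rw [hval]
    have : (0 : ℚ) < val a l := by exact_mod_cast ho.1 a ha
    positivity
  · intro t ht hpar
    obtain ⟨T, -, hT0, hT1, hT2⟩ := ho.2 t (Finset.mem_range.2 (by omega))
      (hpar.imp hn id)
    have hT0Q : (0 : ℚ) < T := by exact_mod_cast hT0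
    refine ⟨(T : ℚ) / dv l, by positivity, ?_, ?_⟩
    · intro ρ hρ h
      obtain ⟨a, ha, rfl⟩ := Finset.mem_image.1 hρ
      rw [hval, div_left_inj' hvQ.ne'] at h
      exact hT1 a ha (by exact_mod_cast h)
    · rw [← hT2, ← Finset.card_image_of_injective (A.filter fun a => val a l < T) inj]
      congr 1
      ext ρ
      simp only [Finset.mem_filter, Finset.mem_image, B]
      constructor
      · rintro ⟨⟨a, ha, rfl⟩, h⟩
        rw [hval, div_lt_div_iff_of_pos_right hvQ] at h
        exact ⟨a, ⟨ha, by exact_mod_cast h⟩, rfl⟩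
      · rintro ⟨a, ⟨ha, h⟩, rfl⟩
        refine ⟨⟨a, ha, rfl⟩, ?_⟩
        rw [hval, div_lt_div_iff_of_pos_right hvQ]
        exact_mod_cast h

end BLKb

open BLKb Pool.Agent.TH665.CG6 in
theorem t_BLKb : S_BLK := by
  intro n
  have hcase : n % 6 = 0 ∨ n % 6 = 1 ∨ n % 6 = 2 ∨ n % 6 = 3 ∨ n % 6 = 4 ∨ n % 6 = 5 := by omega
  have h24 : (L2 ++ L4).length = 36 := rfl
  have h1 : L1.length = 31 := rfl
  have h2 : L2.length = 14 := rfl
  have h3 : L3.length = 45 := rfl
  have h4 : L4.length = 22 := rfl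
  have h5 : L5.length = 29 := rfl
  rcases hcase with h | h | h | h | h | h
  · exact key b24 o0 n (by rw [h24]; omega) (by rw [h24]; omega) (fun h' => by omega)
  · exact key b1 o1 n (by rw [h1]; omega) (by rw [h1]; omega) (fun _ => rfl)
  · exact key b2 o2 n (by rw [h2]; omega) (by rw [h2]; omega) (fun h' => by omega)
  · exact key b3 o3 n (by rw [h3]) (by rw [h3]; omega) (fun _ => rfl)
  · exact key b4 o4 n (by rw [h4]; omega) (by rw [h4]; omega) (fun h' => by omega)
  · exact key b5 o5 n (by rw [h5]; omega) (by rw [h5]; omega) (fun _ => rfl)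

end Pool.Agent.NH78.SG
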