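import Pool.Agent.NH78.SG.Stm
import Pool.Agent.TH665.CG6.Fin

/-!
# SG-BLK: the six explicit blocks
-/

set_option autoImplicit false

namespace Pool.Agent.NH78.SG

open Finset Pool.Agent.TH665.CG6

namespace BLKh

/-- the product of the numbers `X q - 103 p`, for the fractions `p / q` in the list -/
def nmr (X : ℤ) : List (ℤ × ℤ) → ℤ
  | [] => 1
  | p :: l => (X * p.2 - 103 * p.1) * nmr X l

def Xs : Finset ℤ := {114, 197, 311, -114, -197, -311}

/-- the scale -/
def sc (l : List (ℤ × ℤ)) : ℚ := 103 ^ l.length * (dn l : ℚ)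

theorem nmr_list (l : List (ℤ × ℤ)) (h : ∀ p ∈ l, 0 < p.2) (X : ℤ) :
    ((l.map fr).map fun s => ((X : ℚ) / 103) - s).prod = (nmr X l : ℚ) / sc l := by
  induction l with
  | nil => simp [nmr, dn, sc]
  | cons p l ih =>
    have h1 : (0 : ℚ) < p.2 := by exact_mod_cast h p List.mem_cons_self
    have h2 : (0 : ℚ) < dn l := by exact_mod_cast dn_pos l fun q hq => h q (List.mem_cons_of_mem _ hq)
    rw [List.map_cons, List.map_cons, List.prod_cons, ih fun q hq => h q (List.mem_cons_of_mem _ hq)]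
    have h3 : nmr X (p :: l) = (X * p.2 - 103 * p.1) * nmr X l := rfl
    rw [h3]
    unfold fr sc
    rw [List.length_cons, dn_cons]
    push_cast
    field_simp
    ring

/-- the set of the fractions of the list -/
def St (l : List (ℤ × ℤ)) : Finset ℚ := (l.map fr).toFinset

theorem PQ_list {l : List (ℤ × ℤ)} (h : okL l) (x : ℚ) :
    PQ (St l) x = ((l.map fr).map fun s => x - s).prod := by
  unfold PQ St
  rw [List.prod_toFinset _ h.nodup]

theorem sc_pos {l : List (ℤ × ℤ)} (h : okL l) : 0 < sc l := by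
  have h2 : (0 : ℚ) < dn l := by exact_mod_cast dn_pos l h.1
  unfold sc
  positivity

theorem six {l : List (ℤ × ℤ)} {c : ℤ} (h : blk l c) : Six (St l) ((c : ℚ) / dn l) := by
  obtain ⟨hok, h1, h2, h3, h4, h5, h6, hc, p, hp, hp3⟩ := h
  have hd : (0 : ℚ) < dn l := by exact_mod_cast dn_pos l hok.1
  have hcQ : (0 : ℚ) < c := by exact_mod_cast hc
  refine ⟨by positivity, ⟨fr p, ?_, ?_⟩, ?_⟩
  · unfold St
    rw [List.mem_toFinset, List.mem_map]
    exact ⟨p, hp, rfl⟩
  · have h1 : (0 : ℚ) < p.2 := by exact_mod_cast hok.1 p hp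
    unfold fr
    rw [lt_div_iff₀ h1]
    exact_mod_cast hp3
  · have hev : ∀ x : ℤ, PQ (St l) (x : ℚ) = (nm x l : ℚ) / dn l := fun x => by
      rw [PQ_list hok, eval_list l hok.1 x]
    intro b hb
    rcases hb with h | h | h
    · have h5' : (b - 1) * (b + 1) = 0 := by linarith
      rcases mul_eq_zero.1 h5' with h6' | h6'
      · have : b = ((1 : ℤ) : ℚ) := by push_cast; linarith
        rw [this, hev, h4]
      · have : b = ((-1 : ℤ) : ℚ) := by push_cast; linarith
        rw [this, hev, h3]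
    · have h5' : (b - 2) * (b + 2) = 0 := by linarith
      rcases mul_eq_zero.1 h5' with h6' | h6'
      · have : b = ((2 : ℤ) : ℚ) := by push_cast; linarith
        rw [this, hev, h5]
      · have : b = ((-2 : ℤ) : ℚ) := by push_cast; linarith
        rw [this, hev, h2]
    · have h5' : (b - 3) * (b + 3) = 0 := by linarith
      rcases mul_eq_zero.1 h5' with h6' | h6'
      · have : b = ((3 : ℤ) : ℚ) := by push_cast; linarith
        rw [this, hev, h6]
      · have : b = ((-3 : ℤ) : ℚ) := by push_cast; linarith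
        rw [this, hev, h1]

/-- the atom -/
def B₀ : Finset ℚ := Xs.image fun X : ℤ => (X : ℚ) / 103

theorem inj : Function.Injective fun X : ℤ => (X : ℚ) / 103 := by
  intro a b h
  have h1 : (a : ℚ) / 103 = (b : ℚ) / 103 := h
  have h2 : (a : ℚ) = b := by linarith
  exact_mod_cast h2

theorem splB : Spl ((114 * 197 * 311) / 103 ^ 3) B₀ := by
  refine ⟨?_, fun x => ?_⟩
  · unfold B₀
    rw [Finset.card_image_of_injective _ inj]
    decide
  · unfold PT B₀
    rw [Finset.prod_image fun a _ b _ h => inj h]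
    unfold Xs ss
    rw [Finset.prod_insert (by decide), Finset.prod_insert (by decide), Finset.prod_insert (by decide),
      Finset.prod_insert (by decide), Finset.prod_insert (by decide), Finset.prod_singleton]
    push_cast
    ring

/-- everything from the list -/
theorem main {l : List (ℤ × ℤ)} {c : ℤ} (h : blk l c) (n : ℕ) (h6 : l.length % 6 = n % 6)
    (h45 : l.length ≤ 45) (hpos : ∀ X ∈ Xs, 0 < nmr X l) (th : ℕ → ℤ)
    (hth : ∀ t ≤ 5, (n % 2 = 1 ∨ t % 2 = 0) → 0 < th t ∧ (∀ X ∈ Xs, nmr X l ≠ th t) ∧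
      (Xs.filter fun X => nmr X l < th t).card = t) :
    ∃ (S : Finset ℚ) (v₀ c₀ : ℚ) (B₀ : Finset ℚ), S.card % 6 = n % 6 ∧
      S.card ≤ 45 ∧ Six S v₀ ∧ Spl c₀ B₀ ∧ 6 < c₀ ∧ c₀ < 7 ∧ (∀ ρ ∈ B₀, 0 < PQ S ρ) ∧
      ∀ t ≤ 5, (n % 2 = 1 ∨ t % 2 = 0) → ∃ τ : ℚ, 0 < τ ∧ (∀ ρ ∈ B₀, PQ S ρ ≠ τ) ∧
        (B₀.filter fun ρ => PQ S ρ < τ).card = t := by
  have hok : okL l := h.1
  have hsc := sc_pos hok
  have hcard : (St l).card = l.length := by
    unfold St
    rw [List.toFinset_card_of_nodup hok.nodup, List.length_map]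
  have hval : ∀ X : ℤ, PQ (St l) ((X : ℚ) / 103) = (nmr X l : ℚ) / sc l := fun X => by
    rw [PQ_list hok, nmr_list l hok.1 X]
  refine ⟨St l, (c : ℚ) / dn l, (114 * 197 * 311) / 103 ^ 3, B₀, ?_, ?_, six h, splB, by norm_num,
    by norm_num, ?_, ?_⟩
  · rw [hcard, h6]
  · rw [hcard]
    exact h45
  · intro ρ hρ
    obtain ⟨X, hX, rfl⟩ := Finset.mem_image.1 hρ
    rw [hval]
    have : (0 : ℚ) < nmr X l := by exact_mod_cast hpos X hX
    positivity
  · intro t ht hp
    obtain ⟨h1, h2, h3⟩ := hth t ht hp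
    have h1' : (0 : ℚ) < th t := by exact_mod_cast h1
    refine ⟨(th t : ℚ) / sc l, by positivity, ?_, ?_⟩
    · intro ρ hρ he
      obtain ⟨X, hX, rfl⟩ := Finset.mem_image.1 hρ
      rw [hval, div_left_inj' hsc.ne'] at he
      exact h2 X hX (by exact_mod_cast he)
    · unfold B₀
      rw [Finset.filter_image, Finset.card_image_of_injective _ inj]
      refine Eq.trans (congrArg Finset.card (Finset.filter_congr fun X _ => ?_)) h3
      rw [hval, div_lt_div_iff_of_pos_right hsc]
      exact_mod_cast Iff.rfl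

/-- the threshold from an ordering of the six numbers -/
def th (l : List (ℤ × ℤ)) (a b c d e : ℤ) (t : ℕ) : ℤ :=
  if t = 0 then 1 else if t = 1 then nmr a l + 1 else if t = 2 then nmr b l + 1 else
    if t = 3 then nmr c l + 1 else if t = 4 then nmr d l + 1 else nmr e l + 1

/-- the check for all `t` -/
def chk (l : List (ℤ × ℤ)) (a b c d e : ℤ) : Prop :=
  (∀ X ∈ Xs, 0 < nmr X l) ∧ ∀ t < 6, 0 < th l a b c d e t ∧
    (∀ X ∈ Xs, nmr X l ≠ th l a b c d e t) ∧ (Xs.filter fun X => nmr X l < th l a b c d e t).card = t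

instance (l : List (ℤ × ℤ)) (a b c d e : ℤ) : Decidable (chk l a b c d e) := by
  unfold chk
  infer_instance

/-- the check for even `t` -/
def chk2 (l : List (ℤ × ℤ)) (a b c d e : ℤ) : Prop :=
  (∀ X ∈ Xs, 0 < nmr X l) ∧ ∀ t < 6, t % 2 = 0 → 0 < th l a b c d e t ∧
    (∀ X ∈ Xs, nmr X l ≠ th l a b c d e t) ∧ (Xs.filter fun X => nmr X l < th l a b c d e t).card = t

instance (l : List (ℤ × ℤ)) (a b c d e : ℤ) : Decidable (chk2 l a b c d e) := by
  unfold chk2
  infer_instance

theorem k1 : chk L1 (-197) 311 (-311) 197 114 := by decide +kernel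
theorem k3 : chk L3 311 (-311) (-114) 114 (-197) := by decide +kernel
theorem k5 : chk L5 311 (-311) (-114) 114 (-197) := by decide +kernel
theorem k2 : chk2 L2 311 311 197 197 114 := by decide +kernel
theorem k4 : chk2 L4 197 197 114 114 311 := by decide +kernel
theorem k0 : chk2 (L2 ++ L4) 197 197 114 114 311 := by decide +kernel
theorem b24 : blk (L2 ++ L4) 8848308702621610088178957334609920000000000 := by decide +kernel

end BLKh

open BLKh in
theorem t_BLK : S_BLK := by
  intro n
  have hcase : n % 6 = 0 ∨ n % 6 = 1 ∨ n % 6 = 2 ∨ n % 6 = 3 ∨ n % 6 = 4 ∨ n % 6 = 5 := by omega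
  have e0 : (L2 ++ L4).length = 36 := rfl
  have e1 : L1.length = 31 := rfl
  have e2 : L2.length = 14 := rfl
  have e3 : L3.length = 45 := rfl
  have e4 : L4.length = 22 := rfl
  have e5 : L5.length = 29 := rfl
  rcases hcase with h | h | h | h | h | h
  · exact main b24 n (by omega) (by omega) k0.1 (th (L2 ++ L4) 197 197 114 114 311)
      fun t ht hp => k0.2 t (by omega) (by omega)
  · exact main b1 n (by omega) (by omega) k1.1 _ fun t ht _ => k1.2 t (by omega)
  · exact main b2 n (by omega) (by omega) k2.1 (th L2 311 311 197 197 114)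
      fun t ht hp => k2.2 t (by omega) (by omega)
  · exact main b3 n (by omega) (by omega) k3.1 _ fun t ht _ => k3.2 t (by omega)
  · exact main b4 n (by omega) (by omega) k4.1 (th L4 197 197 114 114 311)
      fun t ht hp => k4.2 t (by omega) (by omega)
  · exact main b5 n (by omega) (by omega) k5.1 _ fun t ht _ => k5.2 t (by omega)

end Pool.Agent.NH78.SG
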