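import Pool.Agent.NH78.SG.Stm

/-!
# SG-BLK: the explicit blocks
-/

set_option autoImplicit false

namespace Pool.Agent.NH78.SG

open Finset

namespace BLKx

/-- the product of the numbers `x q - r p`, for the fractions `p / q` in the list -/
def nmq (x r : ℤ) : List (ℤ × ℤ) → ℤ
  | [] => 1
  | p :: l => (x * p.2 - r * p.1) * nmq x r l

/-- the product of the denominators, times powers of `r` -/
def dnq (r : ℤ) : List (ℤ × ℤ) → ℤ
  | [] => 1
  | p :: l => (r * p.2) * dnq r l

/-- the fraction -/
def fr (p : ℤ × ℤ) : ℚ := (p.1 : ℚ) / p.2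

/-- the denominators are positive and the fractions are distinct -/
def okL (l : List (ℤ × ℤ)) : Prop :=
  (∀ p ∈ l, 0 < p.2) ∧ l.Pairwise fun p q => p.1 * q.2 ≠ q.1 * p.2

instance (l : List (ℤ × ℤ)) : Decidable (okL l) := by unfold okL; infer_instance

theorem okL.nodup {l : List (ℤ × ℤ)} (h : okL l) : (l.map fr).Nodup := by
  unfold List.Nodup
  rw [List.pairwise_map]
  refine (h.2.imp_of_mem ?_)
  intro p q hp hq hne heq
  apply hne
  have h1 : (0 : ℚ) < p.2 := by exact_mod_cast h.1 p hp
  have h2 : (0 : ℚ) < q.2 := by exact_mod_cast h.1 q hq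
  unfold fr at heq
  rw [div_eq_div_iff h1.ne' h2.ne'] at heq
  exact_mod_cast heq

theorem eval_list (l : List (ℤ × ℤ)) (h : ∀ p ∈ l, 0 < p.2) (x r : ℤ) (hr : 0 < r) :
    ((l.map fr).map fun s => (x : ℚ) / r - s).prod = (nmq x r l : ℚ) / dnq r l := by
  have hr' : (r : ℚ) ≠ 0 := by exact_mod_cast hr.ne'
  induction l with
  | nil => simp [nmq, dnq]
  | cons p l ih =>
    have h1 : (p.2 : ℚ) ≠ 0 := by exact_mod_cast (h p List.mem_cons_self).ne'
    rw [List.map_cons, List.map_cons, List.prod_cons, ih fun q hq => h q (List.mem_cons_of_mem _ hq)]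
    rw [show nmq x r (p :: l) = (x * p.2 - r * p.1) * nmq x r l from rfl,
      show dnq r (p :: l) = (r * p.2) * dnq r l from rfl]
    unfold fr
    push_cast
    rw [mul_div_mul_comm]
    congr 1
    field_simp

theorem dnq_pos (l : List (ℤ × ℤ)) (h : ∀ p ∈ l, 0 < p.2) (r : ℤ) (hr : 0 < r) : 0 < dnq r l := by
  induction l with
  | nil => simp [dnq]
  | cons p l ih =>
    rw [show dnq r (p :: l) = (r * p.2) * dnq r l from rfl]
    exact mul_pos (mul_pos hr (h p List.mem_cons_self)) (ih fun q hq => h q (List.mem_cons_of_mem _ hq))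

/-- the set -/
def SS (l : List (ℤ × ℤ)) : Finset ℚ := (l.map fr).toFinset

theorem PQ_eq {l : List (ℤ × ℤ)} (h : okL l) (x r : ℤ) (hr : 0 < r) :
    PQ (SS l) ((x : ℚ) / r) = (nmq x r l : ℚ) / dnq r l := by
  rw [← eval_list l h.1 x r hr]
  unfold PQ SS
  rw [List.prod_toFinset _ h.nodup]

/-- the numerators -/
def P6 : Finset ℤ := {114, 197, 311, -114, -197, -311}

/-- the atom -/
def B6 : Finset ℚ := P6.image fun p : ℤ => (p : ℚ) / ((103 : ℤ) : ℚ)

theorem inj : Function.Injective fun p : ℤ => (p : ℚ) / ((103 : ℤ) : ℚ) := by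
  intro a b h
  have h1 : (a : ℚ) / ((103 : ℤ) : ℚ) = (b : ℚ) / ((103 : ℤ) : ℚ) := h
  have h2 : (a : ℚ) = b := by
    have h3 : (((103 : ℤ) : ℚ)) ≠ 0 := by norm_num
    field_simp at h1
    exact h1
  exact_mod_cast h2

theorem splB : Spl (6984438 / 1092727) B6 := by
  refine ⟨?_, fun x => ?_⟩
  · unfold B6
    rw [card_image_of_injective _ inj]
    decide
  · unfold PT B6 ss
    rw [prod_image fun a _ b _ h => inj h]
    rw [show P6 = {114, 197, 311, -114, -197, -311} from rfl]
    rw [prod_insert (by decide), prod_insert (by decide), prod_insert (by decide),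
      prod_insert (by decide), prod_insert (by decide), prod_singleton]
    push_cast
    ring

/-- an explicit block -/
def blk (l : List (ℤ × ℤ)) (c : ℤ) : Prop :=
  okL l ∧ (nmq (-3) 1 l = c ∧ nmq (-2) 1 l = c ∧ nmq (-1) 1 l = c ∧ nmq 1 1 l = c ∧ nmq 2 1 l = c ∧
    nmq 3 1 l = c) ∧ 0 < c ∧ (∃ p ∈ l, 3 * p.2 < p.1) ∧ ∀ p ∈ P6, 0 < nmq p 103 l

instance (l : List (ℤ × ℤ)) (c : ℤ) : Decidable (blk l c) := by unfold blk; infer_instance

/-- the level `T` has `t` values below -/
def lev (l : List (ℤ × ℤ)) (T : ℤ) (t : ℕ) : Prop :=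
  0 < T ∧ (∀ p ∈ P6, nmq p 103 l ≠ T) ∧ (P6.filter fun p => nmq p 103 l < T).card = t

instance (l : List (ℤ × ℤ)) (T : ℤ) (t : ℕ) : Decidable (lev l T t) := by unfold lev; infer_instance

theorem six {l : List (ℤ × ℤ)} {c : ℤ} (h : blk l c) : Six (SS l) ((c : ℚ) / dnq 1 l) := by
  obtain ⟨hok, ⟨h1, h2, h3, h4, h5, h6⟩, hc, ⟨p, hp, hp3⟩, -⟩ := h
  have hd : (0 : ℚ) < dnq 1 l := by exact_mod_cast dnq_pos l hok.1 1 one_pos
  have hc' : (0 : ℚ) < c := by exact_mod_cast hc
  refine ⟨div_pos hc' hd, ⟨fr p, ?_, ?_⟩, fun b hb => ?_⟩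
  · unfold SS
    rw [List.mem_toFinset, List.mem_map]
    exact ⟨p, hp, rfl⟩
  · have h1 : (0 : ℚ) < p.2 := by exact_mod_cast hok.1 p hp
    unfold fr
    rw [lt_div_iff₀ h1]
    exact_mod_cast hp3
  · have key : ∀ x : ℤ, nmq x 1 l = c → PQ (SS l) (x : ℚ) = (c : ℚ) / dnq 1 l := by
      intro x hx
      have h7 := PQ_eq hok x 1 one_pos
      rw [hx] at h7
      simpa using h7
    have hb' : b = ((-3 : ℤ) : ℚ) ∨ b = ((-2 : ℤ) : ℚ) ∨ b = ((-1 : ℤ) : ℚ) ∨ b = ((1 : ℤ) : ℚ) ∨
        b = ((2 : ℤ) : ℚ) ∨ b = ((3 : ℤ) : ℚ) := by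
      push_cast
      rcases hb with hb | hb | hb
      · have : (b - 1) * (b + 1) = 0 := by linear_combination hb
        rcases mul_eq_zero.1 this with h | h
        · right; right; right; left; linear_combination h
        · right; right; left; linear_combination h
      · have : (b - 2) * (b + 2) = 0 := by linear_combination hb
        rcases mul_eq_zero.1 this with h | h
        · right; right; right; right; left; linear_combination h
        · right; left; linear_combination h
      · have : (b - 3) * (b + 3) = 0 := by linear_combination hb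
        rcases mul_eq_zero.1 this with h | h
        · right; right; right; right; right; linear_combination h
        · left; linear_combination h
    rcases hb' with rfl | rfl | rfl | rfl | rfl | rfl
    exacts [key _ h1, key _ h2, key _ h3, key _ h4, key _ h5, key _ h6]

theorem posB {l : List (ℤ × ℤ)} {c : ℤ} (h : blk l c) : ∀ ρ ∈ B6, 0 < PQ (SS l) ρ := by
  obtain ⟨hok, -, -, -, h1⟩ := h
  intro ρ hρ
  unfold B6 at hρ
  obtain ⟨p, hp, rfl⟩ := mem_image.1 hρ
  rw [PQ_eq hok p 103 (by norm_num)]
  have hd : (0 : ℚ) < dnq 103 l := by exact_mod_cast dnq_pos l hok.1 103 (by norm_num)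
  have h2 : (0 : ℚ) < nmq p 103 l := by exact_mod_cast h1 p hp
  exact div_pos h2 hd

theorem level {l : List (ℤ × ℤ)} (hok : okL l) {T : ℤ} {t : ℕ} (h : lev l T t) :
    ∃ τ : ℚ, 0 < τ ∧ (∀ ρ ∈ B6, PQ (SS l) ρ ≠ τ) ∧ (B6.filter fun ρ => PQ (SS l) ρ < τ).card = t := by
  obtain ⟨h1, h2, h3⟩ := h
  have hd : (0 : ℚ) < dnq 103 l := by exact_mod_cast dnq_pos l hok.1 103 (by norm_num)
  have h1' : (0 : ℚ) < T := by exact_mod_cast h1
  refine ⟨(T : ℚ) / dnq 103 l, div_pos h1' hd, ?_, ?_⟩
  · intro ρ hρ
    unfold B6 at hρ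
    obtain ⟨p, hp, rfl⟩ := mem_image.1 hρ
    rw [PQ_eq hok p 103 (by norm_num)]
    intro h4
    rw [div_left_inj' hd.ne'] at h4
    exact h2 p hp (by exact_mod_cast h4)
  · unfold B6
    rw [filter_image, card_image_of_injective _ inj, ← h3]
    congr 1
    refine filter_congr fun p hp => ?_
    rw [PQ_eq hok p 103 (by norm_num), div_lt_div_iff_of_pos_right hd]
    exact_mod_cast Iff.rfl

theorem cardS {l : List (ℤ × ℤ)} (h : okL l) : (SS l).card = l.length := by
  unfold SS
  rw [List.toFinset_card_of_nodup h.nodup, List.length_map]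

theorem fin {n : ℕ} {l : List (ℤ × ℤ)} {c : ℤ} (h : blk l c) (hn : l.length % 6 = n % 6)
    (h45 : l.length ≤ 45) (hl : ∀ t ≤ 5, (n % 2 = 1 ∨ t % 2 = 0) → ∃ T, lev l T t) :
    ∃ (S : Finset ℚ) (v₀ c₀ : ℚ) (B₀ : Finset ℚ), S.card % 6 = n % 6 ∧
      S.card ≤ 45 ∧ Six S v₀ ∧ Spl c₀ B₀ ∧ 6 < c₀ ∧ c₀ < 7 ∧ (∀ ρ ∈ B₀, 0 < PQ S ρ) ∧
      ∀ t ≤ 5, (n % 2 = 1 ∨ t % 2 = 0) → ∃ τ : ℚ, 0 < τ ∧ (∀ ρ ∈ B₀, PQ S ρ ≠ τ) ∧
        (B₀.filter fun ρ => PQ S ρ < τ).card = t := by
  refine ⟨SS l, _, 6984438 / 1092727, B6, by rw [cardS h.1]; exact hn, by rw [cardS h.1]; exact h45,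
    six h, splB, by norm_num, by norm_num, posB h, fun t ht hp => ?_⟩
  obtain ⟨T, hT⟩ := hl t ht hp
  exact level h.1 hT

def l0 : List (ℤ × ℤ) :=
  [(-37, 1), (-17, 1), (-13, 2), (-6, 1), (-19, 7), (-5, 2), (-6, 11), (6, 11), (5, 2), (19, 7), (6, 1), (13, 2), (17, 1), (37, 1), (-9, 1), (-11, 3), (-18, 5), (-94, 31), (-38, 13), (-109, 43), (-57, 31), (-7, 4), (-4, 3), (-37, 31), (-7, 13), (7, 13), (37, 31), (4, 3), (7, 4), (57, 31), (109, 43), (38, 13), (94, 31), (18, 5), (11, 3), (9, 1)]

theorem b0 : blk l0 8848308702621610088178957334609920000000000 := by decide +kernel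

theorem v00 : lev l0 1 0 := by decide +kernel

theorem v02 : lev l0 8077051195453208772653944267189303879345539091899253888133332730011978932384808219107428402479196056584192000000001 2 := by decide +kernel

theorem v04 : lev l0 9517102751105760999169779121348095158654758481259245873659144984162494892226343259150758773958685753344000000000001 4 := by decide +kernel

def l1 : List (ℤ × ℤ) :=
  [(-53, 1), (-15, 1), (-11, 2), (-83, 19), (-4, 1), (-11, 3), (-94, 31), (-38, 13), (-8, 3), (-47, 19), (-7, 3), (-17, 9), (-11, 7), (-6, 7), (-4, 7), (-6, 11), (1, 7), (6, 11), (6, 7), (3, 2), (11, 7), (29, 13), (9, 4), (47, 19), (38, 13), (94, 31), (17, 5), (4, 1), (83, 19), (9, 2), (5, 1)]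

theorem b1 : blk l1 115332911833119439020097536000000000 := by decide +kernel

theorem v10 : lev l1 1 0 := by decide +kernel

theorem v11 : lev l1 6821067383624594725493411092285017457613357760739201415415395421544646463395256940049203200000001 1 := by decide +kernel

theorem v12 : lev l1 15627038064523922699697664906190723317490221914814854786648716219856856875702732246220800000000001 2 := by decide +kernel

theorem v13 : lev l1 16869776186312447709553925213146145006306677693520237111825977439065691308087623902822400000000001 3 := by decide +kernel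

theorem v14 : lev l1 37012562143447547108633449759061541695412142771297697582411006240514261574814778646541107200000001 4 := by decide +kernel

theorem v15 : lev l1 42948445339783625556240715430496703946506041544379530528398223158996028159427515231764480000000001 5 := by decide +kernel

def l2 : List (ℤ × ℤ) :=
  [(-37, 1), (-17, 1), (-13, 2), (-6, 1), (-19, 7), (-5, 2), (-6, 11), (6, 11), (5, 2), (19, 7), (6, 1), (13, 2), (17, 1), (37, 1)]

theorem b2 : blk l2 1267136462592000 := by decide +kernel

theorem v20 : lev l2 1 0 := by decide +kernel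

theorem v22 : lev l2 21518518609091702254000319045404724390400001 2 := by decide +kernel

theorem v24 : lev l2 22542685654960165125893325326871009009408001 4 := by decide +kernel

def l3 : List (ℤ × ℤ) :=
  [(-23, 1), (-19, 1), (-14, 1), (-12, 1), (-9, 1), (-6, 1), (-9, 2), (-83, 19), (-4, 1), (-7, 2), (-17, 5), (-13, 4), (-94, 31), (-38, 13), (-47, 19), (-9, 4), (-33, 16), (-5, 3), (-29, 23), (-3, 5), (-4, 7), (-2, 5), (-1, 4), (-1, 7), (1, 2), (4, 7), (3, 4), (29, 23), (5, 3), (33, 16), (9, 4), (12, 5), (38, 13), (94, 31), (13, 4), (17, 5), (7, 2), (11, 3), (4, 1), (9, 2), (11, 2), (9, 1), (14, 1), (19, 1), (23, 1)]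

theorem b3 : blk l3 385587151174971106857146182334939136000000000000 := by decide +kernel

theorem v30 : lev l3 1 0 := by decide +kernel

theorem v31 : lev l3 698539317657288437264206857926091342314617714050962702488156454717670200057856714268926419830122066156520186754872376426496000000000000001 1 := by decide +kernel

theorem v32 : lev l3 711535056308367895465148533806845011146977293454763942305446003447853539703291364786114041461809348176580526716058665595699200000000000001 2 := by decide +kernel

theorem v33 : lev l3 1608880762391594454856335494621390643380544090351027426462730303933167403216809858255325643172931872364952355523143403894210560000000000001 3 := by decide +kernel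

theorem v34 : lev l3 1738905937992352524575691017724989526470482263402023004488210829780494832173257455224750956172253506591828975932502252558745600000000000001 4 := by decide +kernel

theorem v35 : lev l3 3188407365618712293862201460144306733251215665416410977214418947798042386047909692367747669183729120263073727992585706568207564800000000001 5 := by decide +kernel

def l4 : List (ℤ × ℤ) :=
  [(-9, 1), (-11, 3), (-18, 5), (-94, 31), (-38, 13), (-109, 43), (-57, 31), (-7, 4), (-4, 3), (-37, 31), (-7, 13), (7, 13), (37, 31), (4, 3), (7, 4), (57, 31), (109, 43), (38, 13), (94, 31), (18, 5), (11, 3), (9, 1)]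

theorem b4 : blk l4 6982916965803264245760000000 := by decide +kernel

theorem v40 : lev l4 1 0 := by decide +kernel

theorem v42 : lev l4 358300307207450239374947088907071332020222867488690860740670029824000001 2 := by decide +kernel

theorem v44 : lev l4 412595748302753416083412974229698224665472547014237511613051699200000001 4 := by decide +kernel

def l5 : List (ℤ × ℤ) :=
  [(-18, 1), (-15, 1), (-14, 1), (-13, 1), (-12, 1), (-10, 1), (-9, 1), (-8, 1), (-13, 4), (-38, 13), (-8, 3), (-7, 3), (-9, 4), (-2, 5), (-1, 9), (-1, 13), (1, 13), (1, 9), (3, 7), (29, 13), (7, 3), (8, 3), (38, 13), (13, 4), (5, 1), (11, 2), (7, 1), (15, 1), (18, 1)]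

theorem b5 : blk l5 1418884566711518610063360000000 := by decide +kernel

theorem v50 : lev l5 1 0 := by decide +kernel

theorem v51 : lev l5 44948254494567318023863340966458117815251031073026555045287565791348236533387755520000001 1 := by decide +kernel

theorem v52 : lev l5 45186158971195300365943624079641169991678730594791548163346743488140463503268904960000001 2 := by decide +kernel

theorem v53 : lev l5 51024078513434508819988629847566215509888261436055286219840422804300872242094407680000001 3 := by decide +kernel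

theorem v54 : lev l5 51728244521892097243910634624867207418993187490169723039255046249591645632903249920000001 4 := by decide +kernel

theorem v55 : lev l5 53882419903009684760500743853714862260982532090122622442859187372084340000806666240000001 5 := by decide +kernel

end BLKx

open BLKx in
theorem t_BLKx : S_BLK := by
  intro n
  have hcase : n % 6 = 0 ∨ n % 6 = 1 ∨ n % 6 = 2 ∨ n % 6 = 3 ∨ n % 6 = 4 ∨ n % 6 = 5 := by omega
  rcases hcase with h | h | h | h | h | h

  · have e : l0.length = 36 := rfl
    refine fin b0 (by omega) (by omega) fun t ht hp => ?_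
    interval_cases t
    · exact ⟨_, v00⟩
    · omega
    · exact ⟨_, v02⟩
    · omega
    · exact ⟨_, v04⟩
    · omega
  · have e : l1.length = 31 := rfl
    refine fin b1 (by omega) (by omega) fun t ht hp => ?_
    interval_cases t
    · exact ⟨_, v10⟩
    · exact ⟨_, v11⟩
    · exact ⟨_, v12⟩
    · exact ⟨_, v13⟩
    · exact ⟨_, v14⟩
    · exact ⟨_, v15⟩
  · have e : l2.length = 14 := rfl
    refine fin b2 (by omega) (by omega) fun t ht hp => ?_
    interval_cases t
    · exact ⟨_, v20⟩
    · omega
    · exact ⟨_, v22⟩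
    · omega
    · exact ⟨_, v24⟩
    · omega
  · have e : l3.length = 45 := rfl
    refine fin b3 (by omega) (by omega) fun t ht hp => ?_
    interval_cases t
    · exact ⟨_, v30⟩
    · exact ⟨_, v31⟩
    · exact ⟨_, v32⟩
    · exact ⟨_, v33⟩
    · exact ⟨_, v34⟩
    · exact ⟨_, v35⟩
  · have e : l4.length = 22 := rfl
    refine fin b4 (by omega) (by omega) fun t ht hp => ?_
    interval_cases t
    · exact ⟨_, v40⟩
    · omega
    · exact ⟨_, v42⟩
    · omega
    · exact ⟨_, v44⟩
    · omega
  · have e : l5.length = 29 := rfl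
    refine fin b5 (by omega) (by omega) fun t ht hp => ?_
    interval_cases t
    · exact ⟨_, v50⟩
    · exact ⟨_, v51⟩
    · exact ⟨_, v52⟩
    · exact ⟨_, v53⟩
    · exact ⟨_, v54⟩
    · exact ⟨_, v55⟩

end Pool.Agent.NH78.SG
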