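import Pool.Agent.NH78.SG.Stm

/-!
# SG-CEN: no solution near a root of the atom at `cs i`
-/

set_option autoImplicit false

namespace Pool.Agent.NH78.SG

namespace CEN

open Finset

/-- the product without the factors of the pair `i` -/
noncomputable def H (T : Finset ℚ) (c₀ : ℝ) {q : ℕ} (cs : Fin q → ℝ) (i : Fin q)
    (p : ℝ × ℝ × (Fin q → ℝ)) : ℝ :=
  PT T p.1 * ((ss p.1 - c₀ ^ 2) * (ss p.1 - p.2.1 ^ 2)) *
    ∏ j ∈ univ.erase i, ((ss p.1 - cs j ^ 2) * (ss p.1 - p.2.2 j ^ 2))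

theorem cont (T : Finset ℚ) (c₀ : ℝ) {q : ℕ} (cs : Fin q → ℝ) (i : Fin q) :
    Continuous (H T c₀ cs i) := by
  have h1 : Continuous fun p : ℝ × ℝ × (Fin q → ℝ) => PT T p.1 := by
    unfold PT
    exact continuous_finsetProd _ fun a _ => continuous_fst.sub continuous_const
  have h2 : Continuous fun p : ℝ × ℝ × (Fin q → ℝ) => ss p.1 := by
    unfold ss
    fun_prop
  unfold H
  refine (h1.mul ((h2.sub continuous_const).mul (h2.sub (by fun_prop)))).mul ?_
  exact continuous_finsetProd _ fun j _ => (h2.sub continuous_const).mul (h2.sub (by fun_prop))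

theorem phi_eq (T : Finset ℚ) (c₀ : ℝ) {q : ℕ} (cs : Fin q → ℝ) (i : Fin q) (c' : ℝ)
    (ds : Fin q → ℝ) (x : ℝ) : Phi T c₀ cs c' ds x =
      H T c₀ cs i (x, c', ds) * ((ss x - cs i ^ 2) * (ss x - ds i ^ 2)) := by
  unfold Phi H
  rw [← Finset.mul_prod_erase univ _ (mem_univ i)]
  ring

end CEN

open Finset CEN in
theorem t_CEN : S_CEN := by
  intro T q c₀ cs i σ hσ h0 hj hT δ₀ hδ₀
  have hpos : 0 < H T c₀ cs i (σ, c₀, cs) := by
    unfold H
    refine mul_pos (mul_pos hT ?_) (Finset.prod_pos fun j hjm => ?_)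
    · simp only
      rw [hσ]
      exact mul_self_pos.2 (sub_ne_zero.2 h0)
    · simp only
      rw [hσ]
      exact mul_self_pos.2 (sub_ne_zero.2 (hj j (Finset.ne_of_mem_erase hjm)).symm)
  have hev := (cont T c₀ cs i).continuousAt.eventually (Ioo_mem_nhds hpos (lt_add_one _))
  obtain ⟨r, hr, hr'⟩ := Metric.eventually_nhds_iff.1 hev
  refine ⟨min (δ₀ / 2) r, lt_min (by linarith) hr, (min_le_left _ _).trans_lt (by linarith), r,
    (H T c₀ cs i (σ, c₀, cs) + 1) / 4, hr, by linarith, ?_⟩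
  intro c' ds v hc' hds hv hK
  have hempty : Sol T c₀ cs c' ds v ∩
      Set.Ioo (σ - min (δ₀ / 2) r) (σ + min (δ₀ / 2) r) = ∅ := by
    rw [Set.eq_empty_iff_forall_notMem]
    rintro x ⟨hx, hx1, hx2⟩
    have hxr : |x - σ| < r := by
      rw [abs_lt]
      have := min_le_right (δ₀ / 2) r
      constructor <;> linarith
    have hd : dist (x, c', ds) (σ, c₀, cs) < r := by
      rw [Prod.dist_eq, Prod.dist_eq]
      refine max_lt (by rw [Real.dist_eq]; exact hxr) (max_lt (by rw [Real.dist_eq]; exact hc') ?_)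
      exact (dist_pi_lt_iff hr).2 fun j => by rw [Real.dist_eq]; exact hds j
    obtain ⟨g1, g2⟩ := hr' hd
    have hx' : Phi T c₀ cs c' ds x = -v := hx
    rw [phi_eq T c₀ cs i] at hx'
    set h := H T c₀ cs i (x, c', ds)
    set h₀ := H T c₀ cs i (σ, c₀, cs)
    have e1 : -((ds i ^ 2 - cs i ^ 2) ^ 2 / 4) ≤ (ss x - cs i ^ 2) * (ss x - ds i ^ 2) := by
      nlinarith [sq_nonneg (2 * ss x - cs i ^ 2 - ds i ^ 2)]
    have e2 : h * -((ds i ^ 2 - cs i ^ 2) ^ 2 / 4) ≤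
        h * ((ss x - cs i ^ 2) * (ss x - ds i ^ 2)) := mul_le_mul_of_nonneg_left e1 g1.le
    have e3 : h * ((ds i ^ 2 - cs i ^ 2) ^ 2 / 4) ≤ (h₀ + 1) * ((ds i ^ 2 - cs i ^ 2) ^ 2 / 4) :=
      mul_le_mul_of_nonneg_right g2.le (by positivity)
    have e4 : (h₀ + 1) * ((ds i ^ 2 - cs i ^ 2) ^ 2 / 4) =
        (h₀ + 1) / 4 * (ds i ^ 2 - cs i ^ 2) ^ 2 := by ring
    rw [hx'] at e2
    linarith
  rw [hempty, Set.ncard_empty]

end Pool.Agent.NH78.SG
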