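import Pool.Agent.NH78.SG.Stm

set_option autoImplicit false

namespace Pool.Agent.NH78.SG

open Finset

namespace CNT

theorem fmin {α : Type} [DecidableEq α] (Z : Finset α) (P : α → ℝ → Prop)
    (h : ∀ z ∈ Z, ∃ ε : ℝ, 0 < ε ∧ P z ε)
    (mono : ∀ z, ∀ ε ε' : ℝ, P z ε → 0 < ε' → ε' ≤ ε → P z ε') :
    ∃ ε : ℝ, 0 < ε ∧ ∀ z ∈ Z, P z ε := by
  induction Z using Finset.induction_on with
  | empty => exact ⟨1, one_pos, by simp⟩
  | insert a s ha ih =>
    obtain ⟨e1, h1, h2⟩ := ih (fun z hz => h z (Finset.mem_insert_of_mem hz))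
    obtain ⟨e2, h3, h4⟩ := h a (Finset.mem_insert_self _ _)
    refine ⟨min e1 e2, lt_min h1 h3, fun z hz => ?_⟩
    rcases Finset.mem_insert.1 hz with rfl | hz
    · exact mono _ _ _ h4 (lt_min h1 h3) (min_le_right _ _)
    · exact mono _ _ _ (h2 z hz) (lt_min h1 h3) (min_le_left _ _)

theorem PT_zero {T : Finset ℚ} {x : ℝ} (h : PT T x = 0) : ∃ a ∈ T, x = (a : ℝ) := by
  unfold PT at h
  obtain ⟨a, ha, h1⟩ := Finset.prod_eq_zero_iff.1 h
  exact ⟨a, ha, by linarith⟩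

theorem PT_mem {T : Finset ℚ} {a : ℚ} (h : a ∈ T) : PT T (a : ℝ) = 0 :=
  Finset.prod_eq_zero h (by simp)

theorem not_seven (ρ : ℚ) : 3 * (ρ : ℝ) ^ 2 ≠ 7 := by
  intro h
  have h1 : 3 * ρ ^ 2 = 7 := by exact_mod_cast h
  have h2 : IsSquare ((21 : ℕ) : ℚ) := ⟨3 * ρ, by push_cast; linarith⟩
  rw [Rat.isSquare_natCast_iff] at h2
  obtain ⟨r, hr⟩ := h2
  have : r ≤ 4 := by nlinarith
  interval_cases r <;> omega

theorem card_pieces (S : Set ℝ) (hS : S.Finite) (Z : Finset ℝ) (δ : ℝ → ℝ)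
    (hd : ∀ z ∈ Z, ∀ z' ∈ Z, z ≠ z' → δ z + δ z' < |z - z'|) :
    (S ∩ ⋃ z ∈ Z, Set.Ioo (z - δ z) (z + δ z)).ncard =
      ∑ z ∈ Z, (S ∩ Set.Ioo (z - δ z) (z + δ z)).ncard := by
  classical
  induction Z using Finset.induction_on with
  | empty => simp
  | insert a s ha ih =>
    rw [Finset.sum_insert ha, Finset.set_biUnion_insert, Set.inter_union_distrib_left,
      Set.ncard_union_eq ?_ (hS.inter_of_left _) (hS.inter_of_left _),
      ih (fun z hz z' hz' => hd z (Finset.mem_insert_of_mem hz) z' (Finset.mem_insert_of_mem hz'))]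
    rw [Set.disjoint_left]
    rintro x ⟨-, hx⟩ ⟨-, hx'⟩
    simp only [Set.mem_iUnion] at hx'
    obtain ⟨z, hz, hx'⟩ := hx'
    have h1 := hd a (Finset.mem_insert_self _ _) z (Finset.mem_insert_of_mem hz)
      (fun h => ha (h ▸ hz))
    have h2 := hx.1
    have h3 := hx.2
    have h4 := hx'.1
    have h5 := hx'.2
    rcases abs_cases (a - z) with ⟨h6, -⟩ | ⟨h6, -⟩ <;> rw [h6] at h1 <;> linarith

theorem sol_finite {T : Finset ℚ} {c₀ : ℝ} {q : ℕ} {cs : Fin q → ℝ} {c' : ℝ} {ds : Fin q → ℝ}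
    {v : ℝ} (B : ℝ) (h : ∀ x ∈ Sol T c₀ cs c' ds v, x < B) : (Sol T c₀ cs c' ds v).Finite := by
  let s : Polynomial ℝ := (Polynomial.X ^ 3 - 7 * Polynomial.X) ^ 2
  let P : Polynomial ℝ := (∏ a ∈ T, (Polynomial.X - Polynomial.C (a : ℝ))) *
    ((s - Polynomial.C (c₀ ^ 2)) * (s - Polynomial.C (c' ^ 2))) *
    (∏ i, ((s - Polynomial.C (cs i ^ 2)) * (s - Polynomial.C (ds i ^ 2)))) + Polynomial.C v
  have hP : ∀ x, P.eval x = Phi T c₀ cs c' ds x + v := by
    intro x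
    simp [P, s, Phi, PT, ss, Polynomial.eval_prod]
  have hne : P ≠ 0 := by
    intro h0
    have h1 : B ∈ Sol T c₀ cs c' ds v := by
      have := hP B
      rw [h0, Polynomial.eval_zero] at this
      show Phi T c₀ cs c' ds B = -v
      linarith
    exact lt_irrefl _ (h B h1)
  refine (Polynomial.finite_setOfPred_isRoot hne).subset fun x hx => ?_
  show P.eval x = 0
  rw [hP x]
  have : Phi T c₀ cs c' ds x = -v := hx
  linarith

end CNT

open CNT

theorem t_CNT (h1 : S_SIM) (h2 : S_FAR) (h3 : S_LIT) (h4 : S_CEN) : S_CNT := by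
  classical
  intro T q t c₀ B₀ cs Bs τ hc0 hB0 hBT hτ hBτ ht hcs hinj
  have hc0' : (0 : ℝ) < (c₀ : ℝ) := by exact_mod_cast hc0
  let csr : Fin q → ℝ := fun i => (cs i : ℝ)
  let Pr : ℝ := ∏ i, ((c₀ : ℝ) ^ 2 - csr i ^ 2) ^ 2
  have hsq : ∀ a b : ℚ, 0 < a → 0 < b → a ≠ b → (a : ℝ) ^ 2 ≠ (b : ℝ) ^ 2 := by
    intro a b ha hb hab h
    have h' : a ^ 2 = b ^ 2 := by exact_mod_cast h
    exact hab ((sq_eq_sq₀ ha.le hb.le).1 h')
  have hcc : ∀ i, csr i ^ 2 ≠ (c₀ : ℝ) ^ 2 := fun i =>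
    hsq _ _ (hcs i).1 hc0 (hcs i).2.1
  have hPr : 0 < Pr := Finset.prod_pos fun i _ => by
    have : (c₀ : ℝ) ^ 2 - csr i ^ 2 ≠ 0 := sub_ne_zero.2 (hcc i).symm
    positivity
  let w : ℝ := τ * Pr
  have hw : 0 < w := mul_pos hτ hPr
  let TR : Finset ℝ := T.image fun a : ℚ => (a : ℝ)
  let BR : Finset ℝ := B₀.image fun a : ℚ => (a : ℝ)
  let CR : Finset ℝ := Finset.univ.biUnion fun i => (Bs i).image fun a : ℚ => (a : ℝ)
  let Z : Finset ℝ := TR ∪ BR ∪ CR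
  let N : ℝ → ℕ := fun z => if z ∈ TR then 1 else if z ∈ BR ∧ τ < PT T z then 2 else 0
  have hTR : ∀ z, 0 < PT T z → z ∉ TR := by
    intro z hz hzT
    obtain ⟨a, ha, rfl⟩ := Finset.mem_image.1 hzT
    rw [PT_mem ha] at hz
    exact lt_irrefl _ hz
  have hssB : ∀ x : ℝ, ss x = (c₀ : ℝ) ^ 2 ↔ x ∈ BR := by
    intro x
    have e := hB0.eq x
    constructor
    · intro h
      rw [h, sub_self] at e
      obtain ⟨a, ha, rfl⟩ := PT_zero e
      exact Finset.mem_image_of_mem _ ha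
    · intro h
      obtain ⟨a, ha, rfl⟩ := Finset.mem_image.1 h
      rw [PT_mem ha] at e
      linarith
  have hssC : ∀ (i : Fin q) (x : ℝ), ss x = csr i ^ 2 ↔ ∃ a ∈ Bs i, x = (a : ℝ) := by
    intro i x
    have e := (hcs i).2.2.1.eq x
    constructor
    · intro h
      rw [h] at e
      exact PT_zero (by rw [e]; exact sub_self _)
    · rintro ⟨a, ha, rfl⟩
      rw [PT_mem ha] at e
      show ss (a : ℝ) = (cs i : ℝ) ^ 2
      linarith
  have hBRpos : ∀ x ∈ BR, 0 < PT T x := by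
    intro x hx
    obtain ⟨a, ha, rfl⟩ := Finset.mem_image.1 hx
    exact hBT a ha
  -- the least distance
  obtain ⟨δ₀, hδ₀, hdist⟩ := fmin (Z ×ˢ Z) (fun p ε => p.1 ≠ p.2 → 2 * ε ≤ |p.1 - p.2|)
    (fun p _ => by
      by_cases h : p.1 = p.2
      · exact ⟨1, one_pos, fun h' => absurd h h'⟩
      · exact ⟨|p.1 - p.2| / 2, by have := abs_pos.2 (sub_ne_zero.2 h); positivity,
          fun _ => by linarith⟩)
    (fun p ε ε' h _ hle h' => by have := h h'; linarith)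
  let Good : ℝ → ℝ → ℝ → Prop := fun z δ ε => ∀ (c' : ℝ) (ds : Fin q → ℝ) (v : ℝ),
    |c' - c₀| < ε → c' ≠ c₀ → (∀ i, |ds i - csr i| < ε) → |v| < ε → 0 < v →
    |v - w * (c' ^ 2 - (c₀ : ℝ) ^ 2) ^ 2 / 4| < ε * (c' ^ 2 - (c₀ : ℝ) ^ 2) ^ 2 →
    (∀ i, (ds i ^ 2 - csr i ^ 2) ^ 2 < ε * v) →
    (Sol T c₀ csr c' ds v ∩ Set.Ioo (z - δ) (z + δ)).ncard = N z
  have LOC : ∀ z ∈ Z, ∃ δ : ℝ, 0 < δ ∧ δ < δ₀ ∧ ∃ ε : ℝ, 0 < ε ∧ Good z δ ε := by
    intro z hz
    rcases Finset.mem_union.1 hz with hz | hz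
    · rcases Finset.mem_union.1 hz with hz | hz
      · obtain ⟨a, ha, rfl⟩ := Finset.mem_image.1 hz
        have ha0 : ¬ 0 < PT T (a : ℝ) := by rw [PT_mem ha]; exact lt_irrefl _
        obtain ⟨δ, hδ, hδ', ε, hε, H⟩ := h1 T q c₀ csr a ha
          (fun h => ha0 (hBRpos _ ((hssB _).1 h)))
          (fun i h => by
            obtain ⟨b, hb, hab⟩ := (hssC i _).1 h
            have := (hcs i).2.2.2 b hb
            rw [← hab] at this
            exact ha0 this) δ₀ hδ₀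
        refine ⟨δ, hδ, hδ', ε, hε, fun c' ds v e1 _ e2 e3 _ _ _ => ?_⟩
        rw [H c' ds v e1 e2 e3]
        show 1 = N (a : ℝ)
        simp only [N, if_pos hz]
      · have hp := hBRpos z hz
        have hzT := hTR z hp
        obtain ⟨a, ha, haz⟩ := Finset.mem_image.1 hz
        have hne : w ≠ PT T z * Pr := by
          intro h
          have := mul_right_cancel₀ hPr.ne' h
          rw [← haz] at this
          exact hBτ a ha this.symm
        obtain ⟨δ, hδ, hδ', ε, hε, H⟩ := h3 T q c₀ csr z w hc0' ((hssB z).2 hz)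
          (by rw [← haz]; exact not_seven a) hcc hp hw hne δ₀ hδ₀
        refine ⟨δ, hδ, hδ', ε, hε, fun c' ds v e1 e0 e2 e3 _ e4 _ => ?_⟩
        obtain ⟨H1, H2⟩ := H c' ds v e1 e0 e2 e4
        show _ = N z
        rcases lt_or_gt_of_ne hne with hlt | hlt
        · rw [H1 hlt]
          have : τ < PT T z := lt_of_mul_lt_mul_right hlt hPr.le
          simp only [N, if_neg hzT, if_pos (And.intro hz this)]
        · rw [H2 hlt]
          have : ¬ (z ∈ BR ∧ τ < PT T z) := fun h =>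
            absurd (mul_lt_mul_of_pos_right h.2 hPr) (not_lt.2 hlt.le)
          simp only [N, if_neg hzT, if_neg this]
    · obtain ⟨i, -, hi⟩ := Finset.mem_biUnion.1 hz
      obtain ⟨a, ha, haz⟩ := Finset.mem_image.1 hi
      have hss : ss z = csr i ^ 2 := (hssC i z).2 ⟨a, ha, haz.symm⟩
      have hp : 0 < PT T z := by rw [← haz]; exact (hcs i).2.2.2 a ha
      have hzT := hTR z hp
      have hzB : z ∉ BR := fun h => hcc i (by rw [← hss]; exact (hssB z).2 h)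
      obtain ⟨δ, hδ, hδ', ε, K, hε, hK, H⟩ := h4 T q c₀ csr i z hss (hcc i)
        (fun j hj => hsq _ _ (hcs j).1 (hcs i).1 fun h => hj (hinj h)) hp δ₀ hδ₀
      refine ⟨δ, hδ, hδ', min ε (1 / K), lt_min hε (by positivity),
        fun c' ds v e1 _ e2 e3 e5 _ e6 => ?_⟩
      have e7 : K * (ds i ^ 2 - csr i ^ 2) ^ 2 < v := by
        have h7 := e6 i
        have h8 : min ε (1 / K) * v ≤ 1 / K * v := mul_le_mul_of_nonneg_right (min_le_right _ _) e5.le
        have h9 : (ds i ^ 2 - csr i ^ 2) ^ 2 < 1 / K * v := lt_of_lt_of_le h7 h8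
        calc K * (ds i ^ 2 - csr i ^ 2) ^ 2 < K * (1 / K * v) := mul_lt_mul_of_pos_left h9 hK
          _ = v := by field_simp
      rw [H c' ds v (lt_of_lt_of_le e1 (min_le_left _ _))
        (fun j => lt_of_lt_of_le (e2 j) (min_le_left _ _)) e5 e7]
      show 0 = N z
      have : ¬ (z ∈ BR ∧ τ < PT T z) := fun h => hzB h.1
      simp only [N, if_neg hzT, if_neg this]
  choose! δ hδ using LOC
  obtain ⟨ε₀, hε₀, hgood⟩ := fmin Z (fun z ε => Good z (δ z) ε) (fun z hz => (hδ z hz).2.2)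
    (fun z ε ε' h h0 hle c' ds v e1 e0 e2 e3 e5 e4 e6 => h c' ds v (lt_of_lt_of_le e1 hle) e0
      (fun i => lt_of_lt_of_le (e2 i) hle) (lt_of_lt_of_le e3 hle) e5
      (lt_of_lt_of_le e4 (mul_le_mul_of_nonneg_right hle (sq_nonneg _)))
      (fun i => lt_of_lt_of_le (e6 i) (mul_le_mul_of_nonneg_right hle e5.le)))
  obtain ⟨ε₂, hε₂, hfar⟩ := h2 T q c₀ csr Z δ (fun x hx => by
    unfold Phi at hx
    rcases mul_eq_zero.1 hx with hx | hx
    · rcases mul_eq_zero.1 hx with hx | hx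
      · obtain ⟨a, ha, rfl⟩ := PT_zero hx
        exact Finset.mem_union_left _ (Finset.mem_union_left _ (Finset.mem_image_of_mem _ ha))
      · have : ss x - (c₀ : ℝ) ^ 2 = 0 := by rcases mul_eq_zero.1 hx with h | h <;> exact h
        exact Finset.mem_union_left _ (Finset.mem_union_right _ ((hssB x).1 (by linarith)))
    · obtain ⟨i, -, hi⟩ := Finset.prod_eq_zero_iff.1 hx
      have : ss x - csr i ^ 2 = 0 := by rcases mul_eq_zero.1 hi with h | h <;> exact h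
      obtain ⟨a, ha, rfl⟩ := (hssC i x).1 (by linarith)
      exact Finset.mem_union_right _ (Finset.mem_biUnion.2 ⟨i, Finset.mem_univ _,
        Finset.mem_image_of_mem _ ha⟩)) (fun z hz => (hδ z hz).1)
  set ε₁ : ℝ := min ε₀ ε₂ with hε₁d
  have hε₁ : 0 < ε₁ := lt_min hε₀ hε₂
  have hev : ∀ᶠ c' : ℝ in nhds (c₀ : ℝ), (w + 1) * (c' ^ 2 - (c₀ : ℝ) ^ 2) ^ 2 < ε₁ := by
    have hcont : Continuous fun c' : ℝ => (w + 1) * (c' ^ 2 - (c₀ : ℝ) ^ 2) ^ 2 := by fun_prop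
    have h0 : (w + 1) * ((c₀ : ℝ) ^ 2 - (c₀ : ℝ) ^ 2) ^ 2 < ε₁ := by
      rw [sub_self]; simpa using hε₁
    exact hcont.tendsto (c₀ : ℝ) |>.eventually (gt_mem_nhds h0)
  obtain ⟨ε₃, hε₃, hev⟩ := Metric.eventually_nhds_iff.1 hev
  refine ⟨min ε₁ (min ε₃ c₀), lt_min hε₁ (lt_min hε₃ hc0'), fun c' hc' hne => ?_⟩
  have k1 : |c' - c₀| < ε₁ := lt_of_lt_of_le hc' (min_le_left _ _)
  have k2 : |c' - c₀| < ε₃ := lt_of_lt_of_le hc' ((min_le_right _ _).trans (min_le_left _ _))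
  have k3 : |c' - c₀| < c₀ := lt_of_lt_of_le hc' ((min_le_right _ _).trans (min_le_right _ _))
  have k4 : (w + 1) * (c' ^ 2 - (c₀ : ℝ) ^ 2) ^ 2 < ε₁ := hev (by rwa [Real.dist_eq])
  have k5 : 0 < c' := by have := (abs_lt.1 k3).1; linarith
  set s : ℝ := (c' ^ 2 - (c₀ : ℝ) ^ 2) ^ 2 with hs
  have hs0 : 0 < s := by
    have : c' ^ 2 - (c₀ : ℝ) ^ 2 ≠ 0 := by
      intro h
      exact hne ((sq_eq_sq₀ k5.le hc0'.le).1 (by linarith))
    positivity
  set m : ℝ := w * s / 4 with hm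
  have hm0 : 0 < m := by positivity
  set η : ℝ := min (m / 2) (ε₁ * s / 2) with hη
  have hη0 : 0 < η := lt_min (by positivity) (by positivity)
  have hη1 : η ≤ m / 2 := min_le_left _ _
  have hη2 : η ≤ ε₁ * s / 2 := min_le_right _ _
  have hv1 : 0 < m - η := by linarith
  have hev2 : ∀ᶠ ds : Fin q → ℝ in nhds csr, ∀ i, (ds i ^ 2 - csr i ^ 2) ^ 2 < ε₁ * (m - η) := by
    refine Filter.eventually_all.2 fun i => ?_
    have hcont : Continuous fun ds : Fin q → ℝ => (ds i ^ 2 - csr i ^ 2) ^ 2 := by fun_prop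
    have h0 : (csr i ^ 2 - csr i ^ 2) ^ 2 < ε₁ * (m - η) := by
      rw [sub_self]
      have : 0 < ε₁ * (m - η) := mul_pos hε₁ hv1
      simpa using this
    exact hcont.tendsto csr |>.eventually (gt_mem_nhds h0)
  obtain ⟨ε₄, hε₄, hev2⟩ := Metric.eventually_nhds_iff.1 hev2
  refine ⟨min ε₁ ε₄, lt_min hε₁ hε₄, fun ds hds => ⟨m - η, m + η, hv1, by linarith,
    fun v hv hv' => ?_⟩⟩
  have l1 : ∀ i, |ds i - csr i| < ε₁ := fun i => lt_of_lt_of_le (hds i) (min_le_left _ _)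
  have l2 : ∀ i, (ds i ^ 2 - csr i ^ 2) ^ 2 < ε₁ * (m - η) := hev2 (by
    rw [dist_pi_lt_iff hε₄]
    intro i
    rw [Real.dist_eq]
    exact lt_of_lt_of_le (hds i) (min_le_right _ _))
  have l3 : 0 < v := by linarith
  have l4 : |v| < ε₁ := by
    rw [abs_of_pos l3]
    have : m + η ≤ (w + 1) * s := by
      have : m + η ≤ 3 / 2 * m := by linarith
      have h5 : 0 < w * s := mul_pos hw hs0
      rw [hm] at this
      nlinarith
    linarith
  have l5 : |v - m| < ε₁ * s := by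
    rw [abs_lt]
    have : 0 < ε₁ * s := mul_pos hε₁ hs0
    constructor <;> linarith
  have l6 : ∀ i, (ds i ^ 2 - csr i ^ 2) ^ 2 < ε₁ * v := fun i =>
    lt_trans (l2 i) (mul_lt_mul_of_pos_left hv hε₁)
  have hle0 : ε₁ ≤ ε₀ := min_le_left _ _
  have hpiece : ∀ z ∈ Z, (Sol T c₀ csr c' ds v ∩ Set.Ioo (z - δ z) (z + δ z)).ncard = N z :=
    fun z hz => hgood z hz c' ds v (lt_of_lt_of_le k1 hle0) hne
      (fun i => lt_of_lt_of_le (l1 i) hle0) (lt_of_lt_of_le l4 hle0) l3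
      (lt_of_lt_of_le l5 (mul_le_mul_of_nonneg_right hle0 hs0.le))
      (fun i => lt_of_lt_of_le (l6 i) (mul_le_mul_of_nonneg_right hle0 l3.le))
  have hle2 : ε₁ ≤ ε₂ := min_le_right _ _
  have hcov := hfar c' ds v (lt_of_lt_of_le k1 hle2) (fun i => lt_of_lt_of_le (l1 i) hle2)
    (lt_of_lt_of_le l4 hle2)
  have hfin : (Sol T c₀ csr c' ds v).Finite := by
    refine sol_finite (∑ z ∈ Z, (|z| + δ z)) fun x hx => ?_
    obtain ⟨z, hz, hxz⟩ := hcov x hx
    have h5 : |z| + δ z ≤ ∑ z ∈ Z, (|z| + δ z) :=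
      Finset.single_le_sum (f := fun z => |z| + δ z)
        (fun z hz => add_nonneg (abs_nonneg z) (hδ z hz).1.le) hz
    have h6 := (abs_lt.1 hxz).2
    have h7 := le_abs_self z
    linarith
  have hSol : Sol T c₀ csr c' ds v =
      Sol T c₀ csr c' ds v ∩ ⋃ z ∈ Z, Set.Ioo (z - δ z) (z + δ z) := by
    ext x
    refine ⟨fun hx => ⟨hx, ?_⟩, fun hx => hx.1⟩
    obtain ⟨z, hz, hxz⟩ := hcov x hx
    rw [abs_lt] at hxz
    exact Set.mem_biUnion hz ⟨by linarith, by linarith⟩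
  have hcount : (Sol T c₀ csr c' ds v).ncard = ∑ z ∈ Z, N z := by
    rw [hSol, card_pieces _ hfin Z δ (fun z hz z' hz' hne => by
      have h5 := hdist (z, z') (Finset.mem_product.2 ⟨hz, hz'⟩) hne
      have h6 := (hδ z hz).2.1
      have h7 := (hδ z' hz').2.1
      simp only at h5
      linarith)]
    exact Finset.sum_congr rfl hpiece
  have hcastinj : Function.Injective (fun a : ℚ => (a : ℝ)) := Rat.cast_injective
  have hsum : ∑ z ∈ Z, N z = T.card + 2 * (B₀.filter fun ρ : ℚ => τ < PT T ρ).card := by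
    have e1 : ∀ z, N z = (if z ∈ TR then 1 else 0) + 2 * (if z ∈ BR ∧ τ < PT T z then 1 else 0) := by
      intro z
      by_cases hz : z ∈ TR
      · have : ¬ (z ∈ BR ∧ τ < PT T z) := fun h => hTR z (hBRpos z h.1) hz
        simp only [N, if_pos hz, if_neg this]
      · simp only [N, if_neg hz]
        split_ifs <;> rfl
    simp only [e1]
    rw [Finset.sum_add_distrib, ← Finset.mul_sum, ← Finset.card_filter, ← Finset.card_filter]
    have e2 : Z.filter (fun z => z ∈ TR) = TR := by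
      ext z
      simp only [Finset.mem_filter]
      exact ⟨fun h => h.2, fun h => ⟨Finset.mem_union_left _ (Finset.mem_union_left _ h), h⟩⟩
    have e3 : Z.filter (fun z => z ∈ BR ∧ τ < PT T z) =
        (B₀.filter fun ρ : ℚ => τ < PT T ρ).image fun a : ℚ => (a : ℝ) := by
      ext z
      simp only [Finset.mem_filter, Finset.mem_image]
      constructor
      · rintro ⟨-, hz, hz2⟩
        obtain ⟨a, ha, rfl⟩ := Finset.mem_image.1 hz
        exact ⟨a, ⟨ha, hz2⟩, rfl⟩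
      · rintro ⟨a, ⟨ha, hz2⟩, rfl⟩
        have : (a : ℝ) ∈ BR := Finset.mem_image_of_mem _ ha
        exact ⟨Finset.mem_union_left _ (Finset.mem_union_right _ this), this, hz2⟩
    rw [e2, e3, Finset.card_image_of_injective _ hcastinj, Finset.card_image_of_injective _ hcastinj]
  have hsplit : (B₀.filter fun ρ : ℚ => PT T ρ < τ).card +
      (B₀.filter fun ρ : ℚ => τ < PT T ρ).card = 6 := by
    rw [← hB0.card, ← Finset.card_filter_add_card_filter_not (s := B₀) (fun ρ : ℚ => PT T ρ < τ)]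
    congr 2
    refine Finset.filter_congr fun ρ hρ => ?_
    rw [not_lt]
    exact ⟨fun h => h.le, fun h => lt_of_le_of_ne h (hBτ ρ hρ).symm⟩
  have : (Sol T c₀ (fun i => (cs i : ℝ)) c' ds v).ncard = ∑ z ∈ Z, N z := hcount
  rw [this, hsum]
  omega

end Pool.Agent.NH78.SG
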