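import Pool.Agent.NH78.SG.Stm

/-!
# SG-EXT: several disjoint atoms in given intervals
-/

set_option autoImplicit false

namespace Pool.Agent.NH78.SG.P3

open Finset

theorem many (hD : S_DEN) : ∀ (k : ℕ) (F : Finset ℚ) (α β : Fin k → ℝ),
    (∀ i, 0 ≤ α i ∧ α i < β i ∧ β i ≤ 7) → ∃ (c : Fin k → ℚ) (B : Fin k → Finset ℚ),
      (∀ i, α i < c i ∧ (c i : ℝ) < β i ∧ Spl (c i) (B i) ∧ Disjoint F (B i)) ∧
      ∀ i j, i ≠ j → Disjoint (B i) (B j) := by
  intro k
  induction k with
  | zero => exact fun F α β _ => ⟨fun i => i.elim0, fun i => i.elim0, fun i => i.elim0, fun i => i.elim0⟩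
  | succ k ih =>
    intro F α β h
    obtain ⟨c0, B0, h1, h2, h3, h4⟩ := hD F (α 0) (β 0) (h 0).1 (h 0).2.1 (h 0).2.2
    obtain ⟨c, B, h5, h6⟩ := ih (F ∪ B0) (fun i => α i.succ) (fun i => β i.succ) fun i => h i.succ
    refine ⟨Fin.cons c0 c, Fin.cons B0 B, fun i => ?_, fun i j => ?_⟩
    · refine Fin.cases ⟨h1, h2, h3, h4⟩ (fun i => ?_) i
      obtain ⟨g1, g2, g3, g4⟩ := h5 i
      exact ⟨g1, g2, g3, (disjoint_union_left.1 g4).1⟩
    · have key : ∀ l : Fin k, Disjoint B0 (B l) := fun l => (disjoint_union_left.1 (h5 l).2.2.2).2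
      revert j
      refine Fin.cases ?_ (fun i => ?_) i
      · intro j
        refine Fin.cases (fun h => absurd rfl h) (fun l _ => ?_) j
        exact key l
      · intro j
        refine Fin.cases (fun _ => ?_) (fun l hl => ?_) j
        · exact (key i).symm
        · exact h6 i l fun he => hl (by rw [he])

end Pool.Agent.NH78.SG.P3
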