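import Mathlib
set_option autoImplicit false

namespace Pool.Agent.NH78.SG.Cv
open Set

theorem conv {P : Type*} [NormedAddCommGroup P] [NormedSpace ℝ P] (F : ℝ × P → ℝ)
    (hF : ContDiff ℝ 2 F) (ρ : ℝ) (p₀ : P) (h : 0 < deriv (deriv (fun x => F (x, p₀))) ρ) :
    ∃ η : ℝ, 0 < η ∧ ∀ p : P, ‖p - p₀‖ < η →
      StrictConvexOn ℝ (Ioo (ρ - η) (ρ + η)) (fun x => F (x, p)) := by
  set G : ℝ × P → ℝ := fun z => fderiv ℝ F z (1, 0) with hG
  have hG1 : ContDiff ℝ 1 G := (hF.fderiv_right (m := 1) (by norm_num)).clm_apply contDiff_const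
  set H : ℝ × P → ℝ := fun z => fderiv ℝ G z (1, 0) with hH
  have hHc : Continuous H := (hG1.continuous_fderiv (by norm_num)).clm_apply continuous_const
  have d1 : ∀ (p : P) (x : ℝ), HasDerivAt (fun x => F (x, p)) (G (x, p)) x := by
    intro p x
    have h1 : HasFDerivAt F (fderiv ℝ F (x, p)) (x, p) :=
      (hF.differentiable (by norm_num) (x, p)).hasFDerivAt
    have h2 : HasDerivAt (fun x : ℝ => ((x, p) : ℝ × P)) ((1 : ℝ), (0 : P)) x :=
      (hasDerivAt_id x).prodMk (hasDerivAt_const x p)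
    exact h1.comp_hasDerivAt x h2
  have d2 : ∀ (p : P) (x : ℝ), HasDerivAt (fun x => G (x, p)) (H (x, p)) x := by
    intro p x
    have h1 : HasFDerivAt G (fderiv ℝ G (x, p)) (x, p) :=
      (hG1.differentiable (by norm_num) (x, p)).hasFDerivAt
    have h2 : HasDerivAt (fun x : ℝ => ((x, p) : ℝ × P)) ((1 : ℝ), (0 : P)) x :=
      (hasDerivAt_id x).prodMk (hasDerivAt_const x p)
    exact h1.comp_hasDerivAt x h2
  have e1 : ∀ p, deriv (fun x => F (x, p)) = fun x => G (x, p) := fun p =>
    funext fun x => (d1 p x).deriv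
  have e2 : ∀ p, deriv (deriv (fun x => F (x, p))) = fun x => H (x, p) := fun p => by
    rw [e1 p]
    exact funext fun x => (d2 p x).deriv
  rw [e2 p₀] at h
  obtain ⟨η, hη, hball⟩ := Metric.isOpen_iff.1 (isOpen_lt continuous_const hHc) (ρ, p₀) h
  refine ⟨η, hη, fun p hp => ?_⟩
  refine strictConvexOn_of_deriv2_pos (convex_Ioo _ _)
    (fun x _ => (d1 p x).continuousAt.continuousWithinAt) fun x hx => ?_
  rw [interior_Ioo] at hx
  have h3 : (x, p) ∈ Metric.ball (ρ, p₀) η := by
    rw [Metric.mem_ball, Prod.dist_eq, max_lt_iff]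
    refine ⟨?_, ?_⟩
    · show dist x ρ < η
      rw [Real.dist_eq, abs_lt]
      constructor <;> linarith [hx.1, hx.2]
    · show dist p p₀ < η
      rw [dist_eq_norm]
      exact hp
  have h4 := hball h3
  show 0 < deriv^[2] (fun x => F (x, p)) x
  rw [Function.iterate_succ, Function.iterate_one, Function.comp_apply, e2 p]
  exact h4

/-- a strictly convex function takes a value at most twice -/
theorem atmost {f : ℝ → ℝ} {I : Set ℝ} (hf : StrictConvexOn ℝ I f) (v : ℝ) :
    ({x | f x = v} ∩ I).Finite ∧ ({x | f x = v} ∩ I).ncard ≤ 2 := by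
  have key : ∀ x ∈ {x | f x = v} ∩ I, ∀ y ∈ {x | f x = v} ∩ I, ∀ z ∈ {x | f x = v} ∩ I,
      x < y → y < z → False := by
    intro x hx y hy z hz hxy hyz
    have hxz : x < z := hxy.trans hyz
    have h1 : 0 < z - x := by linarith
    have g1 : 0 < (z - y) / (z - x) := div_pos (by linarith) h1
    have g2 : 0 < (y - x) / (z - x) := div_pos (by linarith) h1
    have g3 : (z - y) / (z - x) + (y - x) / (z - x) = 1 := by
      rw [← add_div, div_eq_one_iff_eq h1.ne']
      ring
    have h := hf.2 hx.2 hz.2 hxz.ne g1 g2 g3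
    have e : ((z - y) / (z - x)) • x + ((y - x) / (z - x)) • z = y := by
      rw [smul_eq_mul, smul_eq_mul, div_mul_eq_mul_div, div_mul_eq_mul_div, ← add_div,
        div_eq_iff h1.ne']
      ring
    have hx1 : f x = v := hx.1
    have hy1 : f y = v := hy.1
    have hz1 : f z = v := hz.1
    rw [e, hx1, hy1, hz1, smul_eq_mul, smul_eq_mul, ← add_mul] at h
    rw [g3, one_mul] at h
    exact lt_irrefl _ h
  set S := {x | f x = v} ∩ I with hS
  have hle : S.encard ≤ 2 := by
    by_contra hcon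
    push Not at hcon
    have h3 : 3 ≤ S.encard := by
      have := Order.add_one_le_of_lt hcon
      norm_num at this
      exact this
    obtain ⟨t, htS, ht⟩ := Set.exists_subset_encard_eq h3
    obtain ⟨a, b, c, hab, hac, hbc, rfl⟩ := Set.encard_eq_three.1 ht
    have ha : a ∈ S := htS (by simp)
    have hb : b ∈ S := htS (by simp)
    have hc : c ∈ S := htS (by simp)
    rcases lt_or_gt_of_ne hab with h1 | h1 <;> rcases lt_or_gt_of_ne hac with h2 | h2 <;>
      rcases lt_or_gt_of_ne hbc with h3 | h3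
    · exact key a ha b hb c hc h1 h3
    · exact key a ha c hc b hb h2 h3
    · exact absurd (h1.trans h3) (not_lt.2 h2.le)
    · exact key c hc a ha b hb h2 h1
    · exact key b hb a ha c hc h1 h2
    · exact absurd (h3.trans h1) (not_lt.2 h2.le)
    · exact key b hb c hc a ha h3 h2
    · exact key c hc b hb a ha h3 h1
  have hfin : S.Finite := Set.finite_of_encard_le_coe (k := 2) hle
  refine ⟨hfin, ?_⟩
  rw [← hfin.cast_ncard_eq] at hle
  exact_mod_cast hle

end Pool.Agent.NH78.SG.Cv
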