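import Pool.Agent.NH78.SG.Stm2
import Pool.Agent.TH665.CG6.Base

/-!
# Project SG: the integer data
-/

set_option autoImplicit false

namespace Pool.Agent.NH78.SG

namespace DAT

open Polynomial Pool.Agent.W289.CG Pool.Agent.W460.CG Pool.Agent.TH665.CG6

lemma of_set6' (n : ℕ) (S : Finset ℚ) (v : ℚ) (hcard : S.card = n) (hv : 0 < v) (h3 : Eq6 S v)
    (hd : ∀ j, (derivative (PS S)).eval (x6 j) ≠ 0) (hlt : ∃ s ∈ S, 3 < s) :
    ∃ (D' : Dat n 6) (L : ℕ) (e : Fin n ≃ S), 0 < L ∧ ∀ i, (D'.a i : ℚ) = L * (e i : ℚ) := by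
  classical
  let e : Fin n ≃ S := (S.equivFinOfCardEq hcard).symm
  let D : ℕ := ∏ t ∈ S, t.den
  have hD : 0 < D := Finset.prod_pos fun t _ => t.den_pos
  have hDQ : (0 : ℚ) < D := by exact_mod_cast hD
  have hz : ∀ i : Fin n, ∃ z : ℤ, (z : ℚ) = D * (e i : ℚ) := by
    intro i
    obtain ⟨m, hm⟩ : (e i : ℚ).den ∣ D := Finset.dvd_prod_of_mem _ (e i).2
    refine ⟨m * (e i : ℚ).num, ?_⟩
    rw [hm]
    push_cast
    have h1 := Rat.num_div_den (e i : ℚ)
    have h2 : ((e i : ℚ).den : ℚ) ≠ 0 := by exact_mod_cast (e i : ℚ).den_ne_zero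
    rw [div_eq_iff h2] at h1
    rw [h1]
    ring
  choose a ha using hz
  let b : Fin 6 → ℤ := ![-(3 * D : ℤ), -(2 * D : ℤ), -(D : ℤ), (D : ℤ), (2 * D : ℤ), (3 * D : ℤ)]
  have hb : ∀ j, (b j : ℚ) = D * x6 j := by
    intro j
    fin_cases j <;> simp [b, x6, mul_comm]
  have hprod : ∀ y : ℚ, ∏ i, (y - (e i : ℚ)) = (PS S).eval y := by
    intro y
    unfold PS
    rw [eval_prod, Equiv.prod_comp e (fun s : S => y - (s : ℚ)),
      Finset.prod_coe_sort S (fun s => y - s)]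
    exact Finset.prod_congr rfl fun s _ => by simp
  have hev : ∀ (z : ℤ) (y : ℚ), (z : ℚ) = D * y →
      (((pA a).eval z : ℤ) : ℚ) = (D : ℚ) ^ n * (PS S).eval y := by
    intro z y hzy
    unfold pA
    rw [eval_prod]
    simp only [eval_sub, eval_X, eval_C]
    push_cast
    rw [← hprod y]
    have : ∀ i, (z : ℚ) - (a i : ℚ) = D * (y - (e i : ℚ)) := by
      intro i
      rw [hzy, ha]
      ring
    rw [Finset.prod_congr rfl fun i _ => this i, Finset.prod_mul_distrib, Finset.prod_const,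
      Finset.card_univ, Fintype.card_fin]
  have hx1 : ∀ j, x6 j ≤ 3 := by
    intro j
    fin_cases j <;> simp [x6] <;> norm_num
  have hxinj : Function.Injective x6 := by
    intro i j hij
    fin_cases i <;> fin_cases j <;> simp [x6] at hij ⊢ <;> norm_num at hij
  have hcomp : ((pA a).map (Int.castRingHom ℚ)).comp (C (D : ℚ) * X) =
      C ((D : ℚ) ^ n) * PS S := by
    unfold pA PS
    rw [Polynomial.map_prod, prod_comp]
    have h1 : ∏ s ∈ S, (X - C s : ℚ[X]) = ∏ i, (X - C (e i : ℚ)) := by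
      rw [Equiv.prod_comp e (fun s : S => (X - C (s : ℚ) : ℚ[X])),
        Finset.prod_coe_sort S (fun s => (X - C s : ℚ[X]))]
    rw [h1]
    have h2 : ∀ i, ((X - C (a i)).map (Int.castRingHom ℚ)).comp (C (D : ℚ) * X) =
        C (D : ℚ) * (X - C (e i : ℚ)) := by
      intro i
      rw [Polynomial.map_sub, map_X, map_C, sub_comp, X_comp, C_comp]
      change C (D : ℚ) * X - C ((a i : ℤ) : ℚ) = _
      rw [ha, C_mul]
      ring
    rw [Finset.prod_congr rfl fun i _ => h2 i, Finset.prod_mul_distrib, Finset.prod_const,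
      Finset.card_univ, Fintype.card_fin, C_pow]
  refine ⟨{ a := a, b := b, c := (pA a).eval (b 0), ha := ?_, hb := ?_, hc := ?_, hab := ?_,
            hder := ?_, hlt := ?_ }, D, e, hD, fun i => ha i⟩
  · intro i j hij
    apply e.injective
    apply Subtype.ext
    have h1 := ha i
    rw [hij, ha j] at h1
    exact (mul_left_cancel₀ hDQ.ne' h1).symm
  · intro i j hij
    apply hxinj
    have h1 := hb i
    rw [hij, hb j] at h1
    exact (mul_left_cancel₀ hDQ.ne' h1).symm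
  · have h1 := hev (b 0) (x6 0) (hb 0)
    rw [h3 0] at h1
    have h2 : (0 : ℚ) < (((pA a).eval (b 0) : ℤ) : ℚ) := by
      rw [h1]
      positivity
    exact_mod_cast h2
  · intro j
    have h1 := hev (b j) (x6 j) (hb j)
    have h2 := hev (b 0) (x6 0) (hb 0)
    rw [h3 j] at h1
    rw [h3 0, ← h1] at h2
    exact_mod_cast h2.symm
  · intro j h0
    apply hd j
    have h1 := congrArg derivative hcomp
    rw [derivative_comp, derivative_C_mul, derivative_C_mul, derivative_X, mul_one] at h1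
    have h2 := congrArg (eval (x6 j)) h1
    rw [eval_mul, eval_C, eval_comp, eval_mul, eval_C, eval_X, eval_mul, eval_C] at h2
    have h4 : eval ((D : ℚ) * x6 j) (derivative ((pA a).map (Int.castRingHom ℚ))) = 0 := by
      rw [← hb j, derivative_map]
      have h5 : ((b j : ℤ) : ℚ) = Int.castRingHom ℚ (b j) := rfl
      rw [h5, eval_map, eval₂_hom, h0, map_zero]
    rw [h4, mul_zero] at h2
    have h5 : ((D : ℚ) ^ n) ≠ 0 := by positivity
    exact (mul_eq_zero.1 h2.symm).resolve_left h5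
  · intro j
    obtain ⟨s, hs, hs1⟩ := hlt
    refine ⟨e.symm ⟨s, hs⟩, ?_⟩
    have h1 := ha (e.symm ⟨s, hs⟩)
    rw [Equiv.apply_symm_apply] at h1
    have h2 : ((b j : ℤ) : ℚ) < (a (e.symm ⟨s, hs⟩) : ℤ) := by
      rw [h1, hb j]
      apply mul_lt_mul_of_pos_left _ hDQ
      exact (hx1 j).trans_lt hs1
    exact_mod_cast h2


lemma PS_eval (S : Finset ℚ) (x : ℚ) : (PS S).eval x = PQ S x := by
  unfold PS PQ
  rw [eval_prod]
  exact Finset.prod_congr rfl fun s _ => by simp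

lemma der_ne {S : Finset ℚ} {x v : ℚ} (hv : v ≠ 0) (h : PQ S x = v)
    (hs : ∑ a ∈ S, 1 / (x - a) ≠ 0) : (derivative (PS S)).eval x ≠ 0 := by
  classical
  have hne : ∀ a ∈ S, x - a ≠ 0 := by
    intro a ha h0
    apply hv
    rw [← h]
    exact Finset.prod_eq_zero ha h0
  have h1 : (derivative (PS S)).eval x = v * ∑ a ∈ S, 1 / (x - a) := by
    unfold PS
    rw [derivative_prod_finset, eval_finsetSum, Finset.mul_sum]
    refine Finset.sum_congr rfl fun a ha => ?_
    rw [eval_mul, eval_prod, ← h]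
    unfold PQ
    rw [← Finset.mul_prod_erase S (fun a => x - a) ha]
    have := hne a ha
    simp only [derivative_sub, derivative_X, derivative_C, sub_zero, eval_one, mul_one, eval_sub,
      eval_X, eval_C]
    field_simp
  rw [h1]
  exact mul_ne_zero hv hs

end DAT

open DAT Pool.Agent.TH665.CG6 in
/-- SG-DAT, with the condition on the logarithmic derivative -/
theorem t_DAT' : ∀ (n r : ℕ) (F : Finset ℚ) (v₀ : ℚ), Fin6 n r F v₀ →
    (∀ b : ℚ, (b ^ 2 = 1 ∨ b ^ 2 = 4 ∨ b ^ 2 = 9) → ∑ a ∈ F, 1 / (b - a) ≠ 0) →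
    ∃ (D : Pool.Agent.W289.CG.Dat n 6) (v₁ v₂ : ℝ), 0 < v₁ ∧ v₁ < v₂ ∧
      ∀ v, v₁ < v → v < v₂ → {X : ℝ | ∏ i, (X - (D.a i : ℝ)) = -v}.ncard + 2 * r = n := by
  intro n r F v₀ hF hd
  obtain ⟨hcard, ⟨hv0, hlt, hsix⟩, v₁, v₂, hv1, hv12, hcnt⟩ := hF
  have hx : ∀ j, x6 j ^ 2 = 1 ∨ x6 j ^ 2 = 4 ∨ x6 j ^ 2 = 9 := by
    intro j
    fin_cases j <;> simp [x6] <;> norm_num
  obtain ⟨D, L, e, hL, ha⟩ := of_set6' n F v₀ hcard hv0
    (fun j => by rw [PS_eval]; exact hsix _ (hx j))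
    (fun j => der_ne hv0.ne' (hsix _ (hx j)) (hd _ (hx j))) hlt
  have hL' : (0 : ℝ) < L := by exact_mod_cast hL
  have hLn : (0 : ℝ) < (L : ℝ) ^ n := by positivity
  refine ⟨D, L ^ n * v₁, L ^ n * v₂, by positivity, by gcongr, fun v h1 h2 => ?_⟩
  have h3 := hcnt (v / L ^ n) (by rw [lt_div_iff₀ hLn]; linarith) (by
    rw [div_lt_iff₀ hLn]; linarith)
  suffices hsuf : {X : ℝ | ∏ i, (X - (D.a i : ℝ)) = -v}.ncard =
      {x : ℝ | PT F x = -(v / (L : ℝ) ^ n)}.ncard by rw [hsuf]; exact h3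
  have haR : ∀ i, (D.a i : ℝ) = L * ((e i : ℚ) : ℝ) := by
    intro i
    have := congrArg (fun q : ℚ => (q : ℝ)) (ha i)
    push_cast at this
    exact_mod_cast this
  have hprod : ∀ x : ℝ, ∏ i, (L * x - (D.a i : ℝ)) = L ^ n * PT F x := by
    intro x
    have h4 : ∀ i, L * x - (D.a i : ℝ) = L * (x - ((e i : ℚ) : ℝ)) := by
      intro i
      rw [haR]
      ring
    rw [Finset.prod_congr rfl fun i _ => h4 i, Finset.prod_mul_distrib, Finset.prod_const,
      Finset.card_univ, Fintype.card_fin]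
    congr 1
    unfold PT
    rw [Equiv.prod_comp e (fun s : F => x - (((s : ℚ)) : ℝ)),
      Finset.prod_coe_sort F (fun s => x - (s : ℝ))]
  have himg : {X : ℝ | ∏ i, (X - (D.a i : ℝ)) = -v} =
      (fun x : ℝ => L * x) '' {x : ℝ | PT F x = -(v / L ^ n)} := by
    ext X
    constructor
    · intro hX
      refine ⟨X / L, ?_, by field_simp⟩
      have h5 : (L : ℝ) * (X / L) = X := by field_simp
      have h6 := hprod (X / L)
      rw [h5] at h6
      have h7 : ∏ i, (X - (D.a i : ℝ)) = -v := hX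
      rw [h7] at h6
      change PT F (X / L) = -(v / L ^ n)
      field_simp
      linarith
    · rintro ⟨x, hx', rfl⟩
      change ∏ i, (L * x - (D.a i : ℝ)) = -v
      rw [hprod, show PT F x = -(v / L ^ n) from hx']
      field_simp
  rw [himg]
  exact Set.ncard_image_of_injective _ (fun x y hxy => mul_left_cancel₀ hL'.ne' hxy)

/-- SG-DAT2 -/
theorem t_DAT2 : S_DAT2 := fun n r F v₀ h hs => t_DAT' n r F v₀ h hs

end Pool.Agent.NH78.SG
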