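import Pool.Agent.NH78.SG.Stm

/-!
# SG-DEN: atoms are dense
-/

set_option autoImplicit false

namespace Pool.Agent.NH78.SG

open Finset

namespace DEN

noncomputable def cc (t : ℝ) : ℝ :=
  (t ^ 2 - 4 * t - 3) * (2 - 2 * t - 3 * t ^ 2) * (-2 * t ^ 2 - 6 * t - 1) / (t ^ 2 + t + 1) ^ 3

theorem D_pos (t : ℝ) : 0 < t ^ 2 + t + 1 := by nlinarith [sq_nonneg (t + 1 / 2)]

theorem cc_cont : Continuous cc := by
  unfold cc
  refine Continuous.div (by fun_prop) (by fun_prop) fun t => ?_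
  exact pow_ne_zero _ (D_pos t).ne'

theorem ns : ¬ IsSquare (21 : ℚ) := by
  rw [Rat.isSquare_iff]
  rintro ⟨⟨a, ha⟩, -⟩
  have h1 : (21 : ℤ) = a * a := by simpa using ha
  have h2 : a.natAbs * a.natAbs = 21 := by
    have := congrArg Int.natAbs h1
    rw [Int.natAbs_mul] at this
    simpa using this.symm
  have h3 : a.natAbs < 5 := by
    by_contra h
    push Not at h
    have := Nat.mul_le_mul h h
    omega
  interval_cases a.natAbs <;> omega

theorem no37 (x : ℚ) : 3 * x ^ 2 ≠ 7 := fun h => ns ⟨3 * x, by linear_combination (-3) * h⟩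

theorem spl {x y : ℚ} (h : x ^ 2 + x * y + y ^ 2 = 7) (hc : x * y * (x + y) ≠ 0) :
    Spl (x * y * (x + y)) ({x, y, x + y, -x, -y, -(x + y)} : Finset ℚ) := by
  have hx : x ≠ 0 := fun h0 => hc (by rw [h0]; ring)
  have hy : y ≠ 0 := fun h0 => hc (by rw [h0]; ring)
  have hz : x + y ≠ 0 := fun h0 => hc (by rw [h0]; ring)
  have n1 : x ≠ y := by
    rintro rfl
    exact no37 x (by linear_combination h)
  have n2 : x ≠ x + y := fun h0 => hy (by linear_combination -h0)
  have n3 : x ≠ -x := fun h0 => hx (by linear_combination h0 / 2)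
  have n4 : x ≠ -y := fun h0 => hz (by linear_combination h0)
  have n5 : x ≠ -(x + y) := by
    intro h0
    have e : y = -2 * x := by linear_combination h0
    rw [e] at h
    exact no37 x (by linear_combination h)
  have n6 : y ≠ x + y := fun h0 => hx (by linear_combination -h0)
  have n7 : y ≠ -x := fun h0 => hz (by linear_combination h0)
  have n8 : y ≠ -y := fun h0 => hy (by linear_combination h0 / 2)
  have n9 : y ≠ -(x + y) := by
    intro h0
    have e : x = -2 * y := by linear_combination h0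
    rw [e] at h
    exact no37 y (by linear_combination h)
  have n10 : x + y ≠ -x := by
    intro h0
    have e : y = -2 * x := by linear_combination h0
    rw [e] at h
    exact no37 x (by linear_combination h)
  have n11 : x + y ≠ -y := by
    intro h0
    have e : x = -2 * y := by linear_combination h0
    rw [e] at h
    exact no37 y (by linear_combination h)
  have n12 : x + y ≠ -(x + y) := fun h0 => hz (by linear_combination h0 / 2)
  have n13 : -x ≠ -y := fun h0 => n1 (by linear_combination -h0)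
  have n14 : -x ≠ -(x + y) := fun h0 => hy (by linear_combination h0)
  have n15 : -y ≠ -(x + y) := fun h0 => hx (by linear_combination h0)
  have m5 : -y ∉ ({-(x + y)} : Finset ℚ) := by rw [mem_singleton]; exact n15
  have m4 : -x ∉ ({-y, -(x + y)} : Finset ℚ) := by
    rw [mem_insert, mem_singleton]; rintro (h0 | h0); exacts [n13 h0, n14 h0]
  have m3 : x + y ∉ ({-x, -y, -(x + y)} : Finset ℚ) := by
    rw [mem_insert, mem_insert, mem_singleton]
    rintro (h0 | h0 | h0); exacts [n10 h0, n11 h0, n12 h0]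
  have m2 : y ∉ ({x + y, -x, -y, -(x + y)} : Finset ℚ) := by
    rw [mem_insert, mem_insert, mem_insert, mem_singleton]
    rintro (h0 | h0 | h0 | h0); exacts [n6 h0, n7 h0, n8 h0, n9 h0]
  have m1 : x ∉ ({y, x + y, -x, -y, -(x + y)} : Finset ℚ) := by
    rw [mem_insert, mem_insert, mem_insert, mem_insert, mem_singleton]
    rintro (h0 | h0 | h0 | h0 | h0); exacts [n1 h0, n2 h0, n3 h0, n4 h0, n5 h0]
  refine ⟨?_, fun X => ?_⟩
  · rw [card_insert_of_notMem m1, card_insert_of_notMem m2, card_insert_of_notMem m3,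
      card_insert_of_notMem m4, card_insert_of_notMem m5, card_singleton]
  · unfold PT ss
    rw [prod_insert m1, prod_insert m2, prod_insert m3, prod_insert m4, prod_insert m5,
      prod_singleton]
    have hR : (x : ℝ) ^ 2 + x * y + y ^ 2 = 7 := by exact_mod_cast h
    push_cast
    linear_combination (-X ^ 4 * 2 + X ^ 2 * ((x : ℝ) ^ 2 + x * y + y ^ 2 + 7)) * hR

end DEN

open DEN in
theorem t_DEN : S_DEN := by
  classical
  intro F α β hα hαβ hβ
  -- a value avoiding the bad numbers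
  set Bad : Finset ℝ := F.image fun f : ℚ => |(f : ℝ) ^ 3 - 7 * f| with hBad
  obtain ⟨v, hv⟩ : ((Set.Ioo α β) \ (Bad : Set ℝ)).Nonempty :=
    ((Set.Ioo_infinite hαβ).sdiff Bad.finite_toSet).nonempty
  obtain ⟨⟨hv1, hv2⟩, hv3⟩ := hv
  obtain ⟨t, -, ht⟩ : ∃ t ∈ Set.Icc (-9 / 10 : ℝ) (-6 / 10), cc t = v := by
    have h1 : cc (-6 / 10) ≤ v := by
      refine le_trans ?_ (hα.trans hv1.le)
      unfold cc
      norm_num
    have h2 : v ≤ cc (-9 / 10) := by
      refine le_trans (hv2.le.trans hβ) ?_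
      unfold cc
      norm_num
    exact intermediate_value_Icc' (by norm_num) cc_cont.continuousOn ⟨h1, h2⟩
  have hopen : IsOpen (cc ⁻¹' (Set.Ioo α β \ (Bad : Set ℝ))) :=
    (isOpen_Ioo.sdiff Bad.finite_toSet.isClosed).preimage cc_cont
  obtain ⟨r, hr⟩ := Rat.denseRange_cast.exists_mem_open hopen ⟨t, by
    rw [Set.mem_preimage, ht]; exact ⟨⟨hv1, hv2⟩, hv3⟩⟩
  obtain ⟨⟨hr1, hr2⟩, hr3⟩ := hr
  have hD : r ^ 2 + r + 1 ≠ 0 := by
    have h1 := D_pos (r : ℝ)
    have h2 : (0 : ℚ) < r ^ 2 + r + 1 := by exact_mod_cast h1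
    exact h2.ne'
  obtain ⟨x, hx⟩ : ∃ x : ℚ, x = (r ^ 2 - 4 * r - 3) / (r ^ 2 + r + 1) := ⟨_, rfl⟩
  obtain ⟨y, hy⟩ : ∃ y : ℚ, y = (2 - 2 * r - 3 * r ^ 2) / (r ^ 2 + r + 1) := ⟨_, rfl⟩
  have hxy : x ^ 2 + x * y + y ^ 2 = 7 := by
    have hx' : x * (r ^ 2 + r + 1) = r ^ 2 - 4 * r - 3 := by rw [hx]; exact div_mul_cancel₀ _ hD
    have hy' : y * (r ^ 2 + r + 1) = 2 - 2 * r - 3 * r ^ 2 := by rw [hy]; exact div_mul_cancel₀ _ hD
    refine mul_right_cancel₀ (pow_ne_zero 2 hD) ?_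
    calc (x ^ 2 + x * y + y ^ 2) * (r ^ 2 + r + 1) ^ 2 = (x * (r ^ 2 + r + 1)) ^ 2 +
          (x * (r ^ 2 + r + 1)) * (y * (r ^ 2 + r + 1)) + (y * (r ^ 2 + r + 1)) ^ 2 := by ring
      _ = 7 * (r ^ 2 + r + 1) ^ 2 := by rw [hx', hy']; ring
  have hc : ((x * y * (x + y) : ℚ) : ℝ) = cc r := by
    have h1 : x * y * (x + y) = (r ^ 2 - 4 * r - 3) * (2 - 2 * r - 3 * r ^ 2) *
        (-2 * r ^ 2 - 6 * r - 1) / (r ^ 2 + r + 1) ^ 3 := by
      have hz : x + y = (-2 * r ^ 2 - 6 * r - 1) / (r ^ 2 + r + 1) := by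
        rw [hx, hy, ← add_div]
        congr 1
        ring
      rw [hz, hx, hy, div_mul_div_comm, div_mul_div_comm]
      congr 1
      ring
    rw [h1]
    unfold cc
    push_cast
    rfl
  have hpos : (0 : ℝ) < ((x * y * (x + y) : ℚ) : ℝ) := by
    rw [hc]
    exact lt_of_le_of_lt hα hr1
  have hne : x * y * (x + y) ≠ 0 := by
    intro h0
    rw [h0] at hpos
    simp at hpos
  have hS := spl hxy hne
  refine ⟨x * y * (x + y), _, by rw [hc]; exact hr1, by rw [hc]; exact hr2, hS, ?_⟩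
  rw [Finset.disjoint_left]
  intro f hf hfB
  have h1 : PT ({x, y, x + y, -x, -y, -(x + y)} : Finset ℚ) (f : ℝ) = 0 := by
    unfold PT
    exact Finset.prod_eq_zero hfB (sub_self _)
  rw [hS.eq] at h1
  apply hr3
  rw [Finset.mem_coe, hBad, Finset.mem_image]
  refine ⟨f, hf, ?_⟩
  rw [← hc]
  have h2 : ((f : ℝ) ^ 3 - 7 * f) ^ 2 = ((x * y * (x + y) : ℚ) : ℝ) ^ 2 := by
    unfold ss at h1
    linarith
  rw [← abs_of_pos hpos]
  exact (sq_eq_sq_iff_abs_eq_abs _ _).1 h2

end Pool.Agent.NH78.SG
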