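import Pool.Agent.NH78.SG.Stm2

/-!
# SG-DEN2: atoms are dense, with the condition on the derivative
-/

set_option autoImplicit false

namespace Pool.Agent.NH78.SG

open Finset

namespace DEN2

theorem key (c : ℚ) (B : Finset ℚ) (hB : Spl c B) (b : ℚ) (hb : ss b = 36)
    (hc : (c : ℝ) ^ 2 ≠ 36) :
    (∑ a ∈ B, 1 / ((b : ℝ) - a)) * (36 - (c : ℝ) ^ 2) =
      2 * ((b : ℝ) ^ 3 - 7 * b) * (3 * (b : ℝ) ^ 2 - 7) := by
  classical
  have h0 : PT B b = 36 - (c : ℝ) ^ 2 := by rw [hB.eq, hb]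
  have hne : ∀ a ∈ B, (b : ℝ) - a ≠ 0 := by
    have h1 : PT B b ≠ 0 := by
      rw [h0]
      exact sub_ne_zero.2 (Ne.symm hc)
    unfold PT at h1
    exact fun a ha => Finset.prod_ne_zero_iff.1 h1 a ha
  have h1 : HasDerivAt (fun x : ℝ => ∏ a ∈ B, (x - (a : ℝ)))
      (∑ a ∈ B, (∏ j ∈ B.erase a, ((b : ℝ) - (j : ℝ))) • (1 : ℝ)) b :=
    HasDerivAt.fun_finsetProd (fun a _ => (hasDerivAt_id (b : ℝ)).sub_const (a : ℝ))
  have h2 : HasDerivAt (fun x : ℝ => ss x - (c : ℝ) ^ 2)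
      (2 * ((b : ℝ) ^ 3 - 7 * b) * (3 * (b : ℝ) ^ 2 - 7)) b := by
    unfold ss
    have h3 : HasDerivAt (fun x : ℝ => x ^ 3 - 7 * x) (3 * (b : ℝ) ^ 2 - 7) b := by
      have h5 := (hasDerivAt_pow 3 (b : ℝ)).fun_sub ((hasDerivAt_id' (b : ℝ)).const_mul 7)
      exact h5.congr_deriv (by norm_num)
    have h4 := (h3.fun_pow 2).sub_const ((c : ℝ) ^ 2)
    exact h4.congr_deriv (by norm_num)
  have h3 : (fun x : ℝ => ∏ a ∈ B, (x - (a : ℝ))) = fun x : ℝ => ss x - (c : ℝ) ^ 2 := by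
    funext x
    exact hB.eq x
  rw [h3] at h1
  have h4 := h1.unique h2
  rw [← h4, ← h0, Finset.sum_mul]
  refine Finset.sum_congr rfl fun a ha => ?_
  unfold PT
  rw [← Finset.mul_prod_erase B (fun j : ℚ => (b : ℝ) - (j : ℝ)) ha, smul_eq_mul, mul_one,
    ← mul_assoc, one_div, inv_mul_cancel₀ (hne a ha), one_mul]

end DEN2

open DEN2 in
theorem t_DEN2 (h : S_DEN) : S_DEN2 := by
  intro F α β hα hαβ hβ
  classical
  obtain ⟨K, hK⟩ : ∃ K : ℚ → ℝ, ∀ b, K b = 2 * ((b : ℝ) ^ 3 - 7 * b) * (3 * (b : ℝ) ^ 2 - 7) :=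
    ⟨fun b => 2 * ((b : ℝ) ^ 3 - 7 * b) * (3 * (b : ℝ) ^ 2 - 7), fun _ => rfl⟩
  obtain ⟨σ, hσ⟩ : ∃ σ : ℚ → ℝ, ∀ b, σ b = ∑ a ∈ F, 1 / ((b : ℝ) - a) :=
    ⟨fun b => ∑ a ∈ F, 1 / ((b : ℝ) - a), fun _ => rfl⟩
  obtain ⟨Bad, hBad⟩ : ∃ Bad : Finset ℝ, Bad = insert 6
      (({1, 2, 3, -1, -2, -3} : Finset ℚ).image fun b => Real.sqrt (36 + K b / σ b)) := ⟨_, rfl⟩
  obtain ⟨x₀, hx₀, hxB⟩ := (Set.Ioo_infinite hαβ).exists_notMem_finset Bad
  have hopen : IsOpen (Set.Ioo α β ∩ ((Bad : Set ℝ))ᶜ) :=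
    isOpen_Ioo.inter (Bad.finite_toSet.isClosed.isOpen_compl)
  obtain ⟨ε, hε, hball⟩ := Metric.isOpen_iff.1 hopen x₀ ⟨hx₀, by simpa using hxB⟩
  have hsub : ∀ y : ℝ, |y - x₀| < ε → (α < y ∧ y < β) ∧ y ∉ Bad := by
    intro y hy
    have h1 := hball (show y ∈ Metric.ball x₀ ε by rw [Metric.mem_ball, Real.dist_eq]; exact hy)
    exact ⟨⟨h1.1.1, h1.1.2⟩, by simpa using h1.2⟩
  have h1 := (hsub (x₀ - ε / 2) (by
    rw [sub_sub_cancel_left, abs_neg, abs_of_pos (by linarith)]; linarith)).1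
  have h2 := (hsub (x₀ + ε / 2) (by
    rw [add_sub_cancel_left, abs_of_pos (by linarith)]; linarith)).1
  obtain ⟨c, B, hc1, hc2, hB, hdis⟩ := h F (x₀ - ε / 2) (x₀ + ε / 2) (by linarith) (by linarith)
    (by linarith)
  have hc3 := hsub c (by rw [abs_lt]; constructor <;> linarith)
  refine ⟨c, B, hc3.1.1, hc3.1.2, hB, hdis, ?_⟩
  intro b hb hsum
  have hcpos : (0 : ℝ) < c := by linarith
  have hc6 : (c : ℝ) ^ 2 ≠ 36 := by
    intro h6
    apply hc3.2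
    rw [hBad]
    have : (c : ℝ) = 6 := by nlinarith
    rw [this]
    exact Finset.mem_insert_self _ _
  have hb1 : b = 1 ∨ b = -1 ∨ b = 2 ∨ b = -2 ∨ b = 3 ∨ b = -3 := by
    rcases hb with h | h | h
    · have h5 : (b - 1) * (b + 1) = 0 := by linarith
      rcases mul_eq_zero.1 h5 with h6 | h6
      · exact Or.inl (by linarith)
      · exact Or.inr (Or.inl (by linarith))
    · have h5 : (b - 2) * (b + 2) = 0 := by linarith
      rcases mul_eq_zero.1 h5 with h6 | h6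
      · exact Or.inr (Or.inr (Or.inl (by linarith)))
      · exact Or.inr (Or.inr (Or.inr (Or.inl (by linarith))))
    · have h5 : (b - 3) * (b + 3) = 0 := by linarith
      rcases mul_eq_zero.1 h5 with h6 | h6
      · exact Or.inr (Or.inr (Or.inr (Or.inr (Or.inl (by linarith)))))
      · exact Or.inr (Or.inr (Or.inr (Or.inr (Or.inr (by linarith)))))
  have hmem : b ∈ ({1, 2, 3, -1, -2, -3} : Finset ℚ) := by
    rcases hb1 with rfl | rfl | rfl | rfl | rfl | rfl <;> simp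
  have hss : ss b = 36 := by
    unfold ss
    rcases hb1 with rfl | rfl | rfl | rfl | rfl | rfl <;> norm_num
  have hKne : K b ≠ 0 := by
    rw [hK]
    rcases hb1 with rfl | rfl | rfl | rfl | rfl | rfl <;> norm_num
  have hk := key c B hB b hss hc6
  rw [Finset.sum_union hdis] at hsum
  have hsumR : σ b + ∑ a ∈ B, 1 / ((b : ℝ) - a) = 0 := by
    rw [hσ]
    have := congrArg (fun z : ℚ => (z : ℝ)) hsum
    push_cast at this
    exact this
  have hk2 : (- σ b) * (36 - (c : ℝ) ^ 2) = K b := by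
    rw [hK]
    rw [← hk]
    congr 1
    linarith
  have hσne : σ b ≠ 0 := by
    intro h0
    rw [h0] at hk2
    apply hKne
    rw [← hk2]
    ring
  have hc4 : (c : ℝ) ^ 2 = 36 + K b / σ b := by
    rw [← hk2]
    field_simp
    ring
  apply hc3.2
  rw [hBad]
  refine Finset.mem_insert_of_mem (Finset.mem_image.2 ⟨b, hmem, ?_⟩)
  rw [← hc4]
  exact Real.sqrt_sq hcpos.le

end Pool.Agent.NH78.SG
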