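import Pool.Agent.NH78.SG.Stm

set_option autoImplicit false

namespace Pool.Agent.NH78.SG

open Finset

namespace DENb

noncomputable def D (t : ℝ) : ℝ := 1 + t + t ^ 2
noncomputable def X (t : ℝ) : ℝ := -1 + (4 + 5 * t) / D t
noncomputable def Y (t : ℝ) : ℝ := -2 + t * (4 + 5 * t) / D t
noncomputable def CC (t : ℝ) : ℝ := X t * Y t * (X t + Y t)

theorem D_pos (t : ℝ) : 0 < D t := by unfold D; nlinarith [sq_nonneg (t + 1 / 2)]

theorem cX : Continuous X := by
  unfold X
  refine continuous_const.add (Continuous.div (by fun_prop) (by unfold D; fun_prop) fun t => (D_pos t).ne')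
theorem cY : Continuous Y := by
  unfold Y
  refine continuous_const.add (Continuous.div (by fun_prop) (by unfold D; fun_prop) fun t => (D_pos t).ne')
theorem cC : Continuous CC := (cX.mul cY).mul (cX.add cY)

theorem X_eq (t : ℝ) : X t = (3 + 4 * t - t ^ 2) / D t := by
  unfold X
  rw [eq_div_iff (D_pos t).ne', add_mul, div_mul_cancel₀ _ (D_pos t).ne']
  unfold D; ring
theorem Y_eq (t : ℝ) : Y t = (3 * t ^ 2 + 2 * t - 2) / D t := by
  unfold Y
  rw [eq_div_iff (D_pos t).ne', add_mul, div_mul_cancel₀ _ (D_pos t).ne']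
  unfold D; ring

theorem main (E : Set ℝ) (hE : E.Finite) (α β : ℝ) (hα : 0 ≤ α) (hαβ : α < β) (hβ : β ≤ 7) :
    ∃ t : ℚ, 0 < X t ∧ 0 < Y t ∧ α < CC t ∧ CC t < β ∧ CC t ∉ E := by
  obtain ⟨c, ⟨hc1, hc2⟩, hcE⟩ := ((Set.Ioo_infinite hαβ).diff hE).nonempty
  have h7 : (0 : ℝ) ≤ 7 := by norm_num
  have hs : √(7 : ℝ) ^ 2 = 7 := Real.sq_sqrt h7
  have hs0 : 0 ≤ √(7 : ℝ) := Real.sqrt_nonneg 7
  have hend : X (2 + √7) = 0 := by
    rw [X_eq, div_eq_zero_iff]; left; nlinarith
  have hend2 : CC (2 + √7) = 0 := by unfold CC; rw [hend]; ring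
  have hst : 7 ≤ CC (7 / 5) := by
    unfold CC; rw [X_eq, Y_eq]; unfold D; norm_num
  obtain ⟨t, ⟨ht1, ht2⟩, ht⟩ := intermediate_value_Icc' (show (7 / 5 : ℝ) ≤ 2 + √7 by linarith)
    cC.continuousOn (show c ∈ Set.Icc (CC (2 + √7)) (CC (7 / 5)) from
      ⟨by rw [hend2]; linarith, by linarith⟩)
  have ht3 : t < 2 + √7 := lt_of_le_of_ne ht2 fun h => by
    rw [h, hend2] at ht; linarith
  have hX : 0 < X t := by
    rw [X_eq]
    refine div_pos ?_ (D_pos t)
    have : (t - 2) ^ 2 < 7 := by
      rcases le_or_gt 2 t with h | h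
      · nlinarith
      · nlinarith
    nlinarith
  have hY : 0 < Y t := by
    rw [Y_eq]
    exact div_pos (by nlinarith) (D_pos t)
  have hopen : IsOpen {t : ℝ | 0 < X t ∧ 0 < Y t ∧ α < CC t ∧ CC t < β ∧ CC t ∈ Eᶜ} := by
    refine (isOpen_lt continuous_const cX).inter ((isOpen_lt continuous_const cY).inter
      ((isOpen_lt continuous_const cC).inter ((isOpen_lt cC continuous_const).inter
        (hE.isClosed.isOpen_compl.preimage cC))))
  obtain ⟨q, hq⟩ := Rat.denseRange_cast.exists_mem_open hopen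
    ⟨t, hX, hY, by rw [ht]; exact hc1, by rw [ht]; exact hc2, by rw [ht]; exact hcE⟩
  exact ⟨q, hq⟩

theorem not_seven (ρ : ℚ) : 3 * ρ ^ 2 ≠ 7 := by
  intro h1
  have h2 : IsSquare ((21 : ℕ) : ℚ) := ⟨3 * ρ, by push_cast; linarith⟩
  rw [Rat.isSquare_natCast_iff] at h2
  obtain ⟨r, hr⟩ := h2
  have : r ≤ 4 := by nlinarith
  interval_cases r <;> omega

end DENb

open DENb in
theorem t_DENb : S_DEN := by
  intro F α β hα hαβ hβ
  let E : Set ℝ := (fun f : ℚ => |((f : ℝ) ^ 3 - 7 * f)|) '' (F : Set ℚ)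
  obtain ⟨t, hX, hY, h1, h2, h3⟩ := main E (F.finite_toSet.image _) α β hα hαβ hβ
  set d : ℚ := 1 + t + t ^ 2 with hd
  have hd0 : 0 < d := by rw [hd]; nlinarith [sq_nonneg (t + 1 / 2)]
  set x : ℚ := (3 + 4 * t - t ^ 2) / d with hx
  set y : ℚ := (3 * t ^ 2 + 2 * t - 2) / d with hy
  have ex : X t = (x : ℝ) := by rw [X_eq, hx, hd]; unfold D; push_cast; rfl
  have ey : Y t = (y : ℝ) := by rw [Y_eq, hy, hd]; unfold D; push_cast; rfl
  have x0 : 0 < x := by rw [ex] at hX; exact_mod_cast hX
  have y0 : 0 < y := by rw [ey] at hY; exact_mod_cast hY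
  have hcon : x ^ 2 + x * y + y ^ 2 = 7 := by
    rw [hx, hy]
    field_simp
    rw [hd]; ring
  have hxy : x ≠ y := fun h => not_seven y (by rw [h] at hcon; linarith)
  have hconR : (x : ℝ) ^ 2 + x * y + (y : ℝ) ^ 2 = 7 := by exact_mod_cast hcon
  have ec : CC t = ((x * y * (x + y) : ℚ) : ℝ) := by
    unfold CC; rw [ex, ey]; push_cast; ring
  have x0R : (0 : ℝ) < x := by exact_mod_cast x0
  have y0R : (0 : ℝ) < y := by exact_mod_cast y0
  have hprod : ∀ (A : Type) [CommRing A] (f : ℚ → A),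
      ∏ a ∈ ({x, y, x + y, -x, -y, -(x + y)} : Finset ℚ), f a =
        f x * (f y * (f (x + y) * (f (-x) * (f (-y) * f (-(x + y)))))) := by
    intro A _ f
    rw [Finset.prod_insert, Finset.prod_insert, Finset.prod_insert, Finset.prod_insert,
      Finset.prod_insert, Finset.prod_singleton]
    · simp only [Finset.mem_singleton]; intro h; linarith
    · simp only [Finset.mem_insert, Finset.mem_singleton, not_or]
      exact ⟨fun h => hxy (by linarith), fun h => by linarith⟩
    · simp only [Finset.mem_insert, Finset.mem_singleton, not_or]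
      exact ⟨fun h => by linarith, fun h => by linarith, fun h => by linarith⟩
    · simp only [Finset.mem_insert, Finset.mem_singleton, not_or]
      exact ⟨fun h => by linarith, fun h => by linarith, fun h => by linarith, fun h => by linarith⟩
    · simp only [Finset.mem_insert, Finset.mem_singleton, not_or]
      exact ⟨hxy, fun h => by linarith, fun h => by linarith, fun h => by linarith,
        fun h => by linarith⟩
  have hPT : ∀ u : ℝ, PT {x, y, x + y, -x, -y, -(x + y)} u =
      ss u - ((x * y * (x + y) : ℚ) : ℝ) ^ 2 := by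
    intro u
    unfold PT ss
    rw [hprod]
    push_cast
    have e7 : (7 : ℝ) = (x : ℝ) ^ 2 + x * y + (y : ℝ) ^ 2 := hconR.symm
    rw [e7]
    ring
  have hcard : ({x, y, x + y, -x, -y, -(x + y)} : Finset ℚ).card = 6 := by
    rw [Finset.card_insert_of_notMem, Finset.card_insert_of_notMem, Finset.card_insert_of_notMem,
      Finset.card_insert_of_notMem, Finset.card_insert_of_notMem, Finset.card_singleton]
    · simp only [Finset.mem_singleton]; intro h; linarith
    · simp only [Finset.mem_insert, Finset.mem_singleton, not_or]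
      exact ⟨fun h => hxy (by linarith), fun h => by linarith⟩
    · simp only [Finset.mem_insert, Finset.mem_singleton, not_or]
      exact ⟨fun h => by linarith, fun h => by linarith, fun h => by linarith⟩
    · simp only [Finset.mem_insert, Finset.mem_singleton, not_or]
      exact ⟨fun h => by linarith, fun h => by linarith, fun h => by linarith, fun h => by linarith⟩
    · simp only [Finset.mem_insert, Finset.mem_singleton, not_or]
      exact ⟨hxy, fun h => by linarith, fun h => by linarith, fun h => by linarith,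
        fun h => by linarith⟩
  refine ⟨x * y * (x + y), {x, y, x + y, -x, -y, -(x + y)}, by rw [← ec]; exact h1,
    by rw [← ec]; exact h2, ⟨hcard, hPT⟩, ?_⟩
  rw [Finset.disjoint_left]
  intro b hbF hbB
  apply h3
  refine ⟨b, hbF, ?_⟩
  show |((b : ℝ) ^ 3 - 7 * b)| = CC t
  have e1 := hPT (b : ℝ)
  have e2 : PT {x, y, x + y, -x, -y, -(x + y)} (b : ℝ) = 0 :=
    Finset.prod_eq_zero hbB (by simp)
  rw [e2] at e1
  rw [ec]
  have hpos : (0 : ℝ) ≤ ((x * y * (x + y) : ℚ) : ℝ) := by push_cast; positivity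
  rw [← abs_of_nonneg hpos]
  refine (sq_eq_sq_iff_abs_eq_abs _ _).1 ?_
  unfold ss at e1
  linarith

end Pool.Agent.NH78.SG
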