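import Pool.Agent.NH78.SG.Stm

set_option autoImplicit false

namespace Pool.Agent.NH78.SG
namespace EXT

open Finset

theorem cast_PT (T : Finset ℚ) (x : ℚ) : PT T (x : ℝ) = ((PQ T x : ℚ) : ℝ) := by
  unfold PT PQ
  push_cast
  rfl

theorem PT_union {F B : Finset ℚ} (h : Disjoint F B) (x : ℝ) : PT (F ∪ B) x = PT F x * PT B x := by
  unfold PT
  exact Finset.prod_union h

theorem PT_biUnion {q : ℕ} {B : Fin q → Finset ℚ} (h : ∀ i j, i ≠ j → Disjoint (B i) (B j)) (x : ℝ) :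
    PT (Finset.univ.biUnion B) x = ∏ i, PT (B i) x := by
  unfold PT
  exact Finset.prod_biUnion (fun i _ j _ hij => h i j hij)

theorem mem_of_zero {B : Finset ℚ} {b : ℚ} (h : PT B (b : ℝ) = 0) : b ∈ B := by
  unfold PT at h
  obtain ⟨a, ha, hab⟩ := Finset.prod_eq_zero_iff.1 h
  have h1 : (b : ℝ) = a := by linarith
  have h2 : b = a := by exact_mod_cast h1
  rwa [h2]

theorem zero_of_mem {B : Finset ℚ} {b : ℚ} (h : b ∈ B) : PT B (b : ℝ) = 0 := by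
  unfold PT
  exact Finset.prod_eq_zero h (sub_self _)

theorem ne_of_disj {c c' : ℚ} {B B' : Finset ℚ} (h : Spl c B) (h' : Spl c' B') (hd : Disjoint B B') :
    c ≠ c' := by
  rintro rfl
  have hne : B.Nonempty := by
    rw [← Finset.card_pos, h.card]; norm_num
  obtain ⟨b, hb⟩ := hne
  have h1 := zero_of_mem hb
  rw [h.eq, ← h'.eq] at h1
  exact Finset.disjoint_left.1 hd hb (mem_of_zero h1)

theorem ss_of_mem {c : ℚ} {B : Finset ℚ} (h : Spl c B) {b : ℚ} (hb : b ∈ B) :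
    ss (b : ℝ) = (c : ℝ) ^ 2 := by
  have h1 := zero_of_mem hb
  rw [h.eq] at h1
  linarith

theorem ss_six {b : ℚ} (hb : b ^ 2 = 1 ∨ b ^ 2 = 4 ∨ b ^ 2 = 9) : ss (b : ℝ) = 36 := by
  have h1 : ss (b : ℝ) = ((b : ℝ) ^ 2) * ((b : ℝ) ^ 2 - 7) ^ 2 := by
    unfold ss
    ring
  rw [h1]
  rcases hb with h | h | h
  · have h2 : (b : ℝ) ^ 2 = 1 := by exact_mod_cast h
    rw [h2]; norm_num
  · have h2 : (b : ℝ) ^ 2 = 4 := by exact_mod_cast h
    rw [h2]; norm_num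
  · have h2 : (b : ℝ) ^ 2 = 9 := by exact_mod_cast h
    rw [h2]; norm_num

theorem choose_atoms (h2 : S_DEN) : ∀ (q : ℕ) (F : Finset ℚ) (α β : Fin q → ℝ),
    (∀ i, 0 ≤ α i ∧ α i < β i ∧ β i ≤ 7) →
    ∃ (c : Fin q → ℚ) (B : Fin q → Finset ℚ),
      (∀ i, α i < c i ∧ (c i : ℝ) < β i ∧ Spl (c i) (B i) ∧ Disjoint F (B i)) ∧
      ∀ i j, i ≠ j → Disjoint (B i) (B j) := by
  intro q
  induction q with
  | zero =>
    intro F α β h
    exact ⟨fun i => i.elim0, fun i => i.elim0, fun i => i.elim0, fun i => i.elim0⟩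
  | succ q ih =>
    intro F α β h
    obtain ⟨c, B, h3, h4, h5, h6⟩ := h2 F (α 0) (β 0) (h 0).1 (h 0).2.1 (h 0).2.2
    obtain ⟨cs, Bs, h7, h8⟩ := ih (F ∪ B) (fun i => α i.succ) (fun i => β i.succ) (fun i => h i.succ)
    have h9 : ∀ i, Disjoint F (Bs i) ∧ Disjoint B (Bs i) := fun i =>
      Finset.disjoint_union_left.1 (h7 i).2.2.2
    refine ⟨Fin.cons c cs, Fin.cons B Bs, fun i => ?_, fun i j hij => ?_⟩
    · refine Fin.cases ?_ (fun i => ?_) i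
      · exact ⟨h3, h4, h5, h6⟩
      · exact ⟨(h7 i).1, (h7 i).2.1, (h7 i).2.2.1, (h9 i).1⟩
    · revert hij
      refine Fin.cases ?_ (fun i => ?_) i <;> refine Fin.cases ?_ (fun j => ?_) j
      · intro h; exact absurd rfl h
      · intro _; exact (h9 j).2
      · intro _; exact (h9 i).2.symm
      · intro hij; exact h8 i j (fun h => hij (by rw [h]))

open Classical in
theorem deep (h2 : S_DEN) {S B₀ : Finset ℚ} {v₀ c₀ : ℚ} (hB : Spl c₀ B₀) (hc : 6 < c₀) {t : ℕ}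
    (hS : Six S v₀) (hpos : ∀ ρ ∈ B₀, 0 < PT S ((ρ : ℚ) : ℝ)) {τ : ℝ} (hτ : 0 < τ)
    (hne : ∀ ρ ∈ B₀, PT S ((ρ : ℚ) : ℝ) ≠ τ)
    (hcard : (B₀.filter fun ρ : ℚ => PT S ρ < τ).card = t) :
    ∀ m : ℕ, ∃ (T : Finset ℚ) (v : ℚ) (τ' : ℝ), T.card = S.card + 6 * m ∧ Six T v ∧
      (∀ ρ ∈ B₀, 0 < PT T ((ρ : ℚ) : ℝ)) ∧ 0 < τ' ∧
      (∀ ρ ∈ B₀, PT T ((ρ : ℚ) : ℝ) ≠ τ') ∧ (B₀.filter fun ρ : ℚ => PT T ρ < τ').card = t := by
  intro m
  induction m with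
  | zero => exact ⟨S, v₀, τ, by simp, hS, hpos, hτ, hne, hcard⟩
  | succ m ih =>
    obtain ⟨T, v, τ', h3, h4, h5, h6, h7, h8⟩ := ih
    obtain ⟨e, B, he0, he1, hBe, hd⟩ := h2 (T ∪ B₀) 0 1 le_rfl one_pos (by norm_num)
    obtain ⟨hd1, hd2⟩ := Finset.disjoint_union_left.1 hd
    have hc' : (6 : ℝ) < c₀ := by exact_mod_cast hc
    have hκ : 0 < (c₀ : ℝ) ^ 2 - (e : ℝ) ^ 2 := by nlinarith
    have hval : ∀ ρ ∈ B₀, PT (T ∪ B) ((ρ : ℚ) : ℝ) = PT T ρ * ((c₀ : ℝ) ^ 2 - (e : ℝ) ^ 2) := by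
      intro ρ hρ
      rw [PT_union hd1, hBe.eq, ss_of_mem hB hρ]
    refine ⟨T ∪ B, v * (36 - e ^ 2), τ' * ((c₀ : ℝ) ^ 2 - (e : ℝ) ^ 2), ?_, ?_, ?_, ?_, ?_, ?_⟩
    · rw [Finset.card_union_of_disjoint hd1, h3, hBe.card]
      ring
    · obtain ⟨hv, ⟨s, hs, hs3⟩, hb⟩ := h4
      have he1' : e < 1 := by exact_mod_cast he1
      have he0' : 0 < e := by exact_mod_cast he0
      refine ⟨mul_pos hv (by nlinarith), ⟨s, Finset.mem_union_left _ hs, hs3⟩, fun b hb' => ?_⟩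
      have h9 : ((PQ (T ∪ B) b : ℚ) : ℝ) = ((v * (36 - e ^ 2) : ℚ) : ℝ) := by
        rw [← cast_PT, PT_union hd1, hBe.eq, ss_six hb', cast_PT, hb b hb']
        push_cast
        ring
      exact_mod_cast h9
    · intro ρ hρ
      rw [hval ρ hρ]
      exact mul_pos (h5 ρ hρ) hκ
    · exact mul_pos h6 hκ
    · intro ρ hρ h
      rw [hval ρ hρ] at h
      exact h7 ρ hρ (mul_right_cancel₀ hκ.ne' h)
    · rw [← h8]
      congr 1
      refine Finset.filter_congr fun ρ hρ => ?_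
      rw [hval ρ hρ, mul_lt_mul_iff_left₀ hκ]

theorem continuous_PT (T : Finset ℚ) : Continuous (PT T) := by
  unfold PT
  exact continuous_finsetProd _ fun a _ => continuous_id.sub continuous_const

theorem near {T B₀ : Finset ℚ} {c₀ : ℚ} (hB : Spl c₀ B₀) (h0 : 0 < c₀) (h7 : c₀ < 7)
    (hpos : ∀ ρ ∈ B₀, 0 < PT T ((ρ : ℚ) : ℝ)) :
    ∃ η : ℝ, 0 < η ∧ ∀ c : ℝ, (c₀ : ℝ) < c → c < c₀ + η → c < 7 → ∀ x : ℝ, ss x = c ^ 2 → 0 < PT T x := by
  classical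
  have h1 : ∀ ρ : ℚ, ∃ d : ℝ, 0 < d ∧ (ρ ∈ B₀ → ∀ x : ℝ, |x - ρ| < d → 0 < PT T x) := by
    intro ρ
    by_cases hρ : ρ ∈ B₀
    · have h2 : {x : ℝ | 0 < PT T x} ∈ nhds (ρ : ℝ) :=
        (isOpen_lt continuous_const (continuous_PT T)).mem_nhds (hpos ρ hρ)
      obtain ⟨d, hd, hball⟩ := Metric.mem_nhds_iff.1 h2
      refine ⟨d, hd, fun _ x hx => hball ?_⟩
      rw [Metric.mem_ball, Real.dist_eq]
      exact hx
    · exact ⟨1, one_pos, fun h => absurd h hρ⟩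
  choose d hd hdd using h1
  have hne : B₀.Nonempty := by
    rw [← Finset.card_pos, hB.card]; norm_num
  obtain ⟨ρ₀, hρ₀, hmin⟩ := Finset.exists_min_image B₀ d hne
  have hD : 0 < d ρ₀ := hd ρ₀
  refine ⟨d ρ₀ ^ 6 / 14, by positivity, fun c hc1 hc2 hc3 x hx => ?_⟩
  by_contra hcon
  have h3 : ∀ ρ ∈ B₀, d ρ₀ ≤ |x - ρ| := by
    intro ρ hρ
    by_contra h4
    push Not at h4
    exact hcon (hdd ρ hρ x (h4.trans_le (hmin ρ hρ)))
  have h4 : d ρ₀ ^ 6 ≤ |PT B₀ x| := by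
    unfold PT
    rw [Finset.abs_prod, ← hB.card, ← Finset.prod_const]
    exact Finset.prod_le_prod (fun _ _ => hD.le) h3
  rw [hB.eq, hx] at h4
  have h5 : (0 : ℝ) < c₀ := by exact_mod_cast h0
  have h6 : (c₀ : ℝ) < 7 := by exact_mod_cast h7
  rw [abs_of_pos (by nlinarith)] at h4
  have h8 : c ^ 2 - (c₀ : ℝ) ^ 2 = (c - c₀) * (c + c₀) := by ring
  rw [h8] at h4
  have h9 : (c - c₀) * (c + c₀) < d ρ₀ ^ 6 / 14 * 14 := by
    have h10 : c - c₀ < d ρ₀ ^ 6 / 14 := by linarith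
    have h11 : c + c₀ < 14 := by linarith
    exact mul_lt_mul'' h10 h11 (by linarith) (by linarith)
  linarith

end EXT

open EXT Finset in
theorem t_EXT (h1 : S_BLK) (h2 : S_DEN) (h3 : S_CNT) : S_EXT := by
  classical
  intro n r hn hpar
  obtain ⟨S, v₀, c₀, B₀, hmod, h45, hS, hB₀, hc6, hc7, hBpos, hblk⟩ := h1 n
  obtain ⟨τ, hτ, hτne, hτcard⟩ := hblk (r % 6) (by omega) (by omega)
  have hposS : ∀ ρ ∈ B₀, 0 < PT S ((ρ : ℚ) : ℝ) := fun ρ hρ => by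
    rw [cast_PT]; exact_mod_cast hBpos ρ hρ
  have hneS : ∀ ρ ∈ B₀, PT S ((ρ : ℚ) : ℝ) ≠ (τ : ℝ) := fun ρ hρ h => by
    rw [cast_PT] at h
    exact hτne ρ hρ (by exact_mod_cast h)
  have hcardS : (B₀.filter fun ρ : ℚ => PT S ρ < (τ : ℝ)).card = r % 6 := by
    rw [← hτcard]
    congr 1
    refine Finset.filter_congr fun ρ hρ => ?_
    rw [cast_PT]
    exact_mod_cast Iff.rfl
  set q := r / 6 with hq
  obtain ⟨T, v, τ', hT1, hT2, hT3, hT4, hT5, hT6⟩ := deep h2 hB₀ hc6 hS hposS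
    (by exact_mod_cast hτ : (0 : ℝ) < τ) hneS hcardS ((n - S.card) / 6 - 2 * q - 2)
  have hTn : T.card + 12 + 12 * q = n := by omega
  have hc0 : (0 : ℚ) < c₀ := by linarith
  have hc6' : (6 : ℝ) < c₀ := by exact_mod_cast hc6
  have hc7' : (c₀ : ℝ) < 7 := by exact_mod_cast hc7
  have hTB : Disjoint T B₀ := by
    rw [Finset.disjoint_left]
    intro a ha hb
    have h4 := hT3 a hb
    rw [zero_of_mem ha] at h4
    exact lt_irrefl _ h4
  obtain ⟨η, hη, hnear⟩ := near hB₀ hc0 hc7 hT3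
  obtain ⟨cs, Bs, hcs, hBs⟩ := choose_atoms h2 q (T ∪ B₀) (fun _ => (c₀ : ℝ))
    (fun _ => min ((c₀ : ℝ) + η) 7) (fun i => ⟨by linarith, lt_min (by linarith) hc7', min_le_right _ _⟩)
  have hcs7 : ∀ i, (cs i : ℝ) < 7 := fun i => (hcs i).2.1.trans_le (min_le_right _ _)
  have hcsd : ∀ i, Disjoint T (Bs i) ∧ Disjoint B₀ (Bs i) := fun i =>
    Finset.disjoint_union_left.1 (hcs i).2.2.2
  have hcspos : ∀ i, (0 : ℝ) < cs i := fun i => by linarith [(hcs i).1]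
  obtain ⟨ε, hε, hcnt⟩ := h3 T q (r % 6) c₀ B₀ cs Bs τ' hc0 hB₀ hT3 hT4 hT5 hT6
    (fun i => ⟨by exact_mod_cast hcspos i, fun h => by
      have h4 := (hcs i).1
      rw [h] at h4
      exact lt_irrefl _ h4, (hcs i).2.2.1, fun σ hσ =>
      hnear (cs i) (hcs i).1 ((hcs i).2.1.trans_le (min_le_left _ _)) (hcs7 i) _
        (ss_of_mem (hcs i).2.2.1 hσ)⟩)
    (fun i j hij => by
      by_contra hne
      exact ne_of_disj (hcs i).2.2.1 (hcs j).2.2.1 (hBs i j hne) hij)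
  set U := T ∪ B₀ ∪ Finset.univ.biUnion Bs with hU
  obtain ⟨c', B', hc'1, hc'2, hB', hd'⟩ := h2 U c₀ (min ((c₀ : ℝ) + ε) 7) (by linarith)
    (lt_min (by linarith) hc7') (min_le_right _ _)
  have hc'3 : (c' : ℝ) < c₀ + ε := hc'2.trans_le (min_le_left _ _)
  obtain ⟨ε', hε', hcnt'⟩ := hcnt c' (by rw [abs_of_pos (by linarith)]; linarith) hc'1.ne'
  obtain ⟨ds, Ds, hds, hDs⟩ := choose_atoms h2 q (U ∪ B') (fun i => (cs i : ℝ))
    (fun i => min ((cs i : ℝ) + ε') 7) (fun i => ⟨(hcspos i).le, lt_min (by linarith) (hcs7 i),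
      min_le_right _ _⟩)
  obtain ⟨v₁, v₂, hv₁, hv₂, hfin⟩ := hcnt' (fun i => (ds i : ℝ)) (fun i => by
    have h4 := (hds i).1
    have h5 := (hds i).2.1.trans_le (min_le_left _ _)
    rw [abs_of_pos (by linarith)]
    linarith)
  have hd1 : Disjoint (T ∪ B₀) (Finset.univ.biUnion Bs) := by
    rw [Finset.disjoint_biUnion_right]
    exact fun i _ => (hcs i).2.2.2
  have hd2 : Disjoint (U ∪ B') (Finset.univ.biUnion Ds) := by
    rw [Finset.disjoint_biUnion_right]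
    exact fun i _ => (hds i).2.2.2
  have hPT : ∀ x : ℝ, PT (U ∪ B' ∪ Finset.univ.biUnion Ds) x =
      Phi T c₀ (fun i => (cs i : ℝ)) c' (fun i => (ds i : ℝ)) x := by
    intro x
    rw [PT_union hd2, PT_union hd', hU, PT_union hd1, PT_union hTB, PT_biUnion hBs, PT_biUnion hDs,
      hB₀.eq, hB'.eq, Finset.prod_congr rfl fun i _ => (hcs i).2.2.1.eq x,
      Finset.prod_congr rfl fun i _ => (hds i).2.2.1.eq x]
    unfold Phi
    rw [Finset.prod_mul_distrib]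
    ring
  obtain ⟨hv, ⟨s, hs, hs3⟩, hb⟩ := hT2
  have hds6 : ∀ i, (6 : ℝ) < cs i ∧ (6 : ℝ) < ds i := fun i =>
    ⟨by linarith [(hcs i).1], by linarith [(hcs i).1, (hds i).1]⟩
  refine ⟨U ∪ B' ∪ Finset.univ.biUnion Ds,
    v * ((36 - c₀ ^ 2) * (36 - c' ^ 2)) * ∏ i, ((36 - cs i ^ 2) * (36 - ds i ^ 2)), ?_,
    ⟨?_, ⟨s, ?_, hs3⟩, ?_⟩, v₁, v₂, hv₁, hv₂, ?_⟩
  · rw [Finset.card_union_of_disjoint hd2, Finset.card_union_of_disjoint hd', hU,
      Finset.card_union_of_disjoint hd1, Finset.card_union_of_disjoint hTB,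
      Finset.card_biUnion (fun i _ j _ hij => hBs i j hij),
      Finset.card_biUnion (fun i _ j _ hij => hDs i j hij),
      Finset.sum_congr rfl fun i _ => (hcs i).2.2.1.card,
      Finset.sum_congr rfl fun i _ => (hds i).2.2.1.card, hB₀.card, hB'.card]
    simp only [Finset.sum_const, Finset.card_univ, Fintype.card_fin, smul_eq_mul]
    omega
  · have h4 : ∀ a : ℚ, (6 : ℝ) < a → (36 : ℚ) - a ^ 2 < 0 := by
      intro a ha
      have h5 : (6 : ℚ) < a := by exact_mod_cast ha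
      nlinarith
    refine mul_pos (mul_pos hv (mul_pos_of_neg_of_neg (h4 _ hc6') (h4 _ (by linarith)))) ?_
    exact Finset.prod_pos fun i _ => mul_pos_of_neg_of_neg (h4 _ (hds6 i).1) (h4 _ (hds6 i).2)
  · rw [hU]
    simp only [Finset.mem_union]
    tauto
  · intro b hb'
    have h4 : ((PQ (U ∪ B' ∪ Finset.univ.biUnion Ds) b : ℚ) : ℝ) =
        ((v * ((36 - c₀ ^ 2) * (36 - c' ^ 2)) * ∏ i, ((36 - cs i ^ 2) * (36 - ds i ^ 2)) : ℚ) : ℝ) := by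
      rw [← cast_PT, hPT]
      unfold Phi
      rw [ss_six hb', cast_PT, hb b hb']
      push_cast
      rfl
    exact_mod_cast h4
  · intro w hw1 hw2
    have h4 := hfin w hw1 hw2
    have h5 : {x : ℝ | PT (U ∪ B' ∪ Finset.univ.biUnion Ds) x = -w} =
        Sol T c₀ (fun i => (cs i : ℝ)) c' (fun i => (ds i : ℝ)) w := by
      ext x
      simp only [Set.mem_ofPred_eq, Sol, hPT]
    rw [h5]
    omega

end Pool.Agent.NH78.SG
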