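import Pool.Agent.NH78.SG.Stm2
import Pool.Agent.NH78.SG.EXT

set_option autoImplicit false

namespace Pool.Agent.NH78.SG
namespace EXT2

open Finset

theorem choose_atoms2 (h2 : S_DEN2) : ∀ (q : ℕ) (F : Finset ℚ) (α β : Fin q → ℝ), SumNe F →
    (∀ i, 0 ≤ α i ∧ α i < β i ∧ β i ≤ 7) →
    ∃ (c : Fin q → ℚ) (B : Fin q → Finset ℚ),
      (∀ i, α i < c i ∧ (c i : ℝ) < β i ∧ Spl (c i) (B i) ∧ Disjoint F (B i)) ∧
      (∀ i j, i ≠ j → Disjoint (B i) (B j)) ∧ SumNe (F ∪ Finset.univ.biUnion B) := by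
  intro q
  induction q with
  | zero =>
    intro F α β hF h
    refine ⟨fun i => i.elim0, fun i => i.elim0, fun i => i.elim0, fun i => i.elim0, ?_⟩
    have h1 : (Finset.univ : Finset (Fin 0)).biUnion (fun i => (i.elim0 : Finset ℚ)) = ∅ := by
      ext x
      simp
    rw [h1, Finset.union_empty]
    exact hF
  | succ q ih =>
    intro F α β hF h
    obtain ⟨c, B, h3, h4, h5, h6, h66⟩ := h2 F (α 0) (β 0) (h 0).1 (h 0).2.1 (h 0).2.2
    obtain ⟨cs, Bs, h7, h8, h88⟩ := ih (F ∪ B) (fun i => α i.succ) (fun i => β i.succ) h66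
      (fun i => h i.succ)
    have h9 : ∀ i, Disjoint F (Bs i) ∧ Disjoint B (Bs i) := fun i =>
      Finset.disjoint_union_left.1 (h7 i).2.2.2
    refine ⟨Fin.cons c cs, Fin.cons B Bs, fun i => ?_, fun i j hij => ?_, ?_⟩
    · refine Fin.cases ?_ (fun i => ?_) i
      · exact ⟨h3, h4, h5, h6⟩
      · exact ⟨(h7 i).1, (h7 i).2.1, (h7 i).2.2.1, (h9 i).1⟩
    · revert hij
      refine Fin.cases ?_ (fun i => ?_) i <;> refine Fin.cases ?_ (fun j => ?_) j
      · intro h; exact absurd rfl h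
      · intro _; exact (h9 j).2
      · intro _; exact (h9 i).2.symm
      · intro hij; exact h8 i j (fun h => hij (by rw [h]))
    · have h10 : F ∪ Finset.univ.biUnion (Fin.cons B Bs : Fin (q + 1) → Finset ℚ) =
          (F ∪ B) ∪ Finset.univ.biUnion Bs := by
        ext x
        simp only [Finset.mem_union, Finset.mem_biUnion, Finset.mem_univ, true_and, Fin.exists_fin_succ,
          Fin.cons_zero, Fin.cons_succ]
        tauto
      rw [h10]
      exact h88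

theorem den_of (h : S_DEN2) : S_DEN := fun F α β h1 h2 h3 => by
  obtain ⟨c, B, h4, h5, h6, h7, -⟩ := h F α β h1 h2 h3
  exact ⟨c, B, h4, h5, h6, h7⟩

end EXT2

open EXT Finset in
theorem t_EXT2 (h1 : S_BLK) (h2' : S_DEN2) (h3 : S_CNT) : S_EXT2 := by
  classical
  have h2 : S_DEN := EXT2.den_of h2'
  intro n r hn hpar
  obtain ⟨S, v₀, c₀, B₀, hmod, h45, hS, hB₀, hc6, hc7, hBpos, hblk⟩ := h1 n
  obtain ⟨τ, hτ, hτne, hτcard⟩ := hblk (r % 6) (by omega) (by omega)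
  have hposS : ∀ ρ ∈ B₀, 0 < PT S ((ρ : ℚ) : ℝ) := fun ρ hρ => by
    rw [cast_PT]; exact_mod_cast hBpos ρ hρ
  have hneS : ∀ ρ ∈ B₀, PT S ((ρ : ℚ) : ℝ) ≠ (τ : ℝ) := fun ρ hρ h => by
    rw [cast_PT] at h
    exact hτne ρ hρ (by exact_mod_cast h)
  have hcardS : (B₀.filter fun ρ : ℚ => PT S ρ < (τ : ℝ)).card = r % 6 := by
    rw [← hτcard]
    congr 1
    refine Finset.filter_congr fun ρ hρ => ?_
    rw [cast_PT]
    exact_mod_cast Iff.rfl
  set q := r / 6 with hq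
  obtain ⟨T, v, τ', hT1, hT2, hT3, hT4, hT5, hT6⟩ := deep h2 hB₀ hc6 hS hposS
    (by exact_mod_cast hτ : (0 : ℝ) < τ) hneS hcardS ((n - S.card) / 6 - 2 * q - 2)
  have hTn : T.card + 12 + 12 * q = n := by omega
  have hc0 : (0 : ℚ) < c₀ := by linarith
  have hc6' : (6 : ℝ) < c₀ := by exact_mod_cast hc6
  have hc7' : (c₀ : ℝ) < 7 := by exact_mod_cast hc7
  have hTB : Disjoint T B₀ := by
    rw [Finset.disjoint_left]
    intro a ha hb
    have h4 := hT3 a hb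
    rw [zero_of_mem ha] at h4
    exact lt_irrefl _ h4
  obtain ⟨η, hη, hnear⟩ := near hB₀ hc0 hc7 hT3
  obtain ⟨cs, Bs, hcs, hBs⟩ := choose_atoms h2 q (T ∪ B₀) (fun _ => (c₀ : ℝ))
    (fun _ => min ((c₀ : ℝ) + η) 7) (fun i => ⟨by linarith, lt_min (by linarith) hc7', min_le_right _ _⟩)
  have hcs7 : ∀ i, (cs i : ℝ) < 7 := fun i => (hcs i).2.1.trans_le (min_le_right _ _)
  have hcsd : ∀ i, Disjoint T (Bs i) ∧ Disjoint B₀ (Bs i) := fun i =>
    Finset.disjoint_union_left.1 (hcs i).2.2.2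
  have hcspos : ∀ i, (0 : ℝ) < cs i := fun i => by linarith [(hcs i).1]
  obtain ⟨ε, hε, hcnt⟩ := h3 T q (r % 6) c₀ B₀ cs Bs τ' hc0 hB₀ hT3 hT4 hT5 hT6
    (fun i => ⟨by exact_mod_cast hcspos i, fun h => by
      have h4 := (hcs i).1
      rw [h] at h4
      exact lt_irrefl _ h4, (hcs i).2.2.1, fun σ hσ =>
      hnear (cs i) (hcs i).1 ((hcs i).2.1.trans_le (min_le_left _ _)) (hcs7 i) _
        (ss_of_mem (hcs i).2.2.1 hσ)⟩)
    (fun i j hij => by
      by_contra hne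
      exact ne_of_disj (hcs i).2.2.1 (hcs j).2.2.1 (hBs i j hne) hij)
  set U := T ∪ B₀ ∪ Finset.univ.biUnion Bs with hU
  obtain ⟨c', B', hc'1, hc'2, hB', hd', hne'⟩ := h2' U c₀ (min ((c₀ : ℝ) + ε) 7) (by linarith)
    (lt_min (by linarith) hc7') (min_le_right _ _)
  have hc'3 : (c' : ℝ) < c₀ + ε := hc'2.trans_le (min_le_left _ _)
  obtain ⟨ε', hε', hcnt'⟩ := hcnt c' (by rw [abs_of_pos (by linarith)]; linarith) hc'1.ne'
  obtain ⟨ds, Ds, hds, hDs, hsum⟩ := EXT2.choose_atoms2 h2' q (U ∪ B') (fun i => (cs i : ℝ))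
    (fun i => min ((cs i : ℝ) + ε') 7) hne' (fun i => ⟨(hcspos i).le, lt_min (by linarith) (hcs7 i),
      min_le_right _ _⟩)
  obtain ⟨v₁, v₂, hv₁, hv₂, hfin⟩ := hcnt' (fun i => (ds i : ℝ)) (fun i => by
    have h4 := (hds i).1
    have h5 := (hds i).2.1.trans_le (min_le_left _ _)
    rw [abs_of_pos (by linarith)]
    linarith)
  have hd1 : Disjoint (T ∪ B₀) (Finset.univ.biUnion Bs) := by
    rw [Finset.disjoint_biUnion_right]
    exact fun i _ => (hcs i).2.2.2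
  have hd2 : Disjoint (U ∪ B') (Finset.univ.biUnion Ds) := by
    rw [Finset.disjoint_biUnion_right]
    exact fun i _ => (hds i).2.2.2
  have hPT : ∀ x : ℝ, PT (U ∪ B' ∪ Finset.univ.biUnion Ds) x =
      Phi T c₀ (fun i => (cs i : ℝ)) c' (fun i => (ds i : ℝ)) x := by
    intro x
    rw [PT_union hd2, PT_union hd', hU, PT_union hd1, PT_union hTB, PT_biUnion hBs, PT_biUnion hDs,
      hB₀.eq, hB'.eq, Finset.prod_congr rfl fun i _ => (hcs i).2.2.1.eq x,
      Finset.prod_congr rfl fun i _ => (hds i).2.2.1.eq x]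
    unfold Phi
    rw [Finset.prod_mul_distrib]
    ring
  obtain ⟨hv, ⟨s, hs, hs3⟩, hb⟩ := hT2
  have hds6 : ∀ i, (6 : ℝ) < cs i ∧ (6 : ℝ) < ds i := fun i =>
    ⟨by linarith [(hcs i).1], by linarith [(hcs i).1, (hds i).1]⟩
  refine ⟨U ∪ B' ∪ Finset.univ.biUnion Ds,
    v * ((36 - c₀ ^ 2) * (36 - c' ^ 2)) * ∏ i, ((36 - cs i ^ 2) * (36 - ds i ^ 2)),
    ⟨?_, ⟨?_, ⟨s, ?_, hs3⟩, ?_⟩, v₁, v₂, hv₁, hv₂, ?_⟩, hsum⟩
  · rw [Finset.card_union_of_disjoint hd2, Finset.card_union_of_disjoint hd', hU,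
      Finset.card_union_of_disjoint hd1, Finset.card_union_of_disjoint hTB,
      Finset.card_biUnion (fun i _ j _ hij => hBs i j hij),
      Finset.card_biUnion (fun i _ j _ hij => hDs i j hij),
      Finset.sum_congr rfl fun i _ => (hcs i).2.2.1.card,
      Finset.sum_congr rfl fun i _ => (hds i).2.2.1.card, hB₀.card, hB'.card]
    simp only [Finset.sum_const, Finset.card_univ, Fintype.card_fin, smul_eq_mul]
    omega
  · have h4 : ∀ a : ℚ, (6 : ℝ) < a → (36 : ℚ) - a ^ 2 < 0 := by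
      intro a ha
      have h5 : (6 : ℚ) < a := by exact_mod_cast ha
      nlinarith
    refine mul_pos (mul_pos hv (mul_pos_of_neg_of_neg (h4 _ hc6') (h4 _ (by linarith)))) ?_
    exact Finset.prod_pos fun i _ => mul_pos_of_neg_of_neg (h4 _ (hds6 i).1) (h4 _ (hds6 i).2)
  · rw [hU]
    simp only [Finset.mem_union]
    tauto
  · intro b hb'
    have h4 : ((PQ (U ∪ B' ∪ Finset.univ.biUnion Ds) b : ℚ) : ℝ) =
        ((v * ((36 - c₀ ^ 2) * (36 - c' ^ 2)) * ∏ i, ((36 - cs i ^ 2) * (36 - ds i ^ 2)) : ℚ) : ℝ) := by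
      rw [← cast_PT, hPT]
      unfold Phi
      rw [ss_six hb', cast_PT, hb b hb']
      push_cast
      rfl
    exact_mod_cast h4
  · intro w hw1 hw2
    have h4 := hfin w hw1 hw2
    have h5 : {x : ℝ | PT (U ∪ B' ∪ Finset.univ.biUnion Ds) x = -w} =
        Sol T c₀ (fun i => (cs i : ℝ)) c' (fun i => (ds i : ℝ)) w := by
      ext x
      simp only [Set.mem_ofPred_eq, Sol, hPT]
    rw [h5]
    omega

end Pool.Agent.NH78.SG
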