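import Pool.Agent.NH78.SG.Stm

/-! Project SG (helper78), job FAR: no solution away from the zeros of the limit (helper43). -/

set_option autoImplicit false

namespace Pool.Agent.NH78.SG

open Finset Filter Topology

namespace FAR

theorem one_le_abs_prod {ι : Type*} (s : Finset ι) (f : ι → ℝ) (h : ∀ i ∈ s, 1 ≤ |f i|) :
    1 ≤ |∏ i ∈ s, f i| := by
  rw [Finset.abs_prod]
  have := Finset.prod_le_prod (s := s) (f := fun _ => (1 : ℝ)) (g := fun i => |f i|)
    (fun _ _ => zero_le_one) h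
  simpa using this

theorem one_le_abs_mul {a b : ℝ} (ha : 1 ≤ |a|) (hb : 1 ≤ |b|) : 1 ≤ |a * b| := by
  rw [abs_mul]
  nlinarith

theorem growth {x c M : ℝ} (hM : 0 ≤ M) (hx : 3 + M ≤ |x|) (hc : |c| ≤ M) :
    1 ≤ |ss x - c ^ 2| := by
  have h1 : c ^ 2 ≤ M ^ 2 := by
    rw [← sq_abs c]
    exact pow_le_pow_left₀ (abs_nonneg c) hc 2
  have h2 : (3 + M) ^ 2 ≤ x ^ 2 := by
    rw [← sq_abs x]
    exact pow_le_pow_left₀ (by positivity) hx 2
  have h3 : ss x = x ^ 2 * (x ^ 2 - 7) ^ 2 := by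
    unfold ss
    ring
  have h4 : 9 ≤ x ^ 2 := by nlinarith
  have h5 : 4 ≤ (x ^ 2 - 7) ^ 2 := by nlinarith
  have h6 : 4 * (3 + M) ^ 2 ≤ ss x := by
    rw [h3]
    nlinarith [sq_nonneg (3 + M)]
  refine le_trans ?_ (le_abs_self _)
  nlinarith

variable (T : Finset ℚ) (q : ℕ) (c₀ : ℝ) (cs : Fin q → ℝ)

theorem cont : Continuous fun z : (ℝ × (Fin q → ℝ) × ℝ) × ℝ =>
    Phi T c₀ cs z.1.1 z.1.2.1 z.2 + z.1.2.2 := by
  unfold Phi PT ss
  fun_prop

theorem large {M : ℝ} (hM : 0 ≤ M) (h0 : |c₀| ≤ M) (hcs : ∀ i, |cs i| ≤ M) {c' : ℝ}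
    (hc' : |c'| ≤ M) {ds : Fin q → ℝ} (hds : ∀ i, |ds i| ≤ M) {x : ℝ}
    (hx : 3 + M + ∑ a ∈ T, |(a : ℝ)| ≤ |x|) : 1 ≤ |Phi T c₀ cs c' ds x| := by
  have hs : 0 ≤ ∑ a ∈ T, |(a : ℝ)| := Finset.sum_nonneg fun _ _ => abs_nonneg _
  have hx' : 3 + M ≤ |x| := by linarith
  unfold Phi PT
  refine one_le_abs_mul (one_le_abs_mul (one_le_abs_prod _ _ fun a ha => ?_)
    (one_le_abs_mul (growth hM hx' h0) (growth hM hx' hc'))) (one_le_abs_prod _ _ fun i _ =>
      one_le_abs_mul (growth hM hx' (hcs i)) (growth hM hx' (hds i)))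
  have h1 : |(a : ℝ)| ≤ ∑ a ∈ T, |(a : ℝ)| :=
    Finset.single_le_sum (f := fun a : ℚ => |(a : ℝ)|) (fun _ _ => abs_nonneg _) ha
  have h2 : |x| - |(a : ℝ)| ≤ |x - (a : ℝ)| := abs_sub_abs_le_abs_sub _ _
  linarith

end FAR

open FAR in
theorem t_FAR : S_FAR := by
  intro T q c₀ cs Z rad hZ hrad
  have hsum : 0 ≤ ∑ i, |cs i| := Finset.sum_nonneg fun _ _ => abs_nonneg _
  set M : ℝ := |c₀| + ∑ i, |cs i| + 1 with hMdef
  have hM : 0 ≤ M := by positivity
  have hcsM : ∀ i, |cs i| + 1 ≤ M := by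
    intro i
    have h1 : |cs i| ≤ ∑ i, |cs i| :=
      Finset.single_le_sum (f := fun i => |cs i|) (fun _ _ => abs_nonneg _) (Finset.mem_univ i)
    have := abs_nonneg c₀
    linarith
  have hc₀M : |c₀| + 1 ≤ M := by linarith
  set R : ℝ := 3 + M + ∑ a ∈ T, |(a : ℝ)| with hR
  let K : Set ℝ := Set.Icc (-R) R ∩ {x | ∀ z ∈ Z, rad z ≤ |x - z|}
  have hKc : IsCompact K := by
    refine isCompact_Icc.inter_right ?_
    have : {x : ℝ | ∀ z ∈ Z, rad z ≤ |x - z|} = ⋂ z ∈ Z, {x : ℝ | rad z ≤ |x - z|} := by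
      ext x
      simp
    rw [this]
    refine isClosed_biInter fun z _ => ?_
    exact isClosed_le continuous_const (by fun_prop)
  let base : ℝ × (Fin q → ℝ) × ℝ := (c₀, cs, 0)
  have key : ∀ᶠ p : ℝ × (Fin q → ℝ) × ℝ in 𝓝 base, ∀ x ∈ K,
      Phi T c₀ cs p.1 p.2.1 x + p.2.2 ≠ 0 := by
    refine hKc.eventually_forall_of_forall_eventually fun x hx => ?_
    have h1 := (cont T q c₀ cs).continuousAt (x := (base, x))
    refine h1.eventually_ne ?_
    show Phi T c₀ cs c₀ cs x + 0 ≠ 0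
    rw [add_zero]
    intro h2
    have h3 := hZ x h2
    have h4 := hx.2 x h3
    rw [sub_self, abs_zero] at h4
    exact absurd (hrad x h3) (not_lt.2 h4)
  obtain ⟨ε, hε, hε'⟩ := Metric.eventually_nhds_iff.1 key
  refine ⟨min ε 1, lt_min hε one_pos, fun c' ds v hc' hds hv x hx => ?_⟩
  have hsol : Phi T c₀ cs c' ds x = -v := hx
  by_contra hcon
  push Not at hcon
  rcases le_or_gt |x| R with hxR | hxR
  · have hxK : x ∈ K := ⟨abs_le.1 hxR, hcon⟩
    have hd : dist ((c', ds, v) : ℝ × (Fin q → ℝ) × ℝ) base < ε := by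
      rw [Prod.dist_eq, Prod.dist_eq]
      refine max_lt ?_ (max_lt ?_ ?_)
      · rw [Real.dist_eq]
        exact lt_of_lt_of_le hc' (min_le_left _ _)
      · refine (dist_pi_lt_iff hε).2 fun i => ?_
        rw [Real.dist_eq]
        exact lt_of_lt_of_le (hds i) (min_le_left _ _)
      · rw [Real.dist_eq]
        show |v - 0| < ε
        rw [sub_zero]
        exact lt_of_lt_of_le hv (min_le_left _ _)
    refine hε' hd x hxK ?_
    show Phi T c₀ cs c' ds x + v = 0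
    rw [hsol]
    ring
  · have h1 : |c'| ≤ M := by
      have h2 := abs_sub_abs_le_abs_sub c' c₀
      have h3 := lt_of_lt_of_le hc' (min_le_right _ _)
      linarith
    have h4 : ∀ i, |ds i| ≤ M := by
      intro i
      have h2 := abs_sub_abs_le_abs_sub (ds i) (cs i)
      have h3 := lt_of_lt_of_le (hds i) (min_le_right _ _)
      have h5 := hcsM i
      linarith
    have h5 := large T q c₀ cs hM (by linarith) (fun i => by have := hcsM i; linarith) h1 h4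
      (x := x) hxR.le
    rw [hsol, abs_neg] at h5
    have h6 := lt_of_lt_of_le hv (min_le_right _ _)
    linarith

end Pool.Agent.NH78.SG
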