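import Mathlib
import Pool.Agent.W289.CG.Stm

/-!
# Project SG (helper78), MP_176ace_nt: excess 6 in (almost) all signatures

Sets of rational roots with the same value at `±1, ±2, ±3` (starting files `TH665/CG6`): a block `S`, and
atoms `B` with `∏ (x - b) = (x³ - 7 x)² - c²`. Two atoms with almost the same `c` give six shallow gaps at
which the product is negative, so six pairs of real solutions of `∏ (x - a) = - v` disappear.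
-/

set_option autoImplicit false

namespace Pool.Agent.NH78.SG

open Finset

/-- the value at `x` of the polynomial with the set `T` of roots, over the reals -/
noncomputable def PT (T : Finset ℚ) (x : ℝ) : ℝ := ∏ a ∈ T, (x - (a : ℝ))

/-- the value at `x` of the polynomial with the set `T` of roots, over the rationals -/
def PQ (T : Finset ℚ) (x : ℚ) : ℚ := ∏ a ∈ T, (x - a)

/-- the square of `x³ - 7 x` -/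
noncomputable def ss (x : ℝ) : ℝ := (x ^ 3 - 7 * x) ^ 2

/-- an atom: six rational roots of `(x³ - 7 x)² - c²` -/
structure Spl (c : ℚ) (B : Finset ℚ) : Prop where
  card : B.card = 6
  eq : ∀ x : ℝ, PT B x = ss x - (c : ℝ) ^ 2

/-- `T`, two atoms at `c₀`, `c'`, and pairs of atoms at `cs i`, `ds i` -/
noncomputable def Phi (T : Finset ℚ) (c₀ : ℝ) {q : ℕ} (cs : Fin q → ℝ) (c' : ℝ) (ds : Fin q → ℝ)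
    (x : ℝ) : ℝ :=
  PT T x * ((ss x - c₀ ^ 2) * (ss x - c' ^ 2)) * ∏ i, ((ss x - cs i ^ 2) * (ss x - ds i ^ 2))

/-- the solutions of `Phi = - v` -/
def Sol (T : Finset ℚ) (c₀ : ℝ) {q : ℕ} (cs : Fin q → ℝ) (c' : ℝ) (ds : Fin q → ℝ) (v : ℝ) :
    Set ℝ := {x | Phi T c₀ cs c' ds x = -v}

/-- SG-SIM: exactly one solution near a root in `T` -/
def S_SIM : Prop := ∀ (T : Finset ℚ) (q : ℕ) (c₀ : ℝ) (cs : Fin q → ℝ) (a : ℚ), a ∈ T →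
  ss a ≠ c₀ ^ 2 → (∀ i, ss a ≠ cs i ^ 2) → ∀ δ₀ : ℝ, 0 < δ₀ → ∃ δ : ℝ, 0 < δ ∧ δ < δ₀ ∧
  ∃ ε : ℝ, 0 < ε ∧ ∀ (c' : ℝ) (ds : Fin q → ℝ) (v : ℝ), |c' - c₀| < ε → (∀ i, |ds i - cs i| < ε) →
    |v| < ε → (Sol T c₀ cs c' ds v ∩ Set.Ioo ((a : ℝ) - δ) (a + δ)).ncard = 1

/-- SG-FAR: no solution away from the zeros of the limit -/
def S_FAR : Prop := ∀ (T : Finset ℚ) (q : ℕ) (c₀ : ℝ) (cs : Fin q → ℝ) (Z : Finset ℝ) (rad : ℝ → ℝ),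
  (∀ x, Phi T c₀ cs c₀ cs x = 0 → x ∈ Z) → (∀ z ∈ Z, 0 < rad z) →
  ∃ ε : ℝ, 0 < ε ∧ ∀ (c' : ℝ) (ds : Fin q → ℝ) (v : ℝ), |c' - c₀| < ε → (∀ i, |ds i - cs i| < ε) →
    |v| < ε → ∀ x ∈ Sol T c₀ cs c' ds v, ∃ z ∈ Z, |x - z| < rad z

/-- SG-LIT: two solutions or none near a root of the atom at `c₀` -/
def S_LIT : Prop := ∀ (T : Finset ℚ) (q : ℕ) (c₀ : ℝ) (cs : Fin q → ℝ) (ρ w : ℝ), 0 < c₀ →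
  ss ρ = c₀ ^ 2 → 3 * ρ ^ 2 ≠ 7 → (∀ i, cs i ^ 2 ≠ c₀ ^ 2) → 0 < PT T ρ → 0 < w →
  w ≠ PT T ρ * ∏ i, (c₀ ^ 2 - cs i ^ 2) ^ 2 → ∀ δ₀ : ℝ, 0 < δ₀ → ∃ δ : ℝ, 0 < δ ∧ δ < δ₀ ∧
  ∃ ε : ℝ, 0 < ε ∧ ∀ (c' : ℝ) (ds : Fin q → ℝ) (v : ℝ), |c' - c₀| < ε → c' ≠ c₀ →
    (∀ i, |ds i - cs i| < ε) →
    |v - w * (c' ^ 2 - c₀ ^ 2) ^ 2 / 4| < ε * (c' ^ 2 - c₀ ^ 2) ^ 2 →
    (w < PT T ρ * ∏ i, (c₀ ^ 2 - cs i ^ 2) ^ 2 →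
      (Sol T c₀ cs c' ds v ∩ Set.Ioo (ρ - δ) (ρ + δ)).ncard = 2) ∧
    (PT T ρ * ∏ i, (c₀ ^ 2 - cs i ^ 2) ^ 2 < w →
      (Sol T c₀ cs c' ds v ∩ Set.Ioo (ρ - δ) (ρ + δ)).ncard = 0)

/-- SG-CEN: no solution near a root of the atom at `cs i` -/
def S_CEN : Prop := ∀ (T : Finset ℚ) (q : ℕ) (c₀ : ℝ) (cs : Fin q → ℝ) (i : Fin q) (σ : ℝ),
  ss σ = cs i ^ 2 → cs i ^ 2 ≠ c₀ ^ 2 → (∀ j, j ≠ i → cs j ^ 2 ≠ cs i ^ 2) → 0 < PT T σ →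
  ∀ δ₀ : ℝ, 0 < δ₀ → ∃ δ : ℝ, 0 < δ ∧ δ < δ₀ ∧ ∃ ε K : ℝ, 0 < ε ∧ 0 < K ∧
    ∀ (c' : ℝ) (ds : Fin q → ℝ) (v : ℝ), |c' - c₀| < ε → (∀ j, |ds j - cs j| < ε) → 0 < v →
      K * (ds i ^ 2 - cs i ^ 2) ^ 2 < v →
      (Sol T c₀ cs c' ds v ∩ Set.Ioo (σ - δ) (σ + δ)).ncard = 0

open Classical in
/-- SG-CNT: the number of solutions -/
def S_CNT : Prop := ∀ (T : Finset ℚ) (q t : ℕ) (c₀ : ℚ) (B₀ : Finset ℚ) (cs : Fin q → ℚ)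
  (Bs : Fin q → Finset ℚ) (τ : ℝ), 0 < c₀ → Spl c₀ B₀ → (∀ ρ ∈ B₀, 0 < PT T ρ) → 0 < τ →
  (∀ ρ ∈ B₀, PT T ρ ≠ τ) → (B₀.filter fun ρ : ℚ => PT T ρ < τ).card = t →
  (∀ i, 0 < cs i ∧ cs i ≠ c₀ ∧ Spl (cs i) (Bs i) ∧ ∀ σ ∈ Bs i, 0 < PT T σ) →
  Function.Injective cs →
  ∃ ε : ℝ, 0 < ε ∧ ∀ c' : ℝ, |c' - c₀| < ε → c' ≠ c₀ → ∃ ε' : ℝ, 0 < ε' ∧
    ∀ ds : Fin q → ℝ, (∀ i, |ds i - cs i| < ε') → ∃ v₁ v₂ : ℝ, 0 < v₁ ∧ v₁ < v₂ ∧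
      ∀ v, v₁ < v → v < v₂ →
        (Sol T c₀ (fun i => (cs i : ℝ)) c' ds v).ncard + 2 * (6 * q + t) = T.card + 12 + 12 * q

/-- SG-DEN: atoms are dense -/
def S_DEN : Prop := ∀ (F : Finset ℚ) (α β : ℝ), 0 ≤ α → α < β → β ≤ 7 →
  ∃ (c : ℚ) (B : Finset ℚ), α < c ∧ (c : ℝ) < β ∧ Spl c B ∧ Disjoint F B

/-- the same value at `±1, ±2, ±3` -/
def Six (S : Finset ℚ) (v₀ : ℚ) : Prop :=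
  0 < v₀ ∧ (∃ s ∈ S, 3 < s) ∧ ∀ b : ℚ, (b ^ 2 = 1 ∨ b ^ 2 = 4 ∨ b ^ 2 = 9) → PQ S b = v₀

/-- SG-BLK: the blocks -/
def S_BLK : Prop := ∀ n : ℕ, ∃ (S : Finset ℚ) (v₀ c₀ : ℚ) (B₀ : Finset ℚ), S.card % 6 = n % 6 ∧
  S.card ≤ 45 ∧ Six S v₀ ∧ Spl c₀ B₀ ∧ 6 < c₀ ∧ c₀ < 7 ∧ (∀ ρ ∈ B₀, 0 < PQ S ρ) ∧
  ∀ t ≤ 5, (n % 2 = 1 ∨ t % 2 = 0) → ∃ τ : ℚ, 0 < τ ∧ (∀ ρ ∈ B₀, PQ S ρ ≠ τ) ∧
    (B₀.filter fun ρ => PQ S ρ < τ).card = t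

/-- the set of roots, with a known number of real solutions -/
def Fin6 (n r : ℕ) (F : Finset ℚ) (v₀ : ℚ) : Prop := F.card = n ∧ Six F v₀ ∧
  ∃ v₁ v₂ : ℝ, 0 < v₁ ∧ v₁ < v₂ ∧ ∀ v, v₁ < v → v < v₂ → {x : ℝ | PT F x = -v}.ncard + 2 * r = n

/-- SG-EXT: the sets of roots -/
def S_EXT : Prop := ∀ n r : ℕ, 2 * r + 57 ≤ n → (n % 2 = 1 ∨ r % 2 = 0) →
  ∃ (F : Finset ℚ) (v₀ : ℚ), Fin6 n r F v₀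

/-- SG-DAT: the data -/
def S_DAT : Prop := ∀ (n r : ℕ) (F : Finset ℚ) (v₀ : ℚ), Fin6 n r F v₀ →
  ∃ (D : Pool.Agent.W289.CG.Dat n 6) (v₁ v₂ : ℝ), 0 < v₁ ∧ v₁ < v₂ ∧
    ∀ v, v₁ < v → v < v₂ → {X : ℝ | ∏ i, (X - (D.a i : ℝ)) = -v}.ncard + 2 * r = n

end Pool.Agent.NH78.SG
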