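import Pool.Agent.NH78.SG.Stm

set_option autoImplicit false

namespace Pool.Agent.NH78.SG

open Finset Polynomial Filter Topology

namespace LIT

def Nice {Y : Type} [TopologicalSpace Y] (F : Y → ℝ[X]) : Prop :=
  ∀ k : ℕ, Continuous (fun p : Y × ℝ => (derivative^[k] (F p.1)).eval p.2)

section
variable {Y : Type} [TopologicalSpace Y]

theorem nice_const (p : ℝ[X]) : Nice (fun _ : Y => p) := fun k =>
  (derivative^[k] p).continuous.comp continuous_snd

theorem nice_C {f : Y → ℝ} (hf : Continuous f) : Nice (fun y => C (f y)) := by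
  intro k
  cases k with
  | zero =>
    show Continuous fun p : Y × ℝ => (C (f p.1)).eval p.2
    simp only [eval_C]
    exact hf.comp continuous_fst
  | succ k =>
    have : (fun p : Y × ℝ => (derivative^[k+1] (C (f p.1))).eval p.2) = fun _ => 0 := by
      funext p
      rw [Function.iterate_succ_apply, derivative_C, iterate_map_zero, eval_zero]
    rw [this]
    exact continuous_const

theorem nice_sub {F G : Y → ℝ[X]} (hF : Nice F) (hG : Nice G) : Nice (fun y => F y - G y) := by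
  intro k
  have : (fun p : Y × ℝ => (derivative^[k] (F p.1 - G p.1)).eval p.2) =
      fun p => (derivative^[k] (F p.1)).eval p.2 - (derivative^[k] (G p.1)).eval p.2 := by
    funext p
    rw [iterate_derivative_sub, eval_sub]
  rw [this]
  exact (hF k).sub (hG k)

theorem nice_mul {F G : Y → ℝ[X]} (hF : Nice F) (hG : Nice G) : Nice (fun y => F y * G y) := by
  intro k
  have : (fun p : Y × ℝ => (derivative^[k] (F p.1 * G p.1)).eval p.2) =
      fun p => ∑ j ∈ range k.succ, (k.choose j : ℝ) * ((derivative^[k - j] (F p.1)).eval p.2 *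
        (derivative^[j] (G p.1)).eval p.2) := by
    funext p
    rw [iterate_derivative_mul, eval_finsetSum]
    refine sum_congr rfl fun j _ => ?_
    rw [eval_smul, eval_mul, nsmul_eq_mul]
  rw [this]
  exact continuous_finsetSum _ fun j _ => continuous_const.mul ((hF _).mul (hG _))

theorem nice_prod {ι : Type} (s : Finset ι) {F : ι → Y → ℝ[X]} (hF : ∀ i, Nice (F i)) :
    Nice (fun y => ∏ i ∈ s, F i y) := by
  classical
  induction s using Finset.induction_on with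
  | empty => simpa using nice_const (Y := Y) 1
  | insert a s ha ih =>
    have : (fun y => ∏ i ∈ insert a s, F i y) = fun y => F a y * ∏ i ∈ s, F i y := by
      funext y
      rw [prod_insert ha]
    rw [this]
    exact nice_mul (hF a) ih

end

noncomputable def S : ℝ[X] := (X ^ 3 - C 7 * X) ^ 2

theorem S_eval (x : ℝ) : S.eval x = ss x := by
  simp [S, ss]

noncomputable def GG (T : Finset ℚ) {q : ℕ} (cs ds : Fin q → ℝ) : ℝ[X] :=
  (∏ a ∈ T, (X - C (a : ℝ))) * ∏ i, ((S - C (cs i ^ 2)) * (S - C (ds i ^ 2)))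

noncomputable def FF (T : Finset ℚ) (c₀ : ℝ) {q : ℕ} (cs : Fin q → ℝ) (y : ℝ × (Fin q → ℝ)) : ℝ[X] :=
  GG T cs y.2 * ((S - C (c₀ ^ 2)) * (S - C (y.1 ^ 2)))

theorem GG_eval (T : Finset ℚ) {q : ℕ} (cs ds : Fin q → ℝ) (x : ℝ) :
    (GG T cs ds).eval x = PT T x * ∏ i, ((ss x - cs i ^ 2) * (ss x - ds i ^ 2)) := by
  simp [GG, PT, eval_prod, S_eval]

theorem FF_eval (T : Finset ℚ) (c₀ : ℝ) {q : ℕ} (cs : Fin q → ℝ) (y : ℝ × (Fin q → ℝ)) (x : ℝ) :
    (FF T c₀ cs y).eval x = Phi T c₀ cs y.1 y.2 x := by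
  rw [FF, eval_mul, GG_eval, Phi]
  simp only [eval_mul, eval_sub, eval_C, S_eval]
  ring

theorem FF_nice (T : Finset ℚ) (c₀ : ℝ) {q : ℕ} (cs : Fin q → ℝ) : Nice (FF T c₀ cs) := by
  unfold FF GG
  refine nice_mul (nice_mul (nice_const _) (nice_prod _ fun i => nice_mul (nice_const _)
    (nice_sub (nice_const _) (nice_C ?_)))) (nice_mul (nice_const _) (nice_sub (nice_const _) (nice_C ?_)))
  · fun_prop
  · fun_prop

theorem second (G U : ℝ[X]) (ρ : ℝ) (h : U.eval ρ = 0) :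
    (derivative^[2] (G * (U * U))).eval ρ = 2 * G.eval ρ * (derivative U).eval ρ ^ 2 := by
  simp only [Function.iterate_succ, Function.iterate_zero, Function.comp, id, derivative_mul,
    eval_add, eval_mul, derivative_add, h]
  ring

theorem three {P : ℝ[X]} {l r c : ℝ} (h : ∀ x ∈ Set.Ioo l r, 0 < (derivative^[2] P).eval x)
    {x y z : ℝ} (hx : x ∈ Set.Ioo l r) (hz : z ∈ Set.Ioo l r) (hxy : x < y) (hyz : y < z)
    (ex : P.eval x = c) (ey : P.eval y = c) (ez : P.eval z = c) : False := by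
  have h1 : deriv (fun x => P.eval x) = fun x => (derivative P).eval x := funext fun x => P.deriv
  have h2 : deriv (fun x => (derivative P).eval x) = fun x => (derivative (derivative P)).eval x :=
    funext fun x => (derivative P).deriv
  have hc : StrictConvexOn ℝ (Set.Ioo l r) (fun x => P.eval x) := by
    refine strictConvexOn_of_deriv2_pos (convex_Ioo l r) P.continuous.continuousOn ?_
    intro x hx
    rw [interior_Ioo] at hx
    have := h x hx
    simp only [Function.iterate_succ, Function.iterate_zero, Function.comp, id] at this ⊢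
    rw [h1, h2]
    exact this
  have := hc.slope_strict_mono_adjacent hx hz hxy hyz
  simp only [ex, ey, ez, sub_self, zero_div, lt_irrefl] at this

end LIT

open LIT in
theorem t_LIT : S_LIT := by
  classical
  intro T q c₀ cs ρ w hc₀ hρ h7 hcs hT hw hwA δ₀ hδ₀
  obtain ⟨A0, hA0⟩ : ∃ A0, A0 = PT T ρ * ∏ i, (c₀ ^ 2 - cs i ^ 2) ^ 2 := ⟨_, rfl⟩
  rw [← hA0] at hwA ⊢
  have hA0p : 0 < A0 := by
    rw [hA0]
    refine mul_pos hT (prod_pos fun i _ => ?_)
    have := sub_ne_zero.2 (hcs i).symm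
    positivity
  have hGn : Nice (fun y : ℝ × (Fin q → ℝ) => GG T cs y.2) := by
    unfold GG
    refine nice_mul (nice_const _) (nice_prod _ fun i => nice_mul (nice_const _)
      (nice_sub (nice_const _) (nice_C ?_)))
    fun_prop
  have hAc : Continuous (fun p : (ℝ × (Fin q → ℝ)) × ℝ => (GG T cs p.1.2).eval p.2) := hGn 0
  have hFc : Continuous (fun p : (ℝ × (Fin q → ℝ)) × ℝ => (FF T c₀ cs p.1).eval p.2) :=
    FF_nice T c₀ cs 0
  have hDc := FF_nice T c₀ cs 2
  have hAb : (GG T cs cs).eval ρ = A0 := by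
    rw [GG_eval, hρ, hA0]
    simp only [← sq]
  -- the derivative of the square
  have hr : ρ ^ 3 - 7 * ρ ≠ 0 := by
    intro h
    unfold ss at hρ
    rw [h] at hρ
    have : 0 < c₀ ^ 2 := by positivity
    linarith [hρ]
  have hsd : (derivative (S - C (c₀ ^ 2))).eval ρ = 2 * (ρ ^ 3 - 7 * ρ) * (3 * ρ ^ 2 - 7) := by
    simp [S, derivative_pow]
    try ring
  have hsd0 : (derivative (S - C (c₀ ^ 2))).eval ρ ≠ 0 := by
    rw [hsd]
    have := sub_ne_zero.2 h7
    positivity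
  have hDb : 0 < (derivative^[2] (FF T c₀ cs (c₀, cs))).eval ρ := by
    show 0 < (derivative^[2] (GG T cs cs * ((S - C (c₀ ^ 2)) * (S - C (c₀ ^ 2))))).eval ρ
    rw [second _ _ _ (by rw [eval_sub, eval_C, S_eval, hρ, sub_self]), hAb]
    positivity
  -- neighbourhoods
  obtain ⟨κ, hκ⟩ : ∃ κ, κ = min (|w - A0| / 2) (A0 / 2) := ⟨_, rfl⟩
  have hwA' : 0 < |w - A0| := abs_pos.2 (sub_ne_zero.2 hwA)
  have hκ0 : 0 < κ := by rw [hκ]; exact lt_min (by positivity) (by positivity)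
  have hκ1 : κ ≤ |w - A0| / 2 := by rw [hκ]; exact min_le_left _ _
  have hκ2 : κ ≤ A0 / 2 := by rw [hκ]; exact min_le_right _ _
  have hev : ∀ᶠ p : (ℝ × (Fin q → ℝ)) × ℝ in 𝓝 ((c₀, cs), ρ),
      0 < (derivative^[2] (FF T c₀ cs p.1)).eval p.2 ∧ |(GG T cs p.1.2).eval p.2 - A0| < κ := by
    have h0 : ContinuousAt (fun p : (ℝ × (Fin q → ℝ)) × ℝ =>
        (derivative^[2] (FF T c₀ cs p.1)).eval p.2) ((c₀, cs), ρ) := hDc.continuousAt
    refine (h0.eventually_const_lt hDb).and ?_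
    have h1 : ContinuousAt (fun p : (ℝ × (Fin q → ℝ)) × ℝ => |(GG T cs p.1.2).eval p.2 - A0|)
        ((c₀, cs), ρ) := ((hAc.sub continuous_const).abs).continuousAt
    refine h1.eventually_lt_const ?_
    show |(GG T cs cs).eval ρ - A0| < κ
    rw [hAb, sub_self, abs_zero]
    exact hκ0
  obtain ⟨η, hη, hηb⟩ := Metric.eventually_nhds_iff.1 hev
  have hstrict : HasStrictDerivAt (fun x => (S - C (c₀ ^ 2)).eval x)
      ((derivative (S - C (c₀ ^ 2))).eval ρ) ρ := (S - C (c₀ ^ 2)).hasStrictDerivAt ρ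
  have hne := hstrict.hasDerivAt.eventually_ne hsd0 (c := 0)
  rw [eventually_nhdsWithin_iff] at hne
  obtain ⟨η2, hη2, hη2b⟩ := Metric.eventually_nhds_iff.1 hne
  obtain ⟨δ, hδd⟩ : ∃ δ, δ = min (min (η / 2) (η2 / 2)) (δ₀ / 2) := ⟨_, rfl⟩
  have hδ : 0 < δ := by rw [hδd]; positivity
  have hδ1 : δ < η := by
    have : δ ≤ η / 2 := by rw [hδd]; exact (min_le_left _ _).trans (min_le_left _ _)
    linarith
  have hδ2 : δ < η2 := by
    have : δ ≤ η2 / 2 := by rw [hδd]; exact (min_le_left _ _).trans (min_le_right _ _)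
    linarith
  have hδ3 : δ < δ₀ := by
    have : δ ≤ δ₀ / 2 := by rw [hδd]; exact min_le_right _ _
    linarith
  refine ⟨δ, hδ, hδ3, ?_⟩
  have hend : ∀ x, |x - ρ| = δ → 0 < (FF T c₀ cs (c₀, cs)).eval x := by
    intro x hx
    have h1 : (S - C (c₀ ^ 2)).eval x ≠ 0 := by
      refine hη2b (by rw [Real.dist_eq, hx]; exact hδ2) ?_
      intro h
      rw [Set.mem_singleton_iff.1 h, sub_self, abs_zero] at hx
      linarith
    have h2 := (hηb (y := ((c₀, cs), x)) (by
      rw [Prod.dist_eq, dist_self, Real.dist_eq, hx]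
      exact max_lt hη hδ1)).2
    have h3 : 0 < (GG T cs cs).eval x := by
      have := (abs_lt.1 h2).1
      linarith
    show 0 < (GG T cs cs * ((S - C (c₀ ^ 2)) * (S - C (c₀ ^ 2)))).eval x
    rw [eval_mul, eval_mul]
    have := mul_self_pos.2 h1
    positivity
  have hE2 : ∀ᶠ y : ℝ × (Fin q → ℝ) in 𝓝 (c₀, cs), 0 < (FF T c₀ cs y).eval (ρ + δ) := by
    have h1 : ContinuousAt (fun y : ℝ × (Fin q → ℝ) => (FF T c₀ cs y).eval (ρ + δ)) (c₀, cs) :=
      (hFc.comp (continuous_id.prodMk continuous_const)).continuousAt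
    exact h1.eventually_const_lt (hend _ (by rw [add_sub_cancel_left, abs_of_pos hδ]))
  have hE3 : ∀ᶠ y : ℝ × (Fin q → ℝ) in 𝓝 (c₀, cs), 0 < (FF T c₀ cs y).eval (ρ - δ) := by
    have h1 : ContinuousAt (fun y : ℝ × (Fin q → ℝ) => (FF T c₀ cs y).eval (ρ - δ)) (c₀, cs) :=
      (hFc.comp (continuous_id.prodMk continuous_const)).continuousAt
    exact h1.eventually_const_lt (hend _ (by rw [sub_sub_cancel_left, abs_neg, abs_of_pos hδ]))
  have hE4 : ∀ᶠ y : ℝ × (Fin q → ℝ) in 𝓝 (c₀, cs), ∃ x ∈ Set.Ioo (ρ - δ) (ρ + δ),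
      ss x - c₀ ^ 2 = (y.1 ^ 2 - c₀ ^ 2) / 2 := by
    have h0 : (S - C (c₀ ^ 2)).eval ρ = 0 := by rw [eval_sub, eval_C, S_eval, hρ, sub_self]
    have h1 := hstrict.map_nhds_eq hsd0
    have h2 : (fun x => (S - C (c₀ ^ 2)).eval x) '' Set.Ioo (ρ - δ) (ρ + δ) ∈ 𝓝 (0 : ℝ) := by
      rw [h0] at h1
      rw [← h1]
      exact image_mem_map (Ioo_mem_nhds (by linarith) (by linarith))
    have h3 : ContinuousAt (fun y : ℝ × (Fin q → ℝ) => (y.1 ^ 2 - c₀ ^ 2) / 2) (c₀, cs) := by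
      fun_prop
    have h5 : Tendsto (fun y : ℝ × (Fin q → ℝ) => (y.1 ^ 2 - c₀ ^ 2) / 2) (𝓝 (c₀, cs)) (𝓝 0) := by
      have h6 := h3.tendsto
      simp only [sub_self, zero_div] at h6
      exact h6
    filter_upwards [h5 h2] with y hy
    obtain ⟨x, hx, hxe⟩ := hy
    refine ⟨x, hx, ?_⟩
    have hxe' : (S - C (c₀ ^ 2)).eval x = (y.1 ^ 2 - c₀ ^ 2) / 2 := hxe
    rw [← hxe', eval_sub, eval_C, S_eval]
  have hE5 : ∀ᶠ y : ℝ × (Fin q → ℝ) in 𝓝 (c₀, cs), 0 < y.1 :=
    continuous_fst.continuousAt.eventually_const_lt hc₀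
  obtain ⟨ε1, hε1, hεb⟩ := Metric.eventually_nhds_iff.1 (hE2.and (hE3.and (hE4.and hE5)))
  obtain ⟨ε, hεd⟩ : ∃ ε, ε = min (min (min ε1 η) (w / 8)) (|w - A0| / 8) := ⟨_, rfl⟩
  have hε : 0 < ε := by rw [hεd]; positivity
  have hεa : ε ≤ ε1 := by
    rw [hεd]; exact (min_le_left _ _).trans ((min_le_left _ _).trans (min_le_left _ _))
  have hεη : ε ≤ η := by
    rw [hεd]; exact (min_le_left _ _).trans ((min_le_left _ _).trans (min_le_right _ _))
  have hεw : ε ≤ w / 8 := by rw [hεd]; exact (min_le_left _ _).trans (min_le_right _ _)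
  have hεA : ε ≤ |w - A0| / 8 := by rw [hεd]; exact min_le_right _ _
  refine ⟨ε, hε, fun c' ds v hc' hcc hds hv => ?_⟩
  have hdist : dist ((c', ds) : ℝ × (Fin q → ℝ)) (c₀, cs) < ε := by
    rw [Prod.dist_eq]
    refine max_lt (by rw [Real.dist_eq]; exact hc') ?_
    rw [dist_pi_lt_iff hε]
    intro i
    rw [Real.dist_eq]
    exact hds i
  obtain ⟨hP, hM, ⟨xm, hxm, hxme⟩, hcp⟩ := hεb (hdist.trans_le hεa)
  have hloc : ∀ x ∈ Set.Ioo (ρ - δ) (ρ + δ), 0 < (derivative^[2] (FF T c₀ cs (c', ds))).eval x ∧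
      |(GG T cs ds).eval x - A0| < κ := by
    intro x hx
    refine hηb (y := ((c', ds), x)) ?_
    rw [Prod.dist_eq]
    refine max_lt (hdist.trans_le hεη) ?_
    rw [Real.dist_eq, abs_lt]
    constructor <;> linarith [hx.1, hx.2]
  obtain ⟨d, hd⟩ : ∃ d, d = c' ^ 2 - c₀ ^ 2 := ⟨_, rfl⟩
  have hd0 : 0 < d ^ 2 := by
    have h1 : d ≠ 0 := by
      rw [hd]
      intro h
      have h2 : (c' - c₀) * (c' + c₀) = 0 := by ring_nf; linarith
      rcases mul_eq_zero.1 h2 with h3 | h3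
      · exact hcc (by linarith)
      · simp only at hcp
        linarith
    positivity
  rw [← hd] at hv
  have hv1 := (abs_lt.1 hv).1
  have hv2 := (abs_lt.1 hv).2
  have hPhi : ∀ x, Phi T c₀ cs c' ds x =
      (GG T cs ds).eval x * ((ss x - c₀ ^ 2) * (ss x - c₀ ^ 2 - d)) := by
    intro x
    rw [← FF_eval T c₀ cs (c', ds) x]
    show (GG T cs ds * ((S - C (c₀ ^ 2)) * (S - C (c' ^ 2)))).eval x = _
    simp only [eval_mul, eval_sub, eval_C, S_eval]
    rw [hd]
    ring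
  constructor
  · intro hlt
    rw [abs_of_neg (by linarith)] at hκ1 hεA
    have hvp : 0 < v := by nlinarith
    have hxm1 : Phi T c₀ cs c' ds xm < -v := by
      rw [hPhi, hxme, ← hd]
      have := (abs_lt.1 (hloc xm hxm).2).1
      nlinarith
    have hcont : Continuous (fun x => Phi T c₀ cs c' ds x) := by
      have : (fun x => Phi T c₀ cs c' ds x) = fun x => (FF T c₀ cs (c', ds)).eval x := by
        funext x
        rw [FF_eval]
      rw [this]
      exact (FF T c₀ cs (c', ds)).continuous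
    rw [FF_eval] at hP hM
    simp only at hP hM
    obtain ⟨y1, hy1, hy1e⟩ := intermediate_value_Ioo' (hxm.1.le) hcont.continuousOn
      (show -v ∈ Set.Ioo (Phi T c₀ cs c' ds xm) (Phi T c₀ cs c' ds (ρ - δ)) from ⟨hxm1, by linarith⟩)
    obtain ⟨y2, hy2, hy2e⟩ := intermediate_value_Ioo (hxm.2.le) hcont.continuousOn
      (show -v ∈ Set.Ioo (Phi T c₀ cs c' ds xm) (Phi T c₀ cs c' ds (ρ + δ)) from ⟨hxm1, by linarith⟩)
    have hy12 : y1 < y2 := hy1.2.trans hy2.1
    have m1 : y1 ∈ Set.Ioo (ρ - δ) (ρ + δ) := ⟨hy1.1, hy1.2.trans hxm.2⟩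
    have m2 : y2 ∈ Set.Ioo (ρ - δ) (ρ + δ) := ⟨hxm.1.trans hy2.1, hy2.2⟩
    rw [Set.ncard_eq_two]
    refine ⟨y1, y2, hy12.ne, ?_⟩
    have e : ∀ x, Phi T c₀ cs c' ds x = -v → (FF T c₀ cs (c', ds)).eval x = -v := by
      intro x hx
      rw [FF_eval]
      exact hx
    have hh : ∀ x ∈ Set.Ioo (ρ - δ) (ρ + δ), 0 < (derivative^[2] (FF T c₀ cs (c', ds))).eval x :=
      fun x hx => (hloc x hx).1
    ext x
    constructor
    · rintro ⟨hx, hxI⟩
      have hx' := e x hx
      rcases lt_trichotomy x y1 with h | h | h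
      · exact (three hh hxI m2 h hy12 hx' (e _ hy1e) (e _ hy2e)).elim
      · exact Or.inl h
      · rcases lt_trichotomy x y2 with h' | h' | h'
        · exact (three hh m1 m2 h h' (e _ hy1e) hx' (e _ hy2e)).elim
        · exact Or.inr h'
        · exact (three hh m1 hxI hy12 h' (e _ hy1e) (e _ hy2e) hx').elim
    · rintro (rfl | rfl)
      · exact ⟨hy1e, m1⟩
      · exact ⟨hy2e, m2⟩
  · intro hlt
    rw [abs_of_pos (by linarith)] at hκ1 hεA
    have hem : Sol T c₀ cs c' ds v ∩ Set.Ioo (ρ - δ) (ρ + δ) = ∅ := by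
      rw [Set.eq_empty_iff_forall_notMem]
      rintro x ⟨hx, hxI⟩
      have hx' : Phi T c₀ cs c' ds x = -v := hx
      rw [hPhi] at hx'
      have h1 := (abs_lt.1 (hloc x hxI).2)
      have h2 : -(d ^ 2 / 4) ≤ (ss x - c₀ ^ 2) * (ss x - c₀ ^ 2 - d) := by
        nlinarith [sq_nonneg (ss x - c₀ ^ 2 - d / 2)]
      have h3 : 0 < (GG T cs ds).eval x := by linarith [h1.1]
      have h4 := mul_le_mul_of_nonneg_left h2 h3.le
      rw [hx'] at h4
      have h5 : (GG T cs ds).eval x < (A0 + w) / 2 := by linarith [h1.2]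
      have h6 := mul_lt_mul_of_pos_right h5 hd0
      have h7' := mul_le_mul_of_nonneg_right hεA hd0.le
      linarith
    rw [hem, Set.ncard_empty]

end Pool.Agent.NH78.SG
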