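import Pool.Agent.NH78.SG.Stm

/-!
# SG-SIM: exactly one solution near a simple root, locally uniformly in the parameters
-/

set_option autoImplicit false

open Filter Topology Set

namespace Pool.Agent.NH78.SG

namespace SIMaux

/-- `Phi` without the factor `x - a` -/
noncomputable def G (T : Finset ℚ) (a : ℚ) (c₀ : ℝ) {q : ℕ} (cs : Fin q → ℝ)
    (z : ℝ × (Fin q → ℝ) × ℝ) : ℝ :=
  (∏ b ∈ T.erase a, (z.2.2 - (b : ℝ))) * ((ss z.2.2 - c₀ ^ 2) * (ss z.2.2 - z.1 ^ 2)) *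
    ∏ i, ((ss z.2.2 - cs i ^ 2) * (ss z.2.2 - z.2.1 i ^ 2))

theorem contDiff_G (T : Finset ℚ) (a : ℚ) (c₀ : ℝ) {q : ℕ} (cs : Fin q → ℝ) :
    ContDiff ℝ 1 (G T a c₀ cs) := by
  unfold G ss
  fun_prop

theorem phi_eq {T : Finset ℚ} {a : ℚ} (ha : a ∈ T) (c₀ : ℝ) {q : ℕ} (cs : Fin q → ℝ) (c' : ℝ)
    (ds : Fin q → ℝ) (x : ℝ) : Phi T c₀ cs c' ds x = (x - a) * G T a c₀ cs (c', ds, x) := by
  unfold Phi PT G
  rw [← Finset.mul_prod_erase T _ ha]
  ring

theorem hasDeriv {T : Finset ℚ} {a : ℚ} (ha : a ∈ T) (c₀ : ℝ) {q : ℕ} (cs : Fin q → ℝ) (c' : ℝ)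
    (ds : Fin q → ℝ) (x : ℝ) : HasDerivAt (Phi T c₀ cs c' ds)
      (G T a c₀ cs (c', ds, x) + (x - a) * fderiv ℝ (G T a c₀ cs) (c', ds, x) (0, 0, 1)) x := by
  have h1 : HasDerivAt (fun y : ℝ => ((c', ds, y) : ℝ × (Fin q → ℝ) × ℝ)) (0, 0, 1) x :=
    (hasDerivAt_const x c').prodMk ((hasDerivAt_const x ds).prodMk (hasDerivAt_id x))
  have h2 : HasFDerivAt (G T a c₀ cs) (fderiv ℝ (G T a c₀ cs) (c', ds, x)) (c', ds, x) :=
    ((contDiff_G T a c₀ cs).differentiable (by norm_num) _).hasFDerivAt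
  have h3 := h2.comp_hasDerivAt x h1
  have h4 : HasDerivAt (fun y : ℝ => y - (a : ℝ)) 1 x := (hasDerivAt_id x).sub_const _
  have h5 : HasDerivAt (fun y : ℝ => (y - (a : ℝ)) * G T a c₀ cs (c', ds, y))
      (1 * G T a c₀ cs (c', ds, x) +
        (x - (a : ℝ)) * fderiv ℝ (G T a c₀ cs) (c', ds, x) (0, 0, 1)) x := h4.mul h3
  have h6 : Phi T c₀ cs c' ds = fun y => (y - (a : ℝ)) * G T a c₀ cs (c', ds, y) :=
    funext fun y => phi_eq ha c₀ cs c' ds y
  rw [h6]
  rw [one_mul] at h5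
  exact h5

end SIMaux

open SIMaux in
theorem t_SIM : S_SIM := by
  intro T q c₀ cs a ha h1 h2 δ₀ hδ₀
  set base : ℝ × (Fin q → ℝ) × ℝ := (c₀, cs, (a : ℝ)) with hbase
  set s : ℝ := G T a c₀ cs base with hs
  have hs0 : s ≠ 0 := by
    rw [hs, hbase]
    unfold G
    refine mul_ne_zero (mul_ne_zero ?_ ?_) ?_
    · refine Finset.prod_ne_zero_iff.2 fun b hb => ?_
      have hne := (Finset.mem_erase.1 hb).1
      rw [sub_ne_zero]
      show (a : ℝ) ≠ (b : ℝ)
      exact_mod_cast hne.symm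
    · exact mul_ne_zero (sub_ne_zero.2 h1) (sub_ne_zero.2 h1)
    · exact Finset.prod_ne_zero_iff.2 fun i _ =>
        mul_ne_zero (sub_ne_zero.2 (h2 i)) (sub_ne_zero.2 (h2 i))
  set D : ℝ × (Fin q → ℝ) × ℝ → ℝ := fun z =>
    G T a c₀ cs z + (z.2.2 - a) * fderiv ℝ (G T a c₀ cs) z (0, 0, 1) with hD
  have hDc : Continuous D := by
    have e1 : Continuous (G T a c₀ cs) := (contDiff_G T a c₀ cs).continuous
    have e2 : Continuous (fderiv ℝ (G T a c₀ cs)) :=
      (contDiff_G T a c₀ cs).continuous_fderiv (by norm_num)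
    have e3 : Continuous fun z => fderiv ℝ (G T a c₀ cs) z (0, 0, 1) := e2.clm_apply continuous_const
    exact e1.add (((continuous_snd.comp continuous_snd).sub continuous_const).mul e3)
  have hDb : D base = s := by
    simp only [hD, hbase, sub_self, zero_mul, add_zero]
    rw [hs, hbase]
  have hs2 : 0 < s ^ 2 := by positivity
  have hev : ∀ᶠ z in 𝓝 base, s ^ 2 / 2 < s * D z := by
    have e1 : Continuous fun z => s * D z := continuous_const.mul hDc
    refine e1.continuousAt.eventually (lt_mem_nhds ?_)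
    show s ^ 2 / 2 < s * D base
    rw [hDb]
    nlinarith
  obtain ⟨η, hη, hball⟩ := Metric.eventually_nhds_iff.1 hev
  set δ : ℝ := min (δ₀ / 2) (η / 2) with hδ
  have hδ0 : 0 < δ := lt_min (by positivity) (by positivity)
  have hδ1 : δ < δ₀ := lt_of_le_of_lt (min_le_left _ _) (by linarith)
  have hδ2 : δ < η := lt_of_le_of_lt (min_le_right _ _) (by linarith)
  refine ⟨δ, hδ0, hδ1, min η (|s| * δ / 2), lt_min hη (by positivity), ?_⟩
  intro c' ds v hc' hds hv
  have hpos : ∀ x ∈ Icc ((a : ℝ) - δ) (a + δ), s ^ 2 / 2 < s * D (c', ds, x) := by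
    intro x hx
    apply hball
    rw [hbase, Prod.dist_eq, Prod.dist_eq]
    refine max_lt ?_ (max_lt ?_ ?_)
    · rw [Real.dist_eq]
      exact lt_of_lt_of_le hc' (min_le_left _ _)
    · rw [dist_pi_lt_iff hη]
      intro i
      rw [Real.dist_eq]
      exact lt_of_lt_of_le (hds i) (min_le_left _ _)
    · rw [Real.dist_eq]
      refine lt_of_le_of_lt ?_ hδ2
      rw [abs_le]
      constructor <;> linarith [hx.1, hx.2]
  set M : ℝ → ℝ := fun x => s * Phi T c₀ cs c' ds x - s ^ 2 / 2 * x with hM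
  have hMd : ∀ x, HasDerivAt M (s * D (c', ds, x) - s ^ 2 / 2) x := by
    intro x
    have e1 : HasDerivAt M (s * D (c', ds, x) - s ^ 2 / 2 * 1) x :=
      ((hasDeriv ha c₀ cs c' ds x).const_mul s).sub ((hasDerivAt_id x).const_mul (s ^ 2 / 2))
    rw [mul_one] at e1
    exact e1
  have hMm : StrictMonoOn M (Icc ((a : ℝ) - δ) (a + δ)) := by
    refine strictMonoOn_of_deriv_pos (convex_Icc _ _)
      (fun x _ => (hMd x).continuousAt.continuousWithinAt) fun x hx => ?_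
    rw [(hMd x).deriv]
    have := hpos x (interior_subset hx)
    linarith
  have hPc : ContinuousOn (fun x => s * Phi T c₀ cs c' ds x) (Icc ((a : ℝ) - δ) (a + δ)) :=
    fun x _ => ((hasDeriv ha c₀ cs c' ds x).const_mul s).continuousAt.continuousWithinAt
  have hPa : Phi T c₀ cs c' ds a = 0 := by
    rw [phi_eq ha, sub_self, zero_mul]
  have ma : (a : ℝ) ∈ Icc ((a : ℝ) - δ) (a + δ) := ⟨by linarith, by linarith⟩
  have ml : (a : ℝ) - δ ∈ Icc ((a : ℝ) - δ) (a + δ) := ⟨le_rfl, by linarith⟩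
  have mr : (a : ℝ) + δ ∈ Icc ((a : ℝ) - δ) (a + δ) := ⟨by linarith, le_rfl⟩
  have hr := hMm ma mr (by linarith)
  have hl := hMm ml ma (by linarith)
  simp only [hM, hPa, mul_zero] at hr hl
  have hv' : |s * v| < s ^ 2 / 2 * δ := by
    rw [abs_mul]
    have h3 : |v| < |s| * δ / 2 := lt_of_lt_of_le hv (min_le_right _ _)
    have h4 : 0 < |s| := abs_pos.2 hs0
    have h5 : |s| ^ 2 = s ^ 2 := sq_abs s
    calc |s| * |v| < |s| * (|s| * δ / 2) := mul_lt_mul_of_pos_left h3 h4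
      _ = |s| ^ 2 / 2 * δ := by ring
      _ = s ^ 2 / 2 * δ := by rw [h5]
  rw [abs_lt] at hv'
  have hmem : -(s * v) ∈ Ioo (s * Phi T c₀ cs c' ds ((a : ℝ) - δ))
      (s * Phi T c₀ cs c' ds ((a : ℝ) + δ)) := by
    constructor
    · nlinarith [hv'.1, hv'.2]
    · nlinarith [hv'.1, hv'.2]
  obtain ⟨x, hx, hxe⟩ := intermediate_value_Ioo (by linarith) hPc hmem
  have hxe' : Phi T c₀ cs c' ds x = -v := by
    have e1 : s * Phi T c₀ cs c' ds x = s * (-v) := by
      have e2 : s * Phi T c₀ cs c' ds x = -(s * v) := hxe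
      rw [e2]; ring
    exact mul_left_cancel₀ hs0 e1
  have hset : Sol T c₀ cs c' ds v ∩ Set.Ioo ((a : ℝ) - δ) (a + δ) = {x} := by
    ext y
    constructor
    · rintro ⟨hy, hy2⟩
      have hy' : Phi T c₀ cs c' ds y = -v := hy
      have mx := Ioo_subset_Icc_self hx
      have my := Ioo_subset_Icc_self hy2
      rcases lt_trichotomy y x with h | h | h
      · have e1 := hMm my mx h
        simp only [hM, hy', hxe'] at e1
        nlinarith
      · exact h
      · have e1 := hMm mx my h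
        simp only [hM, hy', hxe'] at e1
        nlinarith
    · rintro rfl
      exact ⟨hxe', hx⟩
  rw [hset, Set.ncard_singleton]

end Pool.Agent.NH78.SG
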