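import Pool.Agent.NH78.SG.FLD
import Pool.Agent.NH78.SG.SIM
import Pool.Agent.NH78.SG.FAR
import Pool.Agent.NH78.SG.LIT
import Pool.Agent.NH78.SG.CEN
import Pool.Agent.NH78.SG.CNT
import Pool.Agent.NH78.SG.DEN
import Pool.Agent.NH78.SG.DEN2
import Pool.Agent.NH78.SG.BLKc
import Pool.Agent.NH78.SG.EXT2
import Pool.Agent.NH78.SG.DAT

/-!
# Sets of roots with six equal values and a prescribed number of real solutions
-/

set_option autoImplicit false

namespace Pool.Agent.NH78.SG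

theorem t_EXTS : S_EXT2 := t_EXT2 t_BLK (t_DEN2 t_DEN) (t_CNT t_SIM t_FAR t_LIT t_CEN)

end Pool.Agent.NH78.SG
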