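import Pool.Agent.NH78.SG.Stm

set_option autoImplicit false

namespace Pool.Agent.NH78.SG

namespace Fin19

open Polynomial

/-- the polynomial `(X ^ 3 - 7 X) ^ 2 - u` -/
noncomputable def qq (u : ℝ) : ℝ[X] := (X ^ 3 - C 7 * X) ^ 2 - C u

lemma cub_monic : (X ^ 3 - C 7 * X : ℝ[X]).Monic := by
  monicity!

lemma cub_deg : (X ^ 3 - C 7 * X : ℝ[X]).natDegree = 3 := by
  compute_degree!

lemma sq_deg : ((X ^ 3 - C 7 * X : ℝ[X]) ^ 2).natDegree = 6 := by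
  rw [cub_monic.natDegree_pow, cub_deg]

lemma qq_monic (u : ℝ) : (qq u).Monic := by
  unfold qq
  apply Monic.sub_of_left (cub_monic.pow 2)
  rw [degree_eq_natDegree (cub_monic.pow 2).ne_zero, sq_deg]
  exact lt_of_le_of_lt degree_C_le (by norm_num)

lemma qq_deg (u : ℝ) : (qq u).natDegree = 6 := by
  unfold qq
  rw [natDegree_sub_C, sq_deg]

/-- `Phi` as a polynomial -/
noncomputable def PP (T : Finset ℚ) (c₀ : ℝ) {q : ℕ} (cs : Fin q → ℝ) (c' : ℝ) (ds : Fin q → ℝ) :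
    ℝ[X] :=
  (∏ a ∈ T, (X - C (a : ℝ))) * (qq (c₀ ^ 2) * qq (c' ^ 2)) *
    ∏ i, (qq (cs i ^ 2) * qq (ds i ^ 2))

lemma PP_monic (T : Finset ℚ) (c₀ : ℝ) {q : ℕ} (cs : Fin q → ℝ) (c' : ℝ) (ds : Fin q → ℝ) :
    (PP T c₀ cs c' ds).Monic := by
  unfold PP
  refine Monic.mul (Monic.mul ?_ ((qq_monic _).mul (qq_monic _))) ?_
  · exact monic_prod_of_monic _ _ fun a _ => monic_X_sub_C _
  · exact monic_prod_of_monic _ _ fun i _ => (qq_monic _).mul (qq_monic _)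

lemma PP_eval (T : Finset ℚ) (c₀ : ℝ) {q : ℕ} (cs : Fin q → ℝ) (c' : ℝ) (ds : Fin q → ℝ) (x : ℝ) :
    (PP T c₀ cs c' ds).eval x = Phi T c₀ cs c' ds x := by
  unfold PP Phi PT ss qq
  simp only [eval_mul, eval_prod, eval_sub, eval_pow, eval_X, eval_C]

lemma PP_deg (T : Finset ℚ) (c₀ : ℝ) {q : ℕ} (cs : Fin q → ℝ) (c' : ℝ) (ds : Fin q → ℝ) :
    0 < (PP T c₀ cs c' ds).natDegree := by
  have h1 : (∏ a ∈ T, (X - C (a : ℝ)) : ℝ[X]).Monic :=
    monic_prod_of_monic _ _ fun a _ => monic_X_sub_C _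
  have h3 : (∏ i, (qq (cs i ^ 2) * qq (ds i ^ 2))).Monic :=
    monic_prod_of_monic _ _ fun i _ => (qq_monic _).mul (qq_monic _)
  unfold PP
  rw [(h1.mul ((qq_monic _).mul (qq_monic _))).natDegree_mul h3,
    h1.natDegree_mul ((qq_monic _).mul (qq_monic _)), (qq_monic _).natDegree_mul (qq_monic _),
    qq_deg, qq_deg]
  omega

end Fin19

open Polynomial in
theorem Sol_finite (T : Finset ℚ) (c₀ : ℝ) {q : ℕ} (cs : Fin q → ℝ) (c' : ℝ) (ds : Fin q → ℝ)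
    (v : ℝ) : (Sol T c₀ cs c' ds v).Finite := by
  have hne : Fin19.PP T c₀ cs c' ds + C v ≠ 0 := by
    intro h
    have h1 : (Fin19.PP T c₀ cs c' ds + C v).natDegree = (Fin19.PP T c₀ cs c' ds).natDegree :=
      natDegree_add_C
    rw [h, natDegree_zero] at h1
    have := Fin19.PP_deg T c₀ cs c' ds
    omega
  refine (Polynomial.finite_setOfPred_isRoot hne).subset ?_
  intro x hx
  show (Fin19.PP T c₀ cs c' ds + C v).IsRoot x
  unfold Sol at hx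
  rw [IsRoot, eval_add, eval_C, Fin19.PP_eval]
  have : Phi T c₀ cs c' ds x = -v := hx
  rw [this]; ring

end Pool.Agent.NH78.SG
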