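import Pool.Agent.NH78.SG.Stm

/-!
# SG-EXT: positivity near the level set of the first atom
-/

set_option autoImplicit false

namespace Pool.Agent.NH78.SG.P2

open Finset

theorem cont (T : Finset ℚ) : Continuous fun x : ℝ => PT T x := by
  unfold PT
  exact continuous_finset_prod _ fun a _ => continuous_id.sub continuous_const

theorem pos_near (T B₀ : Finset ℚ) (c₀ : ℚ) (h : Spl c₀ B₀) (hp : ∀ ρ ∈ B₀, 0 < PT T (ρ : ℝ)) :
    ∃ η : ℝ, 0 < η ∧ ∀ x : ℝ, |ss x - (c₀ : ℝ) ^ 2| < η → 0 < PT T x := by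
  classical
  have h1 : ∀ ρ ∈ B₀, ∃ δ : ℝ, 0 < δ ∧ ∀ x : ℝ, |x - (ρ : ℝ)| < δ → 0 < PT T x := by
    intro ρ hρ
    have h2 := (cont T).continuousAt.eventually (lt_mem_nhds (hp ρ hρ))
    obtain ⟨δ, hδ, h3⟩ := Metric.eventually_nhds_iff.1 h2
    exact ⟨δ, hδ, fun x hx => h3 (by rw [Real.dist_eq]; exact hx)⟩
  choose! δ hδ0 hδ using h1
  have hne : B₀.Nonempty := card_pos.1 (by rw [h.card]; norm_num)
  obtain ⟨ρ₀, hρ₀, hmin⟩ := exists_min_image B₀ δ hne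
  refine ⟨δ ρ₀ ^ 6, pow_pos (hδ0 _ hρ₀) _, fun x hx => ?_⟩
  rw [← h.eq x] at hx
  by_contra hcon
  have h4 : ∀ ρ ∈ B₀, δ ρ₀ ≤ |x - (ρ : ℝ)| := by
    intro ρ hρ
    by_contra h5
    exact hcon (hδ ρ hρ x (lt_of_lt_of_le (not_le.1 h5) (hmin ρ hρ)))
  have h6 : δ ρ₀ ^ 6 ≤ |PT B₀ x| := by
    unfold PT
    rw [abs_prod, ← h.card, ← prod_const]
    exact prod_le_prod (fun _ _ => (hδ0 _ hρ₀).le) h4
  linarith

end Pool.Agent.NH78.SG.P2
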