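import Pool.Agent.NH78.SG.Stm

/-!
# Project SG: the condition on the derivative
-/

set_option autoImplicit false

namespace Pool.Agent.NH78.SG

open Finset

/-- the derivative does not vanish at `±1, ±2, ±3` -/
def SumNe (F : Finset ℚ) : Prop :=
  ∀ b : ℚ, (b ^ 2 = 1 ∨ b ^ 2 = 4 ∨ b ^ 2 = 9) → ∑ a ∈ F, 1 / (b - a) ≠ 0

/-- SG-DEN2: atoms are dense, with the condition on the derivative -/
def S_DEN2 : Prop := ∀ (F : Finset ℚ) (α β : ℝ), 0 ≤ α → α < β → β ≤ 7 →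
  ∃ (c : ℚ) (B : Finset ℚ), α < c ∧ (c : ℝ) < β ∧ Spl c B ∧ Disjoint F B ∧ SumNe (F ∪ B)

/-- SG-EXT2: the sets of roots -/
def S_EXT2 : Prop := ∀ n r : ℕ, 2 * r + 57 ≤ n → (n % 2 = 1 ∨ r % 2 = 0) →
  ∃ (F : Finset ℚ) (v₀ : ℚ), Fin6 n r F v₀ ∧ SumNe F

/-- SG-DAT2: the data -/
def S_DAT2 : Prop := ∀ (n r : ℕ) (F : Finset ℚ) (v₀ : ℚ), Fin6 n r F v₀ → SumNe F →
  ∃ (D : Pool.Agent.W289.CG.Dat n 6) (v₁ v₂ : ℝ), 0 < v₁ ∧ v₁ < v₂ ∧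
    ∀ v, v₁ < v → v < v₂ → {X : ℝ | ∏ i, (X - (D.a i : ℝ)) = -v}.ncard + 2 * r = n

end Pool.Agent.NH78.SG
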